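import Pool.Agent.Lib.MP_391708_nt.X3.SpecMT

/-!
Module AVB: the means with characters.
-/

set_option autoImplicit false

namespace Pool.Agent.Lib.MP391708.X3M

open Finset Filter Topology Pool.Agent.Lib.MP391708.MR
open Pool.Agent.Lib.MP391708.X (ChiG hk Dist Fam rgh VP Ix psi ix1 UOK lc On)
open Pool.Agent.Lib.MP391708.X3
open Pool.Agent.Lib.MP391708.XL (gb VS PS pt LN)
open Pool.Agent.Lib.MP391708.QPA (PB)
open Pool.Agent.Lib.MP391708.QPA.FLW (Dset)
open scoped ComplexConjugate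

namespace AVBM

lemma pt_ne (n : ℤ) (b : ℕ) (hb : 1 ≤ b) : pt n b ≠ 0 := by
  intro h
  have h1 := congrArg Zsqrtd.im h
  simp only [pt, Zsqrtd.im_zero] at h1
  omega

lemma ro_nonneg (w : ℝ) (z : Gi) : 0 ≤ ro w z := by
  unfold ro
  split_ifs <;> norm_num

lemma av_real (L : ℕ) (g : ℤ → ℝ) :
    av L (fun n => (g n : ℂ)) = (((1 / (L : ℝ)) * ∑ n ∈ range L, g n : ℝ) : ℂ) := by
  unfold av
  push_cast
  rfl

lemma norm_av_le (L : ℕ) (G : ℤ → ℂ) (g : ℤ → ℝ) (h : ∀ n, ‖G n‖ ≤ g n) :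
    ‖av L G‖ ≤ (1 / (L : ℝ)) * ∑ n ∈ range L, g n := by
  unfold av
  rw [norm_mul]
  have h1 : ‖(1 / (L : ℂ))‖ = 1 / (L : ℝ) := by
    rw [norm_div, norm_one, Complex.norm_natCast]
  rw [h1]
  apply mul_le_mul_of_nonneg_left _ (by positivity)
  exact (norm_sum_le _ _).trans (Finset.sum_le_sum fun n _ => h n)

lemma per_pos (w : ℝ) (U : Finset Ix) (hU : ∀ i ∈ U, 1 ≤ i.1) : 0 < per w U := by
  unfold per
  refine Nat.mul_pos (Finset.prod_pos fun p hp => ?_) (pow_pos (Finset.prod_pos fun i hi => hU i hi) 2)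
  simp only [PS, Finset.mem_filter] at hp
  exact hp.2.1.pos

end AVBM

open AVBM in
theorem specAVB (hLAM : SpecLAM) (hAVW : SpecAVW) (hSIZ : SpecSIZ) (hCHB : XL.SpecCHB) : SpecAVB := by
  intro C m
  refine (hSIZ.and EV.uok).mono ?_
  rintro p B U b y ⟨hs, hu1, hu⟩ c d hW
  have hw := hs.w1
  have hb := hs.b1
  have hL : 0 < per p.w U := per_pos p.w U fun i hi => (hu i hi).1
  obtain ⟨x, x', hx, hx', h1, h2, h3⟩ :=
    hAVW C p.w m c d b (per p.w U) hw hW hL (Dvd.intro _ rfl)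
  have hlam : ∀ n : ℤ, 0 ≤ lam p.w m c (pt n b) := fun n =>
    (ro_nonneg _ _).trans (hLAM C p.w m c d hw hW _ (pt_ne n b hb)).1
  have hxr : x = (1 / (per p.w U : ℝ)) * ∑ n ∈ range (per p.w U), lam p.w m c (pt n b) := by
    rw [av_real] at hx
    exact_mod_cast hx.symm
  have hone : AV p m c U b ix1 ix1 = x := by
    rw [← hx]
    unfold AV
    congr 1
    funext n
    simp [ix1]
  refine ⟨fun i hi => ?_, ?_, ?_⟩
  · refine le_trans ?_ h2
    rw [hxr]
    unfold AV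
    refine norm_av_le _ _ (fun n => lam p.w m c (pt n b)) fun n => ?_
    show _ ≤ lam p.w m c (pt n b)
    have hc : ‖i.2.1 (pt n b)‖ ≤ 1 := (hCHB i.1 i.2.1 (hu i hi).1 (hu i hi).2.1).2.2 _
    have h4 : ‖ix1.2.1 (pt n b)‖ = 1 := by simp [ix1]
    rw [norm_mul, norm_mul, h4, mul_one, Complex.norm_real, Real.norm_eq_abs, abs_of_nonneg (hlam n),
      RCLike.norm_conj]
    exact mul_le_of_le_one_right (hlam n) hc
  · rw [hone, Complex.ofReal_im]
  · rw [hone, Complex.ofReal_re]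
    exact h1

end Pool.Agent.Lib.MP391708.X3M
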