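import Pool.Agent.Lib.MP_391708_nt.X3.SpecMT

/-!
# THEOREM X3 (MP_391708), part MT, module AVP: the mean does not depend on the period (helper45)
-/

set_option autoImplicit false

namespace Pool.Agent.Lib.MP391708.X3M

open Finset

namespace AVPM

theorem shift (q : ℕ) (G : ℤ → ℂ) (hG : ∀ n, G (n + q) = G n) (k : ℕ) (n : ℤ) :
    G (n + ((q * k : ℕ) : ℤ)) = G n := by
  induction k with
  | zero => simp
  | succ k ih =>
    have e : n + ((q * (k + 1) : ℕ) : ℤ) = (n + ((q * k : ℕ) : ℤ)) + q := by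
      push_cast
      ring
    rw [e, hG, ih]

theorem sum_mul (q : ℕ) (G : ℤ → ℂ) (hG : ∀ n, G (n + q) = G n) (k : ℕ) :
    ∑ n ∈ range (q * k), G n = k * ∑ n ∈ range q, G n := by
  induction k with
  | zero => simp
  | succ k ih =>
    rw [Nat.mul_succ, sum_range_add, ih]
    have e : ∑ x ∈ range q, G ((q * k + x : ℕ) : ℤ) = ∑ n ∈ range q, G n := by
      refine sum_congr rfl fun x _ => ?_
      have e1 : ((q * k + x : ℕ) : ℤ) = (x : ℤ) + ((q * k : ℕ) : ℤ) := by
        push_cast
        ring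
      rw [e1, shift q G hG]
    rw [e]
    push_cast
    ring

end AVPM

/-- **AVP**: the mean does not depend on the period. -/
theorem specAVP : SpecAVP := by
  intro q L G hq hL hqL hG
  obtain ⟨k, rfl⟩ := hqL
  have hk : k ≠ 0 := by
    rintro rfl
    simp at hL
  unfold av
  rw [AVPM.sum_mul q G hG k]
  have h1 : (q : ℂ) ≠ 0 := by exact_mod_cast hq.ne'
  have h2 : (k : ℂ) ≠ 0 := by exact_mod_cast hk
  push_cast
  field_simp

end Pool.Agent.Lib.MP391708.X3M
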