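import Pool.Agent.Lib.MP_391708_nt.X3.SpecMT

/-!
# Theorem X3, part MT, module AVW: the means of the sieve weights on the line
-/

set_option autoImplicit false

namespace Pool.Agent.Lib.MP391708.X3M

open Finset Filter Topology Pool.Agent.Lib.MP391708.MR
open Pool.Agent.Lib.MP391708.X (ChiG hk Dist Fam rgh VP Ix psi ix1 UOK lc On)
open Pool.Agent.Lib.MP391708.X3
open Pool.Agent.Lib.MP391708.XL (gb VS PS pt LN)
open Pool.Agent.Lib.MP391708.QPA (PB)
open Pool.Agent.Lib.MP391708.QPA.FLW (Dset)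
open scoped ComplexConjugate

namespace AVWM

/-- sum of a periodic function over several periods -/
lemma sum_per (D k : ℕ) (f : ℕ → ℝ) (hf : ∀ n, f (n + D) = f n) :
    ∑ n ∈ range (D * k), f n = k * ∑ n ∈ range D, f n := by
  have hf2 : ∀ j n, f (D * j + n) = f n := by
    intro j
    induction j with
    | zero => intro n; simp
    | succ j ih =>
      intro n
      have : D * (j + 1) + n = (D * j + n) + D := by ring
      rw [this, hf, ih]
  induction k with
  | zero => simp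
  | succ k ih =>
    have : D * (k + 1) = D * k + D := by ring
    rw [this, Finset.sum_range_add, ih]
    rw [Finset.sum_congr rfl fun n _ => hf2 k n]
    push_cast
    ring

/-- divisibility of the norm is periodic -/
lemma nm_per (b : ℤ) (p : ℕ) (n : ℤ) : p ∣ nm (pt (n + p) b) ↔ p ∣ nm (pt n b) := by
  have h1 : ∀ m : ℤ, p ∣ nm (pt m b) ↔ (p : ℤ) ∣ m ^ 2 + b ^ 2 := by
    intro m
    rw [← Int.natCast_dvd_natCast, nm_cast]
    rfl
  rw [h1, h1]
  have h2 : (n + p) ^ 2 + b ^ 2 = (n ^ 2 + b ^ 2) + (p : ℤ) * (2 * n + p) := by ring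
  rw [h2]
  exact (dvd_add_left (dvd_mul_right _ _))

open scoped Classical in
/-- the density -/
lemma dens (hCRTP : XL.SpecCRTP) (b : ℤ) (L : ℕ) (hL : 0 < L) (δ : ℕ) (hδ : Squarefree δ)
    (hδL : δ ∣ L) :
    ∑ n ∈ range L, (if δ ∣ nm (pt n b) then (1 : ℝ) else 0) =
      L * ∏ p ∈ δ.primeFactors, gb b p := by
  have hδ0 : 0 < δ := Nat.pos_of_dvd_of_pos hδL hL
  obtain ⟨k, rfl⟩ := hδL
  have hprod : ∏ p ∈ δ.primeFactors, p = δ := Nat.prod_primeFactors_of_squarefree hδ
  -- indicator as a product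
  have hind : ∀ n : ℤ, (if δ ∣ nm (pt n b) then (1 : ℝ) else 0) =
      ∏ p ∈ δ.primeFactors, (if p ∣ nm (pt n b) then (1 : ℝ) else 0) := by
    intro n
    by_cases h : δ ∣ nm (pt n b)
    · rw [if_pos h]
      symm
      refine Finset.prod_eq_one fun p hp => ?_
      rw [if_pos ((Nat.dvd_of_mem_primeFactors hp).trans h)]
    · rw [if_neg h]
      symm
      rw [Finset.prod_eq_zero_iff]
      by_contra hc
      push Not at hc
      apply h
      rw [← hprod]
      refine Finset.prod_primes_dvd _ (fun p hp => (Nat.prime_of_mem_primeFactors hp).prime)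
        fun p hp => ?_
      have := hc p hp
      by_contra h2
      exact this (if_neg h2)
  have hper : ∀ n : ℤ, (if δ ∣ nm (pt (n + δ) b) then (1 : ℝ) else 0) =
      if δ ∣ nm (pt n b) then (1 : ℝ) else 0 := by
    intro n
    simp only [nm_per]
  have h1 : ∑ n ∈ range (δ * k), (if δ ∣ nm (pt n b) then (1 : ℝ) else 0) =
      k * ∑ n ∈ range δ, (if δ ∣ nm (pt n b) then (1 : ℝ) else 0) := by
    refine sum_per δ k (fun n : ℕ => if δ ∣ nm (pt n b) then (1 : ℝ) else 0) fun n => ?_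
    have := hper n
    push_cast at this ⊢
    exact this
  rw [h1]
  have h2 := hCRTP 1 δ.primeFactors (fun _ => 1)
    (fun p n => if p ∣ nm (pt n b) then (1 : ℝ) else 0) one_pos
    (fun p hp => ⟨Nat.prime_of_mem_primeFactors hp, fun h =>
      (Nat.prime_of_mem_primeFactors hp).one_lt.ne' (Nat.dvd_one.1 h)⟩)
    (fun _ => rfl) (fun p _ n => by simp only [nm_per])
  rw [hprod, one_mul] at h2
  simp only [one_mul, Finset.sum_const, Finset.card_range, one_smul] at h2
  rw [Finset.sum_congr rfl fun (n : ℕ) _ => hind n, h2]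
  have h3 : ∀ p ∈ δ.primeFactors, ∑ n ∈ range p, (if p ∣ nm (pt n b) then (1 : ℝ) else 0) =
      (p : ℝ) * gb b p := by
    intro p hp
    have hp0 : (p : ℝ) ≠ 0 := by
      exact_mod_cast (Nat.prime_of_mem_primeFactors hp).pos.ne'
    unfold XL.gb
    rw [mul_div_cancel₀ _ hp0, Finset.sum_ite]
    simp
  rw [Finset.prod_congr rfl h3, Finset.prod_mul_distrib]
  have h4 : ∏ p ∈ δ.primeFactors, (p : ℝ) = δ := by
    rw [← Nat.cast_prod, hprod]
  rw [h4]
  push_cast
  ring

open scoped Classical in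
/-- the mean of `lam` -/
lemma mean (hCRTP : XL.SpecCRTP) (w : ℝ) (m : ℕ) (c : ℕ → ℝ) (b : ℤ) (L : ℕ) (hL : 0 < L)
    (hPL : (∏ p ∈ PS w, p) ∣ L) :
    av L (fun n => (lam w m c (pt n b) : ℂ)) =
      ((∑ δ ∈ Dset (w + 1) m, c δ * ∏ p ∈ δ.primeFactors,
        (if p ∈ PS w then gb b p else 0) : ℝ) : ℂ) := by
  have hL0 : (L : ℝ) ≠ 0 := by exact_mod_cast hL.ne'
  have h1 : ∑ n ∈ range L, lam w m c (pt n b) =
      L * ∑ δ ∈ Dset (w + 1) m, c δ * ∏ p ∈ δ.primeFactors,
        (if p ∈ PS w then gb b p else 0) := by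
    unfold lam
    simp only [Finset.sum_filter]
    rw [Finset.sum_comm, Finset.mul_sum]
    refine Finset.sum_congr rfl fun δ hδ => ?_
    have hsq : Squarefree δ := by
      unfold Dset at hδ
      exact (Finset.mem_filter.1 hδ).2.1
    by_cases hs : δ.primeFactors ⊆ PS w
    · have hδL : δ ∣ L := by
        refine dvd_trans ?_ hPL
        rw [← Nat.prod_primeFactors_of_squarefree hsq]
        exact Finset.prod_dvd_prod_of_subset _ _ _ hs
      have h2 := dens hCRTP b L hL δ hsq hδL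
      have h3 : ∏ p ∈ δ.primeFactors, (if p ∈ PS w then gb b p else 0) =
          ∏ p ∈ δ.primeFactors, gb b p :=
        Finset.prod_congr rfl fun p hp => if_pos (hs hp)
      rw [h3]
      calc ∑ n ∈ range L, (if δ.primeFactors ⊆ PS w ∧ δ ∣ nm (pt n b) then c δ else 0) =
          ∑ n ∈ range L, c δ * (if δ ∣ nm (pt n b) then (1 : ℝ) else 0) := by
            refine Finset.sum_congr rfl fun n _ => ?_
            by_cases h : δ ∣ nm (pt n b)
            · rw [if_pos ⟨hs, h⟩, if_pos h, mul_one]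
            · rw [if_neg (fun h' => h h'.2), if_neg h, mul_zero]
        _ = c δ * (L * ∏ p ∈ δ.primeFactors, gb b p) := by rw [← Finset.mul_sum, h2]
        _ = _ := by ring
    · have h3 : ∏ p ∈ δ.primeFactors, (if p ∈ PS w then gb b p else 0) = 0 := by
        rw [Finset.not_subset] at hs
        obtain ⟨p, hp, hpn⟩ := hs
        exact Finset.prod_eq_zero hp (if_neg hpn)
      rw [h3, mul_zero, mul_zero]
      refine Finset.sum_eq_zero fun n _ => ?_
      rw [if_neg (fun h => hs h.1)]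
  unfold av
  have h2 : ∑ n ∈ range L, ((lam w m c (pt n b) : ℝ) : ℂ) =
      ((L * ∑ δ ∈ Dset (w + 1) m, c δ * ∏ p ∈ δ.primeFactors,
        (if p ∈ PS w then gb b p else 0) : ℝ) : ℂ) := by
    rw [← h1]
    push_cast
    rfl
  rw [h2]
  have hLC : (L : ℂ) ≠ 0 := by exact_mod_cast hL.ne'
  rw [Complex.ofReal_mul, ← mul_assoc]
  have : (1 / (L : ℂ)) * ((L : ℝ) : ℂ) = 1 := by
    rw [Complex.ofReal_natCast]
    field_simp
  rw [this, one_mul]

end AVWM

theorem specAVW (hCRTP : XL.SpecCRTP) (hGBB : XL.SpecGBB) : SpecAVW := by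
  classical
  intro C w m c d b L hw hWt hL hPL
  set g : ℕ → ℝ := fun p => if p ∈ PS w then gb b p else 0 with hg
  obtain ⟨hgb, -, -⟩ := hGBB
  have hPSp : ∀ p ∈ PS w, p.Prime ∧ p ∈ PB (w + 1) := by
    intro p hp
    unfold XL.PS at hp
    rw [Finset.mem_filter, Finset.mem_range] at hp
    refine ⟨hp.2.1, ?_⟩
    unfold QPA.PB
    rw [Finset.mem_filter, Finset.mem_range]
    refine ⟨?_, hp.2.1⟩
    have h1 : p ≤ ⌊w⌋₊ := Nat.lt_succ_iff.1 hp.1
    rw [Nat.lt_ceil]
    have h2 : ((⌊w⌋₊ : ℕ) : ℝ) ≤ w := Nat.floor_le (by linarith)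
    have h3 : (p : ℝ) ≤ ((⌊w⌋₊ : ℕ) : ℝ) := by exact_mod_cast h1
    linarith
  have hg1 : ∀ p, p.Prime → 0 ≤ g p ∧ g p ≤ 2 / (p : ℝ) ∧ g p ≤ 2 / 3 := by
    intro p hp
    simp only [hg]
    split_ifs with h
    · exact hgb b p hp
    · refine ⟨le_rfl, by positivity, by norm_num⟩
  have hg2 : ∀ p, p.Prime → 0 ≤ g p ∧ g p ≤ 1 := fun p hp =>
    ⟨(hg1 p hp).1, (hg1 p hp).2.2.trans (by norm_num)⟩
  have hVS : ∏ p ∈ PB (w + 1), (1 - g p) = VS b (PS w) := by
    unfold XL.VS
    symm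
    calc ∏ p ∈ PS w, (1 - gb b p) = ∏ p ∈ PS w, (1 - g p) := by
          refine Finset.prod_congr rfl fun p hp => ?_
          simp only [hg]
          rw [if_pos hp]
      _ = ∏ p ∈ PB (w + 1), (1 - g p) := by
          refine Finset.prod_subset (fun p hp => (hPSp p hp).2) fun p _ hp => ?_
          simp only [hg]
          rw [if_neg hp, sub_zero]
  have h1 := hWt.lo g hg2
  have h2 := hWt.up g hg2
  have h3 := hWt.mn g hg1
  rw [hVS] at h1 h2 h3
  refine ⟨∑ δ ∈ Dset (w + 1) m, c δ * ∏ p ∈ δ.primeFactors, g p,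
    ∑ δ ∈ Dset (w + 1) m, d δ * ∏ p ∈ δ.primeFactors, g p,
    ?_, ?_, h1, ?_, h3⟩
  · exact AVWM.mean hCRTP w m c b L hL hPL
  · exact AVWM.mean hCRTP w m d b L hL hPL
  · linarith

end Pool.Agent.Lib.MP391708.X3M
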