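import Pool.Agent.Lib.MP_391708_nt.X3.SpecMT

/-!
# THEOREM X3 (MP_391708), part MT, module CCB: the coefficients of the model, in mean square
-/

set_option autoImplicit false

namespace Pool.Agent.Lib.MP391708.X3M

open Finset Filter Topology Pool.Agent.Lib.MP391708.MR
open Pool.Agent.Lib.MP391708.X (ChiG hk Dist Fam rgh VP Ix psi ix1 UOK lc On)
open Pool.Agent.Lib.MP391708.X3
open Pool.Agent.Lib.MP391708.XL (gb VS PS pt LN)
open scoped ComplexConjugate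

namespace CCBM

lemma ev_pos : EV (fun p _ _ _ _ => 8 ≤ p.h ∧ 0 < Real.log p.N ∧ 0 ≤ p.M2) := by
  intro cw aU aQ aF _ _ _ _ _
  refine ⟨1, 1, one_pos, fun ch hch δ _ _ => ⟨0, fun cP _ => ⟨0, fun cT _ => ⟨0, fun cB _ => ?_⟩⟩⟩⟩
  filter_upwards [eventually_gt_atTop (1 : ℝ), Real.tendsto_log_atTop.eventually_ge_atTop 8]
    with N hN hN8 T P B U b y hc
  have hl : 0 < Real.log N := Real.log_pos hN
  have hN0 : 0 < N := by linarith
  have hP : 0 ≤ P := (Real.rpow_nonneg hl.le _).trans hc.box.P1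
  have hT : 0 ≤ T := (mul_nonneg hP (Real.rpow_nonneg hl.le _)).trans hc.box.T1
  refine ⟨?_, hl, ?_⟩
  · calc (8 : ℝ) ≤ Real.log N := hN8
      _ = Real.log N ^ (1 : ℝ) := (Real.rpow_one _).symm
      _ ≤ Real.log N ^ ch := Real.rpow_le_rpow_of_exponent_le (by linarith) hch
  · exact div_nonneg (mul_nonneg hN0.le hT) (mul_nonneg (by norm_num) hP)

lemma RR_ge {r h e V : ℝ} (hh : 8 ≤ h) (he : 0 < e) (hV : 0 < V)
    (hr : |r * h / (Real.pi * e * V) - 1| ≤ 4 / h) : e * V / h ≤ r := by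
  have hh0 : 0 < h := by linarith
  have h0 : 4 / h ≤ 1 / 2 := by
    rw [div_le_iff₀ hh0]
    linarith
  have h1 := (abs_le.1 (hr.trans h0)).1
  have hpi : 3 < Real.pi := Real.pi_gt_three
  have h2 : 1 / 2 ≤ r * h / (Real.pi * e * V) := by linarith
  rw [le_div_iff₀ (by positivity)] at h2
  rw [div_le_iff₀ hh0]
  have h3 : 0 < e * V := mul_pos he hV
  nlinarith

end CCBM

/-- **Module CCB**. -/
theorem specCCB (hCE3 : SpecCE3) (hRRA : SpecRRA) : SpecCCB := by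
  obtain ⟨C, hC, h1⟩ := hCE3
  refine ⟨C, hC, ?_⟩
  refine ((h1.and hRRA).and CCBM.ev_pos).mono ?_
  rintro p B U b y ⟨⟨⟨-, h2, -⟩, hVP, -, hRR⟩, hh8, hl, hM2⟩ v hv
  have hh : 0 < p.h := by linarith
  have hE0 : 0 < Real.exp ((v : ℝ) / p.h) := Real.exp_pos _
  have hR := CCBM.RR_ge hh8 hE0 hVP (hRR v hv)
  have hd : 0 < Real.exp ((v : ℝ) / p.h) * VP p.w / p.h := div_pos (mul_pos hE0 hVP) hh
  have hR0 : 0 < RR p v := lt_of_lt_of_le hd hR
  calc ∑ i ∈ U, ‖cc p i v‖ ^ 2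
      ≤ ∑ i ∈ U, ‖S2 p i v‖ ^ 2 * (p.h / (Real.exp ((v : ℝ) / p.h) * VP p.w)) ^ 2 := by
        refine sum_le_sum fun i _ => ?_
        unfold cc
        rw [norm_div, Complex.norm_real, Real.norm_eq_abs, abs_of_pos hR0, ← mul_pow, div_eq_mul_inv]
        refine pow_le_pow_left₀ (by positivity) (mul_le_mul_of_nonneg_left ?_ (norm_nonneg _)) 2
        rw [← inv_div]
        exact inv_anti₀ hd hR
    _ = (∑ i ∈ U, ‖S2 p i v‖ ^ 2) * (p.h / (Real.exp ((v : ℝ) / p.h) * VP p.w)) ^ 2 := by rw [sum_mul]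
    _ ≤ (C * p.M2 / (p.h * Real.log p.N)) ^ 2 * (p.h / (Real.exp ((v : ℝ) / p.h) * VP p.w)) ^ 2 :=
        mul_le_mul_of_nonneg_right (h2 v) (by positivity)
    _ = (C * p.M2 / (Real.log p.N * (Real.exp ((v : ℝ) / p.h) * VP p.w))) ^ 2 := by
        rw [← mul_pow]
        congr 1
        field_simp

end Pool.Agent.Lib.MP391708.X3M
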