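import Pool.Agent.Lib.MP_391708_nt.X3.SpecMT
import Pool.Agent.Lib.MP_391708_nt.X.SpecCEL

/-!
# THEOREM X3 (MP_391708), part MT, module CE3 (helper58)

Thin Halász–Montgomery for the cells of `z₁` and `π₂`, in a context.  After `X/MT/CE3.lean` (helper45).
-/

set_option autoImplicit false

namespace Pool.Agent.Lib.MP391708.X3M

open Finset Filter Topology Pool.Agent.Lib.MP391708.MR
open Pool.Agent.Lib.MP391708.X (ChiG hk Dist Fam rgh VP Ix psi ix1 UOK lc On)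
open Pool.Agent.Lib.MP391708.X3
open scoped ComplexConjugate

namespace CE3M

/-- `N ^ (1/3) log N ^ (cP / 2) ≤ N ^ (1/2)`. -/
theorem ev_K (cP : ℝ) : ∀ᶠ N : ℝ in atTop,
    N ^ (1 / 3 : ℝ) * Real.log N ^ (cP / 2) ≤ N ^ (1 / 2 : ℝ) := by
  have h1 : Tendsto (fun N : ℝ => Real.log N ^ (cP / 2) / N ^ (1 / 6 : ℝ)) atTop (𝓝 0) :=
    (isLittleO_log_rpow_rpow_atTop (cP / 2)
      (by norm_num : (0 : ℝ) < 1 / 6)).tendsto_div_nhds_zero
  have h2 : ∀ᶠ N : ℝ in atTop, Real.log N ^ (cP / 2) / N ^ (1 / 6 : ℝ) < 1 :=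
    h1.eventually_lt_const (by norm_num)
  filter_upwards [h2, eventually_gt_atTop (1 : ℝ)] with N hN hN1
  have hN0 : 0 < N := by linarith
  have hp : 0 < N ^ (1 / 6 : ℝ) := Real.rpow_pos_of_pos hN0 _
  rw [div_lt_one hp] at hN
  have e : N ^ (1 / 3 : ℝ) * N ^ (1 / 6 : ℝ) = N ^ (1 / 2 : ℝ) := by
    rw [← Real.rpow_add hN0]
    norm_num
  calc N ^ (1 / 3 : ℝ) * Real.log N ^ (cP / 2)
      ≤ N ^ (1 / 3 : ℝ) * N ^ (1 / 6 : ℝ) :=
        mul_le_mul_of_nonneg_left hN.le (Real.rpow_nonneg hN0.le _)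
    _ = _ := e

/-- `8 N ^ (1/3) ≤ N`. -/
theorem ev_M : ∀ᶠ N : ℝ in atTop, N ^ (1 / 3 : ℝ) ≤ N / 8 := by
  filter_upwards [eventually_ge_atTop (64 : ℝ)] with N hN
  have hN0 : 0 < N := by linarith
  have e : N ^ (1 / 3 : ℝ) * N ^ (2 / 3 : ℝ) = N := by
    rw [← Real.rpow_add hN0]
    norm_num
  have h8 : (8 : ℝ) ≤ N ^ (2 / 3 : ℝ) := by
    have h1 : (64 : ℝ) ^ (1 / 2 : ℝ) = 8 := by
      rw [show (64 : ℝ) = 8 ^ 2 by norm_num, ← Real.sqrt_eq_rpow,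
        Real.sqrt_sq (by norm_num)]
    calc (8 : ℝ) = (64 : ℝ) ^ (1 / 2 : ℝ) := h1.symm
      _ ≤ N ^ (1 / 2 : ℝ) := Real.rpow_le_rpow (by norm_num) hN (by norm_num)
      _ ≤ N ^ (2 / 3 : ℝ) := Real.rpow_le_rpow_of_exponent_le (by linarith) (by norm_num)
  rw [le_div_iff₀ (by norm_num)]
  calc N ^ (1 / 3 : ℝ) * 8 ≤ N ^ (1 / 3 : ℝ) * N ^ (2 / 3 : ℝ) :=
        mul_le_mul_of_nonneg_left h8 (Real.rpow_nonneg hN0.le _)
    _ = N := e

theorem sqb {C D x y z : ℝ} (hC : 0 < C) (hD : C + 1 ≤ D) (h : x ≤ C * (y / z) ^ 2) :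
    x ≤ (D * y / z) ^ 2 := by
  have e : (D * y / z) ^ 2 = D ^ 2 * (y / z) ^ 2 := by ring
  rw [e]
  refine h.trans (mul_le_mul_of_nonneg_right ?_ (sq_nonneg _))
  nlinarith

end CE3M

open CE3M in
theorem specCE3 (hCELB : Pool.Agent.Lib.MP391708.X.SpecCELB) : SpecCE3 := by
  obtain ⟨C1, hC1, h1⟩ := hCELB
  refine ⟨16 * C1 + 1, by positivity, ?_⟩
  intro cw aU aQ aF _ _ _ _ _
  refine ⟨1, 1 / 2, by norm_num, fun ch hch δ _ hδ => ⟨0, fun cP hcP => ⟨0, fun cT hcT =>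
    ⟨aF, fun cB hcB => ?_⟩⟩⟩⟩
  filter_upwards [h1 ch aQ aU hch, ev_K cP, ev_M, eventually_ge_atTop (Real.exp 1)] with
    N g1 g2 g3 hN T P B U b y hc
  have hN1 : 1 < N := lt_of_lt_of_le
    (by have := Real.add_one_lt_exp (one_ne_zero : (1 : ℝ) ≠ 0); linarith) hN
  have hN0 : 0 < N := by linarith
  have hl1 : 1 ≤ Real.log N := by
    rw [Real.le_log_iff_exp_le hN0]
    exact hN
  have hl : 0 < Real.log N := by linarith
  have hP1 : 1 ≤ P := (Real.one_le_rpow hl1 hcP).trans hc.box.P1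
  have hP0 : 0 < P := by linarith
  have hTP : P ≤ T := by
    have h2 : 1 ≤ Real.log N ^ cT := Real.one_le_rpow hl1 hcT
    calc P = P * 1 := (mul_one P).symm
      _ ≤ P * Real.log N ^ cT := mul_le_mul_of_nonneg_left h2 hP0.le
      _ ≤ T := hc.box.T1
  have hT0 : 0 < T := by linarith
  have hT1 : 1 ≤ T := by linarith
  have hcB0 : 0 < Real.log N ^ cB := Real.rpow_pos_of_pos hl _
  have hB : Real.log N ^ aF ≤ B := by
    have h2 : Real.log N ^ aF ≤ Real.log N ^ cB := Real.rpow_le_rpow_of_exponent_le hl1 hcB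
    have h3 : 1 ≤ T * P := one_le_mul_of_one_le_of_one_le hT1 hP1
    calc Real.log N ^ aF ≤ 1 * Real.log N ^ cB := by rw [one_mul]; exact h2
      _ ≤ T * P * Real.log N ^ cB := mul_le_mul_of_nonneg_right h3 hcB0.le
      _ ≤ B := hc.box.B1
  have hB0 : 0 < B := lt_of_lt_of_le (Real.rpow_pos_of_pos hl _) hB
  have hF : Real.log N ^ aF * (N / B) ≤ N := by
    rw [mul_div_assoc', div_le_iff₀ hB0, mul_comm]
    exact mul_le_mul_of_nonneg_left hB hN0.le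
  have hy0 : 0 < (nm y : ℝ) := by
    have hy : y ≠ 0 := by
      intro h0
      have := hc.y1
      rw [h0] at this
      simp [prim] at this
    exact nm_posR hy
  have hTN : T ≤ N ^ (1 / 2 : ℝ) :=
    hc.box.T2.trans (Real.rpow_le_rpow_of_exponent_le hN1.le hδ)
  have hNN : N ^ (1 / 2 : ℝ) * N ^ (1 / 2 : ℝ) = N := by
    rw [← Real.rpow_add hN0]
    norm_num
  have hM1 : N ^ (1 / 3 : ℝ) ≤ (par N T P ch cw).K / nm y := by
    show N ^ (1 / 3 : ℝ) ≤ N / T / nm y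
    rw [div_div, le_div_iff₀ (by positivity)]
    have h3 : 0 ≤ N ^ (1 / 3 : ℝ) := Real.rpow_nonneg hN0.le _
    have h4 : 0 ≤ N ^ (1 / 2 : ℝ) := Real.rpow_nonneg hN0.le _
    calc N ^ (1 / 3 : ℝ) * (T * nm y) = (N ^ (1 / 3 : ℝ) * nm y) * T := by ring
      _ ≤ (N ^ (1 / 3 : ℝ) * Real.log N ^ (cP / 2)) * T :=
          mul_le_mul_of_nonneg_right (mul_le_mul_of_nonneg_left hc.y2 h3) hT0.le
      _ ≤ N ^ (1 / 2 : ℝ) * T := mul_le_mul_of_nonneg_right g2 hT0.le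
      _ ≤ N ^ (1 / 2 : ℝ) * N ^ (1 / 2 : ℝ) := mul_le_mul_of_nonneg_left hTN h4
      _ = N := hNN
  have hM2 : N ^ (1 / 3 : ℝ) ≤ (par N T P ch cw).M2 := by
    show N ^ (1 / 3 : ℝ) ≤ N * T / (8 * P)
    refine g3.trans ?_
    rw [div_le_div_iff₀ (by norm_num) (by positivity)]
    calc N * (8 * P) = N * P * 8 := by ring
      _ ≤ N * T * 8 := by
          have := mul_le_mul_of_nonneg_left hTP hN0.le
          linarith
  refine ⟨fun u => ?_, fun v => ?_, fun u => ?_⟩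
  · exact sqb hC1 (by linarith) (g1 _ U hF hc.ok ((par N T P ch cw).K / nm y) u hM1).2.1
  · have h2 := (g1 _ U hF hc.ok (par N T P ch cw).M2 v hM2).2.1
    refine sqb (C := 16 * C1) (by positivity) le_rfl ?_
    have e : ∀ i : Ix, ‖S2 (par N T P ch cw) i v‖ ^ 2 =
        16 * ‖∑ π ∈ cell (Real.log N ^ ch) (par N T P ch cw).M2 (2 * (par N T P ch cw).M2) v,
          psi i π‖ ^ 2 := by
      intro i
      show ‖4 * ∑ π ∈ cell (Real.log N ^ ch) (par N T P ch cw).M2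
        (2 * (par N T P ch cw).M2) v, psi i π‖ ^ 2 = _
      rw [norm_mul, mul_pow]
      norm_num
    rw [Finset.sum_congr rfl fun i _ => e i, ← Finset.mul_sum, mul_assoc]
    exact mul_le_mul_of_nonneg_left h2 (by norm_num)
  · have h2 := (g1 _ U hF hc.ok ((par N T P ch cw).K / nm y) u hM1).2.2
    have h3 : 0 ≤ (par N T P ch cw).K / nm y / (Real.log N ^ ch * Real.log N) := by
      have h4 : 0 ≤ (par N T P ch cw).K / nm y := (Real.rpow_nonneg hN0.le _).trans hM1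
      have h5 : 0 ≤ Real.log N ^ ch := Real.rpow_nonneg hl.le _
      positivity
    calc _ ≤ _ := h2
      _ ≤ (16 * C1 + 1) * ((par N T P ch cw).K / nm y / (Real.log N ^ ch * Real.log N)) :=
          mul_le_mul_of_nonneg_right (by linarith) h3
      _ = _ := by
          rw [mul_div_assoc]
          rfl

end Pool.Agent.Lib.MP391708.X3M
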