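import Pool.Agent.Lib.MP_391708_nt.X3.SpecMT

/-!
# THEOREM X3 (MP_391708), part MT, module DUA: the dual inequality for the cells of `z₁`
-/

set_option autoImplicit false

namespace Pool.Agent.Lib.MP391708.X3M

open Finset Filter Topology Pool.Agent.Lib.MP391708.MR
open Pool.Agent.Lib.MP391708.X (ChiG hk Dist Fam rgh VP Ix psi ix1 UOK lc On)
open Pool.Agent.Lib.MP391708.X3
open scoped ComplexConjugate

namespace DUAM

/-- `K / N(y)` is large. -/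
theorem ev_K (cP : ℝ) : ∀ᶠ N : ℝ in atTop,
    N ^ (1 / 3 : ℝ) * (N ^ (1 / 100 : ℝ) * Real.log N ^ (cP / 2)) ≤ N := by
  have h1 : Tendsto (fun N : ℝ => Real.log N ^ (cP / 2) / N ^ (6 / 10 : ℝ)) atTop (𝓝 0) :=
    (isLittleO_log_rpow_rpow_atTop (cP / 2)
      (by norm_num : (0 : ℝ) < 6 / 10)).tendsto_div_nhds_zero
  have h2 : ∀ᶠ N : ℝ in atTop, Real.log N ^ (cP / 2) / N ^ (6 / 10 : ℝ) < 1 :=
    h1.eventually_lt_const (by norm_num)
  filter_upwards [h2, eventually_gt_atTop (1 : ℝ)] with N hN hN1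
  have hN0 : 0 < N := by linarith
  have hp : 0 < N ^ (6 / 10 : ℝ) := Real.rpow_pos_of_pos hN0 _
  rw [div_lt_one hp] at hN
  calc N ^ (1 / 3 : ℝ) * (N ^ (1 / 100 : ℝ) * Real.log N ^ (cP / 2))
      ≤ N ^ (1 / 3 : ℝ) * (N ^ (1 / 100 : ℝ) * N ^ (6 / 10 : ℝ)) := by
        refine mul_le_mul_of_nonneg_left ?_ (Real.rpow_nonneg hN0.le _)
        exact mul_le_mul_of_nonneg_left hN.le (Real.rpow_nonneg hN0.le _)
    _ = N ^ (1 / 3 + (1 / 100 + 6 / 10) : ℝ) := by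
        rw [← Real.rpow_add hN0, ← Real.rpow_add hN0]
    _ ≤ N ^ (1 : ℝ) := Real.rpow_le_rpow_of_exponent_le hN1.le (by norm_num)
    _ = N := Real.rpow_one _

/-- duality -/
lemma dual {ι G : Type} (U : Finset ι) (R : Finset G) (ψ : ι → G → ℂ) (K : ℝ)
    (hK : 0 ≤ K)
    (H : ∀ t : G → ℂ, ∑ i ∈ U, ‖∑ z ∈ R, t z * ψ i z‖ ^ 2 ≤ K * ∑ z ∈ R, ‖t z‖ ^ 2)
    (a : ι → ℂ) :
    ∑ z ∈ R, ‖∑ i ∈ U, a i * ψ i z‖ ^ 2 ≤ K * ∑ i ∈ U, ‖a i‖ ^ 2 := by
  set T : G → ℂ := fun z => ∑ i ∈ U, a i * ψ i z with hT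
  set F : ι → ℂ := fun i => ∑ z ∈ R, conj (T z) * ψ i z with hF
  set Q : ℝ := ∑ z ∈ R, ‖T z‖ ^ 2 with hQ
  set N : ℝ := ∑ i ∈ U, ‖a i‖ ^ 2 with hN
  have hQ0 : 0 ≤ Q := sum_nonneg fun i _ => by positivity
  have hN0 : 0 ≤ N := sum_nonneg fun i _ => by positivity
  have h1 : ((Q : ℝ) : ℂ) = ∑ i ∈ U, a i * F i := by
    calc ((Q : ℝ) : ℂ) = ∑ z ∈ R, conj (T z) * T z := by
          rw [hQ]; push_cast
          exact sum_congr rfl fun i _ => by rw [Complex.conj_mul']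
      _ = ∑ z ∈ R, ∑ i ∈ U, a i * (conj (T z) * ψ i z) := by
          refine sum_congr rfl fun z _ => ?_
          conv_lhs => rw [show T z = ∑ i ∈ U, a i * ψ i z from rfl]
          rw [mul_sum]
          exact sum_congr rfl fun n _ => by ring
      _ = ∑ i ∈ U, a i * F i := by
          rw [sum_comm]
          exact sum_congr rfl fun n _ => by rw [hF, mul_sum]
  have h2 : Q ≤ ∑ i ∈ U, ‖a i‖ * ‖F i‖ := by
    have : Q = ‖((Q : ℝ) : ℂ)‖ := by
      rw [Complex.norm_real, Real.norm_of_nonneg hQ0]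
    rw [this, h1]
    refine (norm_sum_le _ _).trans (le_of_eq ?_)
    exact sum_congr rfl fun n _ => norm_mul _ _
  have h3 : (∑ i ∈ U, ‖a i‖ * ‖F i‖) ^ 2 ≤ N * ∑ i ∈ U, ‖F i‖ ^ 2 :=
    sum_mul_sq_le_sq_mul_sq _ _ _
  have h4 : ∑ i ∈ U, ‖F i‖ ^ 2 ≤ K * Q := by
    refine (H fun z => conj (T z)).trans (le_of_eq ?_)
    simp only [RCLike.norm_conj, hQ]
  have h5 : Q ^ 2 ≤ N * (K * Q) :=
    (pow_le_pow_left₀ hQ0 h2 2).trans (h3.trans (mul_le_mul_of_nonneg_left h4 hN0))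
  rcases hQ0.eq_or_lt with h0 | h0
  · rw [← h0]; positivity
  · have : Q * Q ≤ (K * N) * Q := by nlinarith
    exact le_of_mul_le_mul_right this h0

end DUAM

/-- **DUA**: the dual inequality for the cells of `z₁`, in a context. -/
theorem specDUA (hCELB : X.SpecCELB) : SpecDUA := by
  obtain ⟨C1, hC1, h1⟩ := hCELB
  refine ⟨C1, hC1, ?_⟩
  intro cw aU aQ aF _ _ _ _ _
  refine ⟨1, 1 / 100, by norm_num, fun ch hch δ hδ hδ2 => ⟨0, fun cP hcP => ⟨0, fun cT hcT =>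
    ⟨aF, fun cB hcB => ?_⟩⟩⟩⟩
  filter_upwards [h1 ch aQ aU hch, DUAM.ev_K cP,
    eventually_ge_atTop (Real.exp 1)] with N g1 g3 hN T P B U b y hc
  have hN1 : 1 < N :=
    lt_of_lt_of_le (by have := Real.add_one_lt_exp (one_ne_zero : (1 : ℝ) ≠ 0); linarith) hN
  have hN0 : 0 < N := by linarith
  have hl1 : 1 ≤ Real.log N := by
    rw [Real.le_log_iff_exp_le hN0]
    exact hN
  have hl : 0 < Real.log N := by linarith
  have hP1 : 1 ≤ P := (Real.one_le_rpow hl1 hcP).trans hc.box.P1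
  have hT1 : P ≤ T := by
    refine le_trans ?_ hc.box.T1
    have := Real.one_le_rpow hl1 hcT
    nlinarith
  have hT0 : 0 < T := by linarith
  have hB : Real.log N ^ aF ≤ B := by
    refine le_trans ?_ hc.box.B1
    have h3 : Real.log N ^ aF ≤ Real.log N ^ cB := Real.rpow_le_rpow_of_exponent_le hl1 hcB
    have h4 : 0 < Real.log N ^ cB := Real.rpow_pos_of_pos hl _
    have h5 : 1 ≤ T * P := by nlinarith
    nlinarith
  have hB0 : 0 < B := lt_of_lt_of_le (Real.rpow_pos_of_pos hl _) hB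
  have hF : Real.log N ^ aF * (N / B) ≤ N := by
    rw [mul_div_assoc', div_le_iff₀ hB0, mul_comm]
    exact mul_le_mul_of_nonneg_left hB hN0.le
  have hy0 : 0 < (nm y : ℝ) := by
    have hy : y ≠ 0 := prim_ne_zero hc.y1
    exact nm_posR hy
  have hTN : T ≤ N ^ (1 / 100 : ℝ) :=
    hc.box.T2.trans (Real.rpow_le_rpow_of_exponent_le hN1.le hδ2)
  have hM1 : N ^ (1 / 3 : ℝ) ≤ (par N T P ch cw).K / nm y := by
    show N ^ (1 / 3 : ℝ) ≤ N / T / nm y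
    rw [div_div, le_div_iff₀ (by positivity)]
    refine le_trans ?_ g3
    refine mul_le_mul_of_nonneg_left ?_ (Real.rpow_nonneg hN0.le _)
    exact mul_le_mul hTN hc.y2 hy0.le (Real.rpow_nonneg hN0.le _)
  have hK0 : 0 ≤ (par N T P ch cw).K / nm y := (Real.rpow_nonneg hN0.le _).trans hM1
  have hh0 : 0 < Real.log N ^ ch := Real.rpow_pos_of_pos hl _
  intro u a
  refine DUAM.dual U _ psi _ ?_ (fun t => ?_) a
  · exact mul_nonneg hC1.le (div_nonneg hK0 (mul_nonneg hh0.le hl.le))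
  · exact (g1 _ U hF hc.ok ((par N T P ch cw).K / nm y) u hM1).1 t

end Pool.Agent.Lib.MP391708.X3M
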