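import Pool.Agent.Lib.MP_391708_nt.X3.SpecMT

/-!
# MP_391708, Theorem X3, part MT, module EXC: exchange of the sums (after helper77's X/MT/EXC)
-/

set_option autoImplicit false

namespace Pool.Agent.Lib.MP391708.X3M

open Finset Filter Topology Pool.Agent.Lib.MP391708.MR
open Pool.Agent.Lib.MP391708.X (ChiG hk Dist Fam rgh VP Ix psi ix1 UOK lc On)
open Pool.Agent.Lib.MP391708.X3
open scoped ComplexConjugate

namespace EXCM

theorem inner (p : Par) (U : Finset Ix) (b : ℕ) (ω : Gi) :
    ∑ z ∈ (open scoped Classical in (disc (p.N * p.T)).filter (On ω b)), Kap p U z =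
      ∑ v ∈ I2 p, ∑ z ∈ LC p ω b v, (ro p.w z : ℂ) * ∑ i ∈ U, cc p i v * conj (psi i z) := by
  classical
  unfold Kap
  rw [Finset.sum_comm]
  refine Finset.sum_congr rfl fun v _ => ?_
  have e : LC p ω b v = ((disc (p.N * p.T)).filter (On ω b)).filter (fun z => z ∈ lc p.h v) := by
    ext z
    simp only [LC, Finset.mem_filter]
    tauto
  rw [e]
  refine Eq.trans ?_ (Finset.sum_filter _ _).symm
  refine Finset.sum_congr (by congr) fun z _ => ?_
  unfold kap ro
  by_cases h1 : z ∈ lc p.h v
  · by_cases h2 : rgh p.w z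
    · rw [if_pos ⟨h1, h2⟩, if_pos h1, if_pos h2]
      simp
    · rw [if_neg (fun h => h2 h.2), if_pos h1, if_neg h2]
      simp
  · rw [if_neg (fun h => h1 h.1), if_neg h1]

end EXCM

/-- **EXC**. -/
theorem specEXC : SpecEXC := by
  intro p U b y
  unfold sy ls
  have e : 2 * p.K / (nm y : ℝ) = 2 * (p.K / nm y) := by ring
  rw [e, Finset.sum_comm]
  refine Finset.sum_congr rfl fun π _ => ?_
  refine Finset.sum_congr rfl fun z _ => ?_
  exact EXCM.inner p U b (y * z * π)

end Pool.Agent.Lib.MP391708.X3M
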