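import Pool.Agent.Lib.MP_391708_nt.X3.SpecMT
import Pool.Agent.Lib.MP_391708_nt.QPA.FLP

/-!
# THEOREM X3 (MP_391708), part MT: module FLP (helper63), from `QPA.SpecFLP`
-/

set_option autoImplicit false

namespace Pool.Agent.Lib.MP391708.X3M

open Finset Filter Topology Pool.Agent.Lib.MP391708.MR

theorem specFLP (hF : QPA.SpecFLP) : SpecFLP := by
  obtain ⟨C, hC, h⟩ := hF 2 (by norm_num)
  refine ⟨C, hC, fun m z hz => ?_⟩
  obtain ⟨cp, ce, h1, h2, h3, h4⟩ := h m z hz
  have hl : 0 ≤ Real.log z := Real.log_nonneg (by linarith)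
  refine ⟨cp, ce, ⟨fun δ => (h1 δ).trans (by linarith), h2, fun a ha => ?_, fun a ha => (h3 a ha).2, h4⟩⟩
  have := (h3 a ha).1
  linarith

/-- without hypotheses -/
theorem mt_flp : SpecFLP := specFLP QPA.specFLP

end Pool.Agent.Lib.MP391708.X3M
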