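import Pool.Agent.Lib.MP_391708_nt.X3.SpecMT

/-!
# THEOREM X3 (MP_391708), part MT, module FRQ: the phase is nearly constant on a cell

Copy of `X/MT/FRQ.lean` for the boxes of `X3/Defs.lean`.
-/

set_option autoImplicit false

namespace Pool.Agent.Lib.MP391708.X3M

open Finset Filter Topology Pool.Agent.Lib.MP391708.MR
open Pool.Agent.Lib.MP391708.X (ChiG hk Dist Fam rgh VP Ix psi ix1 UOK lc On)
open Pool.Agent.Lib.MP391708.X3
open scoped ComplexConjugate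

theorem specFRQ : SpecFRQ := by
  intro δ hδ cw aU aQ aF _ _ _ _ haF
  refine ⟨aF + 1, 1, one_pos, fun ch hch δ' _ _ => ⟨0, fun cP _ => ⟨0, fun cT _ => ⟨0, fun cB _ => ?_⟩⟩⟩⟩
  have h1 : ∀ᶠ N : ℝ in atTop, max 1 (2 / δ) ≤ Real.log N :=
    Real.tendsto_log_atTop.eventually_ge_atTop _
  filter_upwards [h1, eventually_gt_atTop 0] with N hN1 hN0 T P B U b y hc i hi
  set l : ℝ := Real.log N with hl
  have hl1 : 1 ≤ l := le_trans (le_max_left _ _) hN1
  have hl2 : 2 / δ ≤ l := le_trans (le_max_right _ _) hN1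
  have hl0 : 0 < l := by linarith
  have hP0 : 0 < P := lt_of_lt_of_le (Real.rpow_pos_of_pos hl0 _) hc.box.P1
  have hT0 : 0 < T := lt_of_lt_of_le (mul_pos hP0 (Real.rpow_pos_of_pos hl0 _)) hc.box.T1
  have hB0 : 0 < B := lt_of_lt_of_le (mul_pos (mul_pos hT0 hP0) (Real.rpow_pos_of_pos hl0 _)) hc.box.B1
  have hk := hc.ok.frq i hi
  have hb0 : (0 : ℝ) ≤ b := Nat.cast_nonneg b
  have hlF : 0 < l ^ aF := Real.rpow_pos_of_pos hl0 _
  have hk0 : 0 ≤ l ^ aF * (N / B) := by positivity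
  show |(i.2.2 : ℝ)| * b ≤ δ * l ^ ch * N
  have h3 : |(i.2.2 : ℝ)| * b ≤ (l ^ aF * (N / B)) * (2 * B) :=
    mul_le_mul hk hc.b2 hb0 hk0
  have h4 : (l ^ aF * (N / B)) * (2 * B) = 2 * l ^ aF * N := by
    field_simp
  have h5 : 2 * l ^ aF ≤ δ * l ^ ch := by
    have h6 : l ^ (aF + 1) ≤ l ^ ch := Real.rpow_le_rpow_of_exponent_le hl1 hch
    rw [Real.rpow_add hl0, Real.rpow_one] at h6
    have h7 : 2 ≤ δ * l := by
      rw [div_le_iff₀ hδ] at hl2
      linarith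
    calc 2 * l ^ aF ≤ (δ * l) * l ^ aF := mul_le_mul_of_nonneg_right h7 hlF.le
      _ = δ * (l ^ aF * l) := by ring
      _ ≤ δ * l ^ ch := mul_le_mul_of_nonneg_left h6 hδ.le
  rw [h4] at h3
  exact h3.trans (mul_le_mul_of_nonneg_right h5 hN0.le)

end Pool.Agent.Lib.MP391708.X3M
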