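import Pool.Agent.Lib.MP_391708_nt.X3.SpecMT

/-!
# THEOREM X3 (MP_391708), part MT, module FRU: the errors of the line sums are small
-/

set_option autoImplicit false

namespace Pool.Agent.Lib.MP391708.X3M

open Finset Filter Topology Pool.Agent.Lib.MP391708.MR
open Pool.Agent.Lib.MP391708.X (ChiG hk Dist Fam rgh VP Ix psi ix1 UOK lc On)
open Pool.Agent.Lib.MP391708.X3
open Pool.Agent.Lib.MP391708.XL (gb VS PS pt LN)
open scoped ComplexConjugate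

theorem specFRU (hL : XL.SpecLSM) : SpecFRU := by
  obtain ⟨C, -, -, -, -, c, hc, hV⟩ := hL
  intro n δ hδ cw aU aQ aF h0 h1 h2 h3 h4
  refine ⟨2 * aU + (cw + 1) * (n : ℝ) + aF + 5, 1, one_pos, fun ch hch δ' _ _ => ⟨0, fun cP _ =>
    ⟨0, fun cT _ => ⟨0, fun cB _ => ?_⟩⟩⟩⟩
  have hNh : ∀ᶠ N : ℝ in atTop, 16 * Real.log N ^ ch ≤ N := by
    have h := (isLittleO_log_rpow_rpow_atTop ch (by norm_num : (0 : ℝ) < 1)).bound
      (by positivity : (0 : ℝ) < 1 / 16)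
    filter_upwards [h, eventually_gt_atTop 0] with N hN hN0
    rw [Real.norm_eq_abs, Real.norm_eq_abs, Real.rpow_one, abs_of_pos hN0] at hN
    have := le_abs_self (Real.log N ^ ch)
    linarith
  filter_upwards [Real.tendsto_log_atTop.eventually_ge_atTop (max 2 (4 * (cw + 1) ^ 4 / (δ * c))),
    hNh, eventually_gt_atTop (0 : ℝ)] with N hN hNh hN0 T P B U b y hcx i hi
  have hfrq := hcx.ok.frq i hi
  have hcard := hcx.ok.card
  change (U.card : ℝ) ^ 2 * (Real.log N ^ cw + 1) ^ n *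
    (1 / Real.log N ^ ch + |(i.2.2 : ℝ)| * (b / (Real.log N ^ ch * N) + ((b : ℝ) / N) ^ 3)) ≤
    δ * VS b (PS (Real.log N ^ cw))
  set ℓ := Real.log N with hℓ
  have hℓ2 : 2 ≤ ℓ := (le_max_left _ _).trans hN
  have hℓc : 4 * (cw + 1) ^ 4 / (δ * c) ≤ ℓ := (le_max_right _ _).trans hN
  have hℓ0 : 0 < ℓ := by linarith
  have hℓ1 : 1 ≤ ℓ := by linarith
  have hw1 : 1 ≤ ℓ ^ cw := Real.one_le_rpow hℓ1 (by linarith)
  have hw : ℓ ^ cw + 1 ≤ ℓ ^ (cw + 1) := by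
    rw [Real.rpow_add hℓ0, Real.rpow_one]
    nlinarith
  have hpow : (ℓ ^ cw + 1) ^ n ≤ ℓ ^ ((cw + 1) * (n : ℝ)) := by
    rw [Real.rpow_mul hℓ0.le, Real.rpow_natCast]
    exact pow_le_pow_left₀ (by linarith) hw n
  have hVS : c / ((cw + 1) * ℓ) ^ 4 ≤ VS b (PS (ℓ ^ cw)) := by
    refine le_trans ?_ (hV b (ℓ ^ cw) hw1).1
    have hlog0 : 0 < Real.log (ℓ ^ cw + 1) := Real.log_pos (by linarith)
    apply div_le_div_of_nonneg_left hc.le (by positivity)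
    apply pow_le_pow_left₀ hlog0.le
    calc Real.log (ℓ ^ cw + 1) ≤ Real.log (ℓ ^ (cw + 1)) := Real.log_le_log (by linarith) hw
      _ = (cw + 1) * Real.log ℓ := Real.log_rpow hℓ0 _
      _ ≤ (cw + 1) * ℓ := by
        apply mul_le_mul_of_nonneg_left _ (by linarith)
        have := Real.log_le_sub_one_of_pos hℓ0
        linarith
  have hP0 : 0 < P := lt_of_lt_of_le (Real.rpow_pos_of_pos hℓ0 _) hcx.box.P1
  have hT0 : 0 < T := lt_of_lt_of_le (mul_pos hP0 (Real.rpow_pos_of_pos hℓ0 _)) hcx.box.T1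
  have hB0 : 0 < B := lt_of_lt_of_le (mul_pos (mul_pos hT0 hP0) (Real.rpow_pos_of_pos hℓ0 _))
    hcx.box.B1
  have hB2 : B ^ 2 ≤ 2 * N := hcx.box.B2
  have hb0 : (0 : ℝ) ≤ b := Nat.cast_nonneg b
  have hlF : 0 < ℓ ^ aF := Real.rpow_pos_of_pos hℓ0 _
  have hlF1 : 1 ≤ ℓ ^ aF := Real.one_le_rpow hℓ1 (by linarith)
  have hlh : 0 < ℓ ^ ch := Real.rpow_pos_of_pos hℓ0 _
  have hk0 : 0 ≤ ℓ ^ aF * (N / B) := by positivity
  -- the bracket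
  have hbr : 1 / ℓ ^ ch + |(i.2.2 : ℝ)| * (b / (ℓ ^ ch * N) + ((b : ℝ) / N) ^ 3) ≤
      4 * ℓ ^ aF / ℓ ^ ch := by
    have e1 : |(i.2.2 : ℝ)| * (b / (ℓ ^ ch * N)) ≤ 2 * ℓ ^ aF / ℓ ^ ch := by
      calc |(i.2.2 : ℝ)| * (b / (ℓ ^ ch * N))
          ≤ (ℓ ^ aF * (N / B)) * ((2 * B) / (ℓ ^ ch * N)) :=
            mul_le_mul hfrq (div_le_div_of_nonneg_right hcx.b2 (by positivity))
              (by positivity) hk0
        _ = 2 * ℓ ^ aF / ℓ ^ ch := by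
            field_simp
    have e2 : |(i.2.2 : ℝ)| * ((b : ℝ) / N) ^ 3 ≤ 16 * ℓ ^ aF / N := by
      calc |(i.2.2 : ℝ)| * ((b : ℝ) / N) ^ 3
          ≤ (ℓ ^ aF * (N / B)) * ((2 * B) / N) ^ 3 :=
            mul_le_mul hfrq (pow_le_pow_left₀ (by positivity)
              (div_le_div_of_nonneg_right hcx.b2 hN0.le) 3) (by positivity) hk0
        _ = 8 * ℓ ^ aF * B ^ 2 / N ^ 2 := by
            field_simp
            ring
        _ ≤ 8 * ℓ ^ aF * (2 * N) / N ^ 2 := by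
            apply div_le_div_of_nonneg_right _ (by positivity)
            exact mul_le_mul_of_nonneg_left hB2 (by positivity)
        _ = 16 * ℓ ^ aF / N := by
            field_simp
            ring
    have e3 : 16 * ℓ ^ aF / N ≤ ℓ ^ aF / ℓ ^ ch := by
      rw [div_le_div_iff₀ hN0 hlh]
      nlinarith
    have e4 : 1 / ℓ ^ ch ≤ ℓ ^ aF / ℓ ^ ch := div_le_div_of_nonneg_right hlF1 hlh.le
    have e5 : 4 * ℓ ^ aF / ℓ ^ ch = ℓ ^ aF / ℓ ^ ch + 2 * ℓ ^ aF / ℓ ^ ch + ℓ ^ aF / ℓ ^ ch := by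
      ring
    rw [mul_add, e5]
    linarith
  have hU2 : (U.card : ℝ) ^ 2 ≤ ℓ ^ (2 * aU) := by
    have e1 : (U.card : ℝ) ^ 2 ≤ (ℓ ^ aU) ^ 2 := pow_le_pow_left₀ (Nat.cast_nonneg _) hcard 2
    have e2 : (ℓ ^ aU) ^ 2 = ℓ ^ (2 * aU) := by
      rw [← Real.rpow_natCast, ← Real.rpow_mul hℓ0.le]
      congr 1
      push_cast
      ring
    rwa [e2] at e1
  have hbr0 : 0 ≤ 1 / ℓ ^ ch + |(i.2.2 : ℝ)| * (b / (ℓ ^ ch * N) + ((b : ℝ) / N) ^ 3) := by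
    positivity
  have hlhs : (U.card : ℝ) ^ 2 * (ℓ ^ cw + 1) ^ n *
      (1 / ℓ ^ ch + |(i.2.2 : ℝ)| * (b / (ℓ ^ ch * N) + ((b : ℝ) / N) ^ 3)) ≤
      ℓ ^ (2 * aU) * ℓ ^ ((cw + 1) * (n : ℝ)) * (4 * ℓ ^ aF / ℓ ^ ch) :=
    mul_le_mul (mul_le_mul hU2 hpow (by positivity) (by positivity)) hbr hbr0 (by positivity)
  refine hlhs.trans (le_trans ?_ (mul_le_mul_of_nonneg_left hVS hδ.le))
  have hexp : ℓ ^ (2 * aU) * ℓ ^ ((cw + 1) * (n : ℝ)) * (4 * ℓ ^ aF / ℓ ^ ch) ≤ 4 / ℓ ^ 5 := by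
    have e1 : ℓ ^ (2 * aU) * ℓ ^ ((cw + 1) * (n : ℝ)) * ℓ ^ aF * ℓ ^ (5 : ℕ) ≤ ℓ ^ ch := by
      rw [← Real.rpow_natCast ℓ 5, ← Real.rpow_add hℓ0, ← Real.rpow_add hℓ0, ← Real.rpow_add hℓ0]
      apply Real.rpow_le_rpow_of_exponent_le hℓ1
      push_cast
      linarith
    have e2 : ℓ ^ (2 * aU) * ℓ ^ ((cw + 1) * (n : ℝ)) * (4 * ℓ ^ aF / ℓ ^ ch) =
        4 * (ℓ ^ (2 * aU) * ℓ ^ ((cw + 1) * (n : ℝ)) * ℓ ^ aF) / ℓ ^ ch := by
      ring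
    rw [e2, div_le_div_iff₀ hlh (by positivity)]
    nlinarith
  refine hexp.trans ?_
  have h8 : (0 : ℝ) < (cw + 1) ^ 4 := by
    have : 0 < cw + 1 := by linarith
    positivity
  rw [div_le_iff₀ (by positivity)] at hℓc
  rw [mul_pow, ← mul_div_assoc, div_le_div_iff₀ (by positivity) (by positivity)]
  have h9 : δ * c * ℓ ^ 5 = ℓ * (δ * c) * ℓ ^ 4 := by ring
  rw [h9, ← mul_assoc]
  exact mul_le_mul_of_nonneg_right hℓc (by positivity)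

end Pool.Agent.Lib.MP391708.X3M
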