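import Pool.Agent.Lib.MP_391708_nt.X3.SpecMT

/-!
# MP_391708, Theorem X3, part MT, module LNQ: periodic functions on the line (helper16)
-/

set_option autoImplicit false

namespace Pool.Agent.Lib.MP391708.X3M

open Finset Filter Topology Pool.Agent.Lib.MP391708.MR
open Pool.Agent.Lib.MP391708.X (ChiG hk Dist Fam rgh VP Ix psi ix1 UOK lc On)
open Pool.Agent.Lib.MP391708.X3
open Pool.Agent.Lib.MP391708.XL (gb VS PS pt LN)
open scoped ComplexConjugate

namespace LNQM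

theorem one {E : Type*} [AddCommMonoid E] (D : ℕ) (hD : 0 < D) (c : ℤ) (f : ℕ → E) :
    ∑ n ∈ range D, (if (D : ℤ) ∣ c - (n : ℤ) then f n else 0) = f (c % D).toNat := by
  have hD' : (0 : ℤ) < (D : ℤ) := by exact_mod_cast hD
  have h0 : 0 ≤ c % (D : ℤ) := Int.emod_nonneg _ hD'.ne'
  have h1 : c % (D : ℤ) < D := Int.emod_lt_of_pos _ hD'
  have h2 : (((c % (D : ℤ)).toNat : ℕ) : ℤ) = c % (D : ℤ) := Int.toNat_of_nonneg h0
  rw [Finset.sum_eq_single (c % (D : ℤ)).toNat]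
  · rw [if_pos]
    rw [h2]
    exact Int.dvd_self_sub_emod
  · intro n hn hne
    rw [if_neg]
    intro hd
    apply hne
    have hn' : (n : ℤ) < D := by exact_mod_cast Finset.mem_range.1 hn
    have h3 : c % (D : ℤ) = (n : ℤ) := by
      have h4 : c ≡ (n : ℤ) [ZMOD D] := (Int.modEq_iff_dvd.2 (by
        have := hd
        rw [← neg_sub]
        exact (dvd_neg).2 hd))
      have h5 : c % (D : ℤ) = (n : ℤ) % D := h4
      rw [h5]
      exact Int.emod_eq_of_lt (by positivity) hn'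
    apply Int.ofNat.inj
    show ((n : ℕ) : ℤ) = (((c % (D : ℤ)).toNat : ℕ) : ℤ)
    rw [h2, h3]
  · intro h
    exact absurd (Finset.mem_range.2 (by omega)) h

theorem crt {q W : ℕ} (h : Nat.Coprime W q) (a n₀ : ℤ) :
    ∃ c : ℤ, ∀ n : ℤ, ((q : ℤ) ∣ n - a ∧ (W : ℤ) ∣ n - n₀) ↔ ((q * W : ℕ) : ℤ) ∣ n - c := by
  have hc : IsCoprime (q : ℤ) (W : ℤ) := by
    rw [Nat.isCoprime_iff_coprime]
    exact h.symm
  obtain ⟨x, y, hxy⟩ := id hc
  refine ⟨a * (y * W) + n₀ * (x * q), fun n => ?_⟩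
  have e1 : n - (a * (y * W) + n₀ * (x * q)) = (n - a) + q * (x * (a - n₀)) := by
    linear_combination (-a) * hxy
  have e2 : n - (a * (y * W) + n₀ * (x * q)) = (n - n₀) + W * (y * (n₀ - a)) := by
    linear_combination (-n₀) * hxy
  have h1 : (q : ℤ) ∣ n - (a * (y * W) + n₀ * (x * q)) ↔ (q : ℤ) ∣ n - a := by
    rw [e1]
    exact (Int.dvd_add_left (Dvd.intro _ rfl))
  have h2 : (W : ℤ) ∣ n - (a * (y * W) + n₀ * (x * q)) ↔ (W : ℤ) ∣ n - n₀ := by
    rw [e2]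
    exact (Int.dvd_add_left (Dvd.intro _ rfl))
  push_cast
  constructor
  · rintro ⟨h3, h4⟩
    exact hc.mul_dvd (h1.2 h3) (h2.2 h4)
  · intro h3
    exact ⟨h1.1 ((Dvd.intro _ rfl).trans h3), h2.1 ((Dvd.intro_left _ rfl).trans h3)⟩

theorem per {q : ℕ} {G : ℤ → ℂ} (hG : ∀ n, G (n + q) = G n) (n : ℤ) : G (n % q) = G n := by
  have h : Function.Periodic G (q : ℤ) := hG
  have h1 := h.int_mul (n / q) (n % q)
  simp only [Int.cast_id] at h1
  rw [← h1]
  congr 1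
  have := Int.emod_add_mul_ediv n q
  linarith [mul_comm (q : ℤ) (n / q)]

end LNQM

/-- **LNQ**. -/
theorem specLNQ (hCLS : XL.SpecCLS) (hPER : XL.SpecPER) : SpecLNQ := by
  classical
  intro q G M w b X X' hq hM hper hbd hw hco hX
  obtain ⟨hW, n₀, hn₀⟩ := hCLS w b hw
  choose c hc using fun a : ℕ => LNQM.crt hco (a : ℤ) n₀
  have hD : 0 < q * nm w := Nat.mul_pos hq hW
  -- the count of one class
  have hP : ∀ a : ℕ, |∑ n ∈ Ioc ⌊X⌋ ⌊X'⌋, (if ((q * nm w : ℕ) : ℤ) ∣ n - c a then (1 : ℝ) else 0) -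
      (X' - X) / (q * nm w : ℕ)| ≤ 2 := by
    intro a
    have h1 := hPER (q * nm w) (fun n => if ((q * nm w : ℕ) : ℤ) ∣ n - c a then (1 : ℝ) else 0) X X' hD
      (fun n => by split_ifs <;> norm_num)
      (fun n => by
        have : ((q * nm w : ℕ) : ℤ) ∣ n + ((q * nm w : ℕ) : ℤ) - c a ↔ ((q * nm w : ℕ) : ℤ) ∣ n - c a := by
          rw [show n + ((q * nm w : ℕ) : ℤ) - c a = (n - c a) + ((q * nm w : ℕ) : ℤ) by ring]
          exact Int.dvd_add_left (dvd_refl _)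
        simp only [this]) hX
    have h2 : ∑ n ∈ range (q * nm w), (if ((q * nm w : ℕ) : ℤ) ∣ (n : ℤ) - c a then (1 : ℝ) else 0) = 1 := by
      have h3 := LNQM.one (q * nm w) hD (c a) (fun _ => (1 : ℝ))
      refine Eq.trans (Finset.sum_congr rfl fun n _ => ?_) h3
      have : ((q * nm w : ℕ) : ℤ) ∣ (n : ℤ) - c a ↔ ((q * nm w : ℕ) : ℤ) ∣ c a - (n : ℤ) := by
        rw [← neg_sub, dvd_neg]
      simp only [this]
    simp only [h2, mul_one] at h1
    exact h1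
  have hS : ∑ n ∈ LN w b X X', G n = ∑ a ∈ range q, G a *
      ((∑ n ∈ Ioc ⌊X⌋ ⌊X'⌋, (if ((q * nm w : ℕ) : ℤ) ∣ n - c a then (1 : ℝ) else 0) : ℝ) : ℂ) := by
    unfold XL.LN
    rw [Finset.sum_filter]
    simp only [Complex.ofReal_sum, Finset.mul_sum]
    rw [Finset.sum_comm]
    refine Finset.sum_congr rfl fun n _ => ?_
    have h1 := LNQM.one q hq n (fun a => if (nm w : ℤ) ∣ n - n₀ then G a else 0)
    have hq' : (0 : ℤ) < (q : ℤ) := by exact_mod_cast hq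
    have h2 : (((n % (q : ℤ)).toNat : ℕ) : ℤ) = n % (q : ℤ) := Int.toNat_of_nonneg (Int.emod_nonneg _ hq'.ne')
    rw [h2, LNQM.per hper n] at h1
    simp only [hn₀ n]
    rw [← h1]
    refine Finset.sum_congr rfl fun a _ => ?_
    have h3 := hc a n
    by_cases h4 : (q : ℤ) ∣ n - (a : ℤ)
    · by_cases h5 : (nm w : ℤ) ∣ n - n₀
      · rw [if_pos h4, if_pos h5, if_pos (h3.1 ⟨h4, h5⟩)]
        simp
      · rw [if_pos h4, if_neg h5, if_neg (fun h => h5 (h3.2 h).2)]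
        simp
    · rw [if_neg h4, if_neg (fun h => h4 (h3.2 h).1)]
      simp
  have hqC : (q : ℂ) ≠ 0 := by exact_mod_cast hq.ne'
  have hWC : (nm w : ℂ) ≠ 0 := by exact_mod_cast hW.ne'
  have hE : (((X' - X) / nm w : ℝ) : ℂ) * av q G = ∑ a ∈ range q, G a * (((X' - X) / (q * nm w : ℕ) : ℝ) : ℂ) := by
    unfold av
    rw [← Finset.sum_mul]
    push_cast
    field_simp
  rw [hS, hE, ← Finset.sum_sub_distrib]
  refine (norm_sum_le _ _).trans ?_
  have hb : ∀ a ∈ range q, ‖G a *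
      ((∑ n ∈ Ioc ⌊X⌋ ⌊X'⌋, (if ((q * nm w : ℕ) : ℤ) ∣ n - c a then (1 : ℝ) else 0) : ℝ) : ℂ) -
        G a * (((X' - X) / (q * nm w : ℕ) : ℝ) : ℂ)‖ ≤ M * 2 := by
    intro a _
    rw [← mul_sub, ← Complex.ofReal_sub, norm_mul, Complex.norm_real, Real.norm_eq_abs]
    exact mul_le_mul (hbd a) (hP a) (abs_nonneg _) hM
  refine (Finset.sum_le_sum hb).trans (le_of_eq ?_)
  rw [Finset.sum_const, Finset.card_range, nsmul_eq_mul]
  ring

end Pool.Agent.Lib.MP391708.X3M
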