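import Pool.Agent.Lib.MP_391708_nt.X3.SpecMT
import Pool.Agent.Lib.MP_391708_nt.X.LSM
import Pool.Agent.Lib.MP_391708_nt.MR.Basic

/-!
# THEOREM X3 (MP_391708), part MT, module LPA: the line sums with sieve weights, for pairs of characters
-/

set_option autoImplicit false

namespace Pool.Agent.Lib.MP391708.X3M

open Finset Filter Topology Pool.Agent.Lib.MP391708.MR
open Pool.Agent.Lib.MP391708.X (ChiG hk Dist Fam rgh VP Ix psi ix1 UOK lc On)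
open Pool.Agent.Lib.MP391708.X3
open Pool.Agent.Lib.MP391708.XL (gb VS PS pt LN qt rg Ch)
open Pool.Agent.Lib.MP391708.QPA (PB)
open Pool.Agent.Lib.MP391708.QPA.FLW (Dset)
open scoped ComplexConjugate

namespace LPAM

open scoped Classical in
/-- the moduli with primes in `PS w` -/
noncomputable def Dw (w : ℝ) (m : ℕ) : Finset ℕ :=
  (Dset (w + 1) m).filter (fun δ => δ.primeFactors ⊆ PS w)

theorem lam_eq (w : ℝ) (m : ℕ) (c : ℕ → ℝ) (z : Gi) :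
    lam w m c z = ∑ δ ∈ Dw w m, (if δ ∣ nm z then c δ else 0) := by
  classical
  unfold lam Dw
  rw [sum_filter, sum_filter]
  refine sum_congr rfl fun δ _ => ?_
  by_cases h1 : δ.primeFactors ⊆ PS w <;> by_cases h2 : δ ∣ nm z <;> simp [h1, h2]

theorem mem_Dw {w : ℝ} {m δ : ℕ} (h : δ ∈ Dw w m) : 0 < δ ∧ (δ : ℝ) ≤ (w + 1) ^ (8 * m + 16) ∧
    Squarefree δ ∧ δ.primeFactors ⊆ PS w := by
  classical
  unfold Dw at h
  obtain ⟨h1, h2⟩ := mem_filter.1 h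
  unfold Dset at h1
  obtain ⟨h3, h4⟩ := mem_filter.1 h1
  obtain ⟨h5, h6⟩ := mem_Icc.1 h3
  refine ⟨h5, ?_, h4.1, h2⟩
  by_cases h7 : 0 ≤ (w + 1) ^ (8 * m + 16)
  · exact (Nat.le_floor_iff h7).1 h6
  · exfalso
    rw [Nat.floor_of_nonpos (not_le.1 h7).le] at h6
    omega

theorem card_Dw {w : ℝ} (hw : 1 ≤ w) (m : ℕ) : ((Dw w m).card : ℝ) ≤ (w + 1) ^ (8 * m + 16) := by
  classical
  have h1 : (Dw w m).card ≤ (Icc 1 ⌊(w + 1) ^ (8 * m + 16)⌋₊).card := by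
    refine card_le_card fun δ hδ => ?_
    have h2 := mem_Dw hδ
    rw [mem_Icc]
    exact ⟨h2.1, Nat.le_floor h2.2.1⟩
  rw [Nat.card_Icc, Nat.add_sub_cancel] at h1
  have h3 : ((Dw w m).card : ℝ) ≤ (⌊(w + 1) ^ (8 * m + 16)⌋₊ : ℝ) := by exact_mod_cast h1
  exact h3.trans (Nat.floor_le (by positivity))

/-- `lam` is bounded -/
theorem lam_le {w M : ℝ} (hw : 1 ≤ w) {m : ℕ} {c : ℕ → ℝ} (hc : ∀ e, |c e| ≤ M) (hM : 0 ≤ M)
    (z : Gi) : |lam w m c z| ≤ M * (w + 1) ^ (8 * m + 16) := by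
  classical
  rw [lam_eq]
  refine (abs_sum_le_sum_abs _ _).trans ?_
  calc ∑ δ ∈ Dw w m, |if δ ∣ nm z then c δ else 0| ≤ ∑ _δ ∈ Dw w m, M := by
        refine sum_le_sum fun δ _ => ?_
        split_ifs
        · exact hc δ
        · rw [abs_zero]; exact hM
    _ = (Dw w m).card * M := by rw [sum_const, nsmul_eq_mul]
    _ ≤ (w + 1) ^ (8 * m + 16) * M := mul_le_mul_of_nonneg_right (card_Dw hw m) hM
    _ = _ := mul_comm _ _

/-- `lam` does not see the rough factor `ω` -/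
theorem lam_qt {w : ℝ} {m : ℕ} {c : ℕ → ℝ} {ω : Gi} {n b : ℤ} (h0 : ω ≠ 0) (hrg : rg (PS w) ω)
    (hd : ω ∣ pt n b) : lam w m c (qt ω n b) = lam w m c (pt n b) := by
  classical
  rw [lam_eq, lam_eq]
  refine sum_congr rfl fun δ hδ => ?_
  obtain ⟨h1, -, h3, h4⟩ := mem_Dw hδ
  have h5 : nm ω * nm (qt ω n b) = nm (pt n b) := by
    rw [← nm_mul, XL.LSMM.mul_qt h0 hd]
  have h6 : Nat.Coprime δ (nm ω) := by
    rw [Nat.coprime_iff_gcd_eq_one]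
    by_contra hg
    obtain ⟨q, hq, hqd⟩ := Nat.exists_prime_and_dvd hg
    have h7 : q ∣ δ := hqd.trans (Nat.gcd_dvd_left _ _)
    have h8 : q ∣ nm ω := hqd.trans (Nat.gcd_dvd_right _ _)
    exact hrg q (h4 (Nat.mem_primeFactors.2 ⟨hq, h7, h1.ne'⟩)) h8
  have h9 : δ ∣ nm (qt ω n b) ↔ δ ∣ nm (pt n b) := by
    rw [← h5]
    exact ⟨fun h => h.mul_left _, fun h => h6.dvd_of_dvd_mul_left h⟩
  by_cases h : δ ∣ nm (pt n b)
  · rw [if_pos h, if_pos (h9.2 h)]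
  · rw [if_neg h, if_neg fun h' => h (h9.1 h')]

theorem conj_psi {i : Ix} {ω : Gi} {n : ℤ} {b : ℕ} (hCh : Ch i.1 i.2.1)
    (hcop : Nat.Coprime (nm ω) i.1) (h0 : ω ≠ 0) (hd : ω ∣ pt n b) :
    conj (psi i (qt ω n b)) =
      psi i ω * (conj (i.2.1 (pt n b)) * conj (xi i.2.2 (pt n b))) := by
  rw [XL.LSMM.conj_psi_qt h0 hd]
  have h1 : i.2.1 (pt n b) = i.2.1 ω * i.2.1 (qt ω n b) := by
    rw [← hCh.mul, XL.LSMM.mul_qt h0 hd]
  have h2 : i.2.1 ω * conj (i.2.1 ω) = 1 := by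
    rw [Complex.mul_conj, Complex.normSq_eq_norm_sq, hCh.nrm ω hcop]
    simp
  change conj (i.2.1 (qt ω n b)) * (xi i.2.2 ω * conj (xi i.2.2 (pt n b))) =
    (i.2.1 ω * xi i.2.2 ω) * (conj (i.2.1 (pt n b)) * conj (xi i.2.2 (pt n b)))
  rw [h1, map_mul]
  calc conj (i.2.1 (qt ω n b)) * (xi i.2.2 ω * conj (xi i.2.2 (pt n b)))
      = 1 * (conj (i.2.1 (qt ω n b)) * (xi i.2.2 ω * conj (xi i.2.2 (pt n b)))) := by rw [one_mul]
    _ = (i.2.1 ω * conj (i.2.1 ω)) *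
        (conj (i.2.1 (qt ω n b)) * (xi i.2.2 ω * conj (xi i.2.2 (pt n b)))) := by rw [h2]
    _ = _ := by ring

/-- the norm of `n + ib` modulo `δ` -/
theorem dvd_per (δ : ℕ) (n b : ℤ) (t : ℤ) : δ ∣ nm (pt (n + (δ : ℤ) * t) b) ↔ δ ∣ nm (pt n b) := by
  rw [← Int.natCast_dvd_natCast, ← Int.natCast_dvd_natCast, nm_cast, nm_cast]
  unfold pt
  have e : (n + (δ : ℤ) * t) ^ 2 + b ^ 2 = n ^ 2 + b ^ 2 + (δ : ℤ) * (2 * n * t + δ * t ^ 2) := by
    ring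
  simp only
  rw [e]
  exact (dvd_add_left (dvd_mul_right _ _))

theorem pt_add (n b : ℤ) (q : ℕ) : pt (n + (q : ℤ)) b = pt n b + (q : Gi) * 1 := by
  unfold pt
  apply Zsqrtd.ext <;> simp

/-- the factor of one modulus -/
noncomputable def Gd (i j : Ix) (b : ℕ) (δ : ℕ) (n : ℤ) : ℂ :=
  if δ ∣ nm (pt n b) then conj (i.2.1 (pt n b)) * j.2.1 (pt n b) else 0

theorem Gd_per {i j : Ix} (b : ℕ) (δ : ℕ) (hi : Ch i.1 i.2.1) (hj : Ch j.1 j.2.1) (n : ℤ) :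
    Gd i j b δ (n + ((δ * (i.1 * j.1) : ℕ) : ℤ)) = Gd i j b δ n := by
  have e1 : n + ((δ * (i.1 * j.1) : ℕ) : ℤ) = n + (δ : ℤ) * ((i.1 * j.1 : ℕ) : ℤ) := by
    push_cast; ring
  have e2 : i.2.1 (pt (n + ((δ * (i.1 * j.1) : ℕ) : ℤ)) b) = i.2.1 (pt n b) := by
    rw [pt_add, mul_one]
    have : ((δ * (i.1 * j.1) : ℕ) : Gi) = (i.1 : Gi) * ((δ * j.1 : ℕ) : Gi) := by
      push_cast; ring
    rw [this, hi.per]
  have e3 : j.2.1 (pt (n + ((δ * (i.1 * j.1) : ℕ) : ℤ)) b) = j.2.1 (pt n b) := by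
    rw [pt_add, mul_one]
    have : ((δ * (i.1 * j.1) : ℕ) : Gi) = (j.1 : Gi) * ((δ * i.1 : ℕ) : Gi) := by
      push_cast; ring
    rw [this, hj.per]
  unfold Gd
  rw [e2, e3, e1]
  have h := dvd_per δ n b ((i.1 * j.1 : ℕ) : ℤ)
  by_cases h1 : δ ∣ nm (pt n b)
  · rw [if_pos h1, if_pos (h.2 h1)]
  · rw [if_neg h1, if_neg fun h' => h1 (h.1 h')]

theorem Gd_le {i j : Ix} (b : ℕ) (δ : ℕ) (hi : ∀ v, ‖i.2.1 v‖ ≤ 1) (hj : ∀ v, ‖j.2.1 v‖ ≤ 1)
    (n : ℤ) : ‖Gd i j b δ n‖ ≤ 1 := by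
  unfold Gd
  split_ifs
  · rw [norm_mul, RCLike.norm_conj]
    exact mul_le_one₀ (hi _) (norm_nonneg _) (hj _)
  · rw [norm_zero]; exact zero_le_one

/-- the weight as a sum over the moduli -/
theorem G_eq (w : ℝ) (m : ℕ) (c : ℕ → ℝ) (i j : Ix) (b : ℕ) (n : ℤ) :
    (lam w m c (pt n b) : ℂ) * conj (i.2.1 (pt n b)) * j.2.1 (pt n b) =
      ∑ δ ∈ Dw w m, (c δ : ℂ) * Gd i j b δ n := by
  classical
  rw [lam_eq, Complex.ofReal_sum, sum_mul, sum_mul]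
  refine sum_congr rfl fun δ _ => ?_
  unfold Gd
  split_ifs
  · ring
  · simp

theorem av_sum (L : ℕ) (w : ℝ) (m : ℕ) (c : ℕ → ℝ) (i j : Ix) (b : ℕ) :
    av L (fun n => (lam w m c (pt n b) : ℂ) * conj (i.2.1 (pt n b)) * j.2.1 (pt n b)) =
      ∑ δ ∈ Dw w m, (c δ : ℂ) * av L (Gd i j b δ) := by
  unfold av
  have h1 : ∀ n ∈ range L, (lam w m c (pt (n : ℤ) b) : ℂ) * conj (i.2.1 (pt (n : ℤ) b)) *
      j.2.1 (pt (n : ℤ) b) = ∑ δ ∈ Dw w m, (c δ : ℂ) * Gd i j b δ (n : ℤ) := fun n _ => G_eq w m c i j b n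
  rw [sum_congr rfl h1, sum_comm, mul_sum]
  refine sum_congr rfl fun δ _ => ?_
  rw [← mul_sum]
  ring

theorem norm_av_le {L : ℕ} {G : ℤ → ℂ} {M : ℝ} (hM : 0 ≤ M) (hG : ∀ n, ‖G n‖ ≤ M) : ‖av L G‖ ≤ M := by
  unfold av
  rw [norm_mul, norm_div, norm_one, Complex.norm_natCast]
  by_cases hL : L = 0
  · subst hL; simpa using hM
  · have hL0 : (0 : ℝ) < L := by exact_mod_cast Nat.pos_of_ne_zero hL
    have h1 : ‖∑ n ∈ range L, G n‖ ≤ L * M := by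
      refine (norm_sum_le _ _).trans ?_
      calc ∑ n ∈ range L, ‖G n‖ ≤ ∑ _n ∈ range L, M := sum_le_sum fun n _ => hG n
        _ = L * M := by rw [sum_const, card_range, nsmul_eq_mul]
    calc 1 / (L : ℝ) * ‖∑ n ∈ range L, G n‖ ≤ 1 / (L : ℝ) * (L * M) :=
          mul_le_mul_of_nonneg_left h1 (by positivity)
      _ = M := by field_simp

theorem dvd_per' {w : ℝ} {m δ : ℕ} (h : δ ∈ Dw w m) {U : Finset Ix} {i j : Ix} (hi : i ∈ U)
    (hj : j ∈ U) : δ * (i.1 * j.1) ∣ per w U := by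
  unfold per
  obtain ⟨-, -, h3, h4⟩ := mem_Dw h
  refine mul_dvd_mul ?_ ?_
  · rw [← Nat.prod_primeFactors_of_squarefree h3]
    exact prod_dvd_prod_of_subset _ _ _ h4
  · rw [sq]
    exact mul_dvd_mul (dvd_prod_of_mem (fun i : Ix => i.1) hi) (dvd_prod_of_mem (fun i : Ix => i.1) hj)

theorem per_pos {w : ℝ} {U : Finset Ix} (hU : ∀ i ∈ U, 1 ≤ i.1) : 0 < per w U := by
  unfold per
  refine Nat.mul_pos ?_ (pow_pos ?_ 2)
  · refine prod_pos fun p hp => ?_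
    unfold PS at hp
    exact (mem_filter.1 hp).2.1.pos
  · exact prod_pos fun i hi => hU i hi

/-- the phase of a pair -/
theorem phase2 (hPHA : XL.SpecPHA) {CG : ℝ} (hCG : 0 < CG) (k k' n : ℤ) (b : ℕ) {r h : ℝ} (hr : 0 < r)
    (hh : 0 < h) (hn : r / 2 ≤ (n : ℝ)) (hnr : |(n : ℝ) - r| ≤ CG * r / h) (hpt : pt n b ≠ 0) :
    ‖conj (xi k (pt n b)) * xi k' (pt n b) -
        Complex.exp (-(Complex.I * ((k : ℂ) - k') * b / r))‖ ≤
      min ((2 * CG + 8) * ((|(k : ℝ)| + |(k' : ℝ)|) * (b / (h * r) + ((b : ℝ) / r) ^ 3))) 2 := by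
  set E : ℤ → ℂ := fun k => Complex.exp (-(Complex.I * k * b / r)) with hE
  have nE : ∀ k, ‖E k‖ = 1 := fun k => XL.LSMM.norm_E0 k b r
  have e1 : Complex.exp (-(Complex.I * ((k : ℂ) - k') * b / r)) = E k * conj (E k') := by
    simp only [hE]
    rw [← Complex.exp_conj, ← Complex.exp_add]
    congr 1
    rw [map_neg, map_div₀, map_mul, map_mul, Complex.conj_I, Complex.conj_ofReal, map_intCast,
      map_natCast]
    ring
  have nx : ∀ k, ‖xi k (pt n b)‖ = 1 := fun k => norm_xi k hpt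
  rw [e1]
  refine le_min ?_ ?_
  · have e2 : conj (xi k (pt n b)) * xi k' (pt n b) - E k * conj (E k') =
        (conj (xi k (pt n b)) - E k) * xi k' (pt n b) +
          E k * conj (conj (xi k' (pt n b)) - E k') := by
      rw [map_sub, Complex.conj_conj]
      ring
    rw [e2]
    refine (norm_add_le _ _).trans ?_
    rw [norm_mul, norm_mul, nx, nE, mul_one, one_mul, RCLike.norm_conj]
    have h1 := XL.LSMM.phase hPHA hCG k n b hr hh hn hnr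
    have h2 := XL.LSMM.phase hPHA hCG k' n b hr hh hn hnr
    refine (add_le_add h1 h2).trans (le_of_eq ?_)
    ring
  · refine (norm_sub_le _ _).trans ?_
    rw [norm_mul, norm_mul, RCLike.norm_conj, RCLike.norm_conj, nx, nx, nE, nE]
    norm_num

end LPAM

open LPAM in
/-- **Module LPA**. -/
theorem specLPA (hLNQ : SpecLNQ) (hAVP : SpecAVP) (hGEO : XL.SpecGEO) (_hQT : XL.SpecQT)
    (hPHA : XL.SpecPHA) (hRGB : XL.SpecRGB) (hCHB : XL.SpecCHB) : SpecLPA := by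
  classical
  obtain ⟨CG, hCG, hG⟩ := hGEO
  refine ⟨(2 * CG + 8) * (1 / 2 + CG) + CG + 6, by positivity, ?_⟩
  intro p U m c M₁ i j ω b v r hU hi hj hM hc hω hrω hci hcj hw hb hh hr hbr hhr hD hr1 hr2
  have hω0 : ω ≠ 0 := prim_ne_zero hω
  have hN : (0 : ℝ) < nm ω := nm_posR hω0
  have hr0 : 0 < r := by linarith
  have hh0 : 0 < p.h := by linarith
  have hw0 : 0 ≤ p.w := by linarith
  obtain ⟨hi1, hχi⟩ := hU i hi
  obtain ⟨hj1, hχj⟩ := hU j hj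
  obtain ⟨hChi, -, hni⟩ := hCHB i.1 i.2.1 hi1 hχi
  obtain ⟨hChj, -, hnj⟩ := hCHB j.1 j.2.1 hj1 hχj
  have hrg : rg (PS p.w) ω := ((hRGB p.w ω hω0 hw0).1).1 hrω
  obtain ⟨X, X', hX, hXX', -, hsum, hdX, hn⟩ :=
    hG ω b p.h r (p.N * p.T) v hω0 hb hh hr hbr hhr hD hr1 hr2
  obtain ⟨W, hW⟩ : ∃ W : ℝ, W = (p.w + 1) ^ (8 * m + 16) := ⟨_, rfl⟩
  have hW1 : 1 ≤ W := by rw [hW]; exact one_le_pow₀ (by linarith)
  have hW0 : 0 ≤ W := by linarith
  obtain ⟨κ, hκ⟩ : ∃ κ : ℝ, κ = (|(i.2.2 : ℝ)| + |(j.2.2 : ℝ)|) * (b / (p.h * r) + ((b : ℝ) / r) ^ 3) :=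
    ⟨_, rfl⟩
  have hκ0 : 0 ≤ κ := by rw [hκ]; positivity
  obtain ⟨R, hR⟩ : ∃ R : ℝ, R = r / (p.h * nm ω) := ⟨_, rfl⟩
  have hR0 : 0 ≤ R := by rw [hR]; positivity
  obtain ⟨δ, hδ⟩ : ∃ δ : ℝ, δ = min ((2 * CG + 8) * κ) 2 := ⟨_, rfl⟩
  have hδ0 : 0 ≤ δ := by rw [hδ]; exact le_min (by positivity) (by norm_num)
  have hδ1 : δ ≤ (2 * CG + 8) * κ := by rw [hδ]; exact min_le_left _ _
  have hδ2 : δ ≤ 2 := by rw [hδ]; exact min_le_right _ _
  obtain ⟨A, hA⟩ : ∃ A : ℂ, A = psi i ω * conj (psi j ω) := ⟨_, rfl⟩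
  have npsi : ∀ (q : Ix), (∀ u, ‖q.2.1 u‖ ≤ 1) → ‖psi q ω‖ ≤ 1 := by
    intro q hq
    change ‖q.2.1 ω * xi q.2.2 ω‖ ≤ 1
    rw [norm_mul, norm_xi _ hω0, mul_one]
    exact hq ω
  have nA : ‖A‖ ≤ 1 := by
    rw [hA, norm_mul, RCLike.norm_conj]
    exact mul_le_one₀ (npsi i hni) (norm_nonneg _) (npsi j hnj)
  obtain ⟨E, hE⟩ : ∃ E : ℂ, E = Complex.exp (-(Complex.I * ((i.2.2 : ℂ) - j.2.2) * b / (r : ℝ))) :=
    ⟨_, rfl⟩
  have nE : ‖E‖ = 1 := by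
    have h := XL.LSMM.norm_E0 (i.2.2 - j.2.2) b r
    rw [hE]
    push_cast at h
    exact h
  obtain ⟨G, hGd⟩ : ∃ G : ℤ → ℂ, G = fun n =>
    (lam p.w m c (pt n b) : ℂ) * conj (i.2.1 (pt n b)) * j.2.1 (pt n b) := ⟨_, rfl⟩
  obtain ⟨AV0, hAV0⟩ : ∃ AV0 : ℂ, AV0 = AV p m c U b i j := ⟨_, rfl⟩
  obtain ⟨P, hP⟩ : ∃ P : ℂ, P = PL p m c i j ω b v := ⟨_, rfl⟩
  obtain ⟨dN, hdN⟩ : ∃ dN : ℝ, dN = (X' - X) / nm ω := ⟨_, rfl⟩
  have hdN0 : 0 ≤ dN := by rw [hdN]; exact div_nonneg (sub_nonneg.2 hXX') hN.le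
  have hdN1 : dN ≤ (1 / 2 + CG) * R := by
    rw [hdN, hR]; exact XL.LSMM.dX_le hCG hN hh hr0 hdX
  have nG : ∀ n, ‖G n‖ ≤ M₁ * W := by
    intro n
    rw [hGd]
    simp only
    rw [norm_mul, norm_mul, Complex.norm_real, Real.norm_eq_abs, RCLike.norm_conj]
    have h1 := lam_le hw hc hM (m := m) (pt n b)
    rw [← hW] at h1
    have h2 : 0 ≤ M₁ * W := mul_nonneg hM hW0
    calc |lam p.w m c (pt n b)| * ‖i.2.1 (pt n b)‖ * ‖j.2.1 (pt n b)‖ ≤ (M₁ * W) * 1 * 1 :=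
          mul_le_mul (mul_le_mul h1 (hni _) (norm_nonneg _) h2) (hnj _) (norm_nonneg _) (by simpa using h2)
      _ = M₁ * W := by ring
  -- the transformation
  have T1 : P = ∑ n ∈ LN ω b X X', A * (G n *
      (conj (xi i.2.2 (pt n b)) * xi j.2.2 (pt n b))) := by
    rw [hP]
    unfold PL LC
    rw [hsum (fun z => (lam p.w m c z : ℂ) * conj (psi i z) * psi j z)]
    refine sum_congr rfl fun n hn' => ?_
    have hmem := hn'
    unfold LN at hmem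
    rw [mem_filter, mem_Ioc] at hmem
    have hd : ω ∣ pt n b := hmem.2
    have h1 := conj_psi hChi hci hω0 hd
    have h2 := conj_psi hChj hcj hω0 hd
    have h3 : psi j (qt ω n b) = conj (psi j ω) * (j.2.1 (pt n b) * xi j.2.2 (pt n b)) := by
      have h4 := congrArg conj h2
      rw [Complex.conj_conj] at h4
      rw [h4, map_mul, map_mul, Complex.conj_conj, Complex.conj_conj]
    rw [h1, h3, lam_qt hω0 hrg hd, hA, hGd]
    ring
  -- the number of points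
  have NC : ((LN ω b X X').card : ℝ) ≤ dN + 2 := by
    have h1 := hLNQ 1 (fun _ => 1) 1 ω b X X' one_pos zero_le_one (fun _ => rfl) (fun _ => by simp)
      hω (Nat.coprime_one_right _) hXX'
    have h2 : av 1 (fun _ : ℤ => (1 : ℂ)) = 1 := by unfold av; simp
    rw [h2, mul_one, sum_const, nsmul_eq_mul, mul_one] at h1
    have h3 : ‖(((LN ω b X X').card : ℝ) : ℂ) - ((dN : ℝ) : ℂ)‖ ≤ 2 := by
      rw [hdN]
      refine le_trans (le_of_eq ?_) (h1.trans (le_of_eq (by norm_num)))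
      norm_cast
    rw [← Complex.ofReal_sub, Complex.norm_real, Real.norm_eq_abs] at h3
    linarith [(abs_le.1 h3).2]
  -- D1
  have D1 : ‖P - A * E * ∑ n ∈ LN ω b X X', G n‖ ≤ (dN + 2) * (M₁ * W * δ) := by
    rw [T1, mul_sum, ← sum_sub_distrib]
    refine (norm_sum_le _ _).trans ?_
    calc ∑ n ∈ LN ω b X X', ‖A * (G n * (conj (xi i.2.2 (pt n b)) * xi j.2.2 (pt n b))) -
          A * E * G n‖ ≤ ∑ _n ∈ LN ω b X X', M₁ * W * δ := by
          refine sum_le_sum fun n hn' => ?_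
          have hmem := hn'
          unfold LN at hmem
          rw [mem_filter, mem_Ioc] at hmem
          have hd : ω ∣ pt n b := hmem.2
          have hnX : X < (n : ℝ) := Int.floor_lt.1 hmem.1.1
          have hpt : pt n b ≠ 0 := by
            intro h6
            have h7 := XL.LSMM.mul_qt hω0 hd
            rw [h6] at h7
            exact (mul_ne_zero hω0 (XL.LSMM.qt_ne hω0 hb hd)) h7
          have e1 : A * (G n * (conj (xi i.2.2 (pt n b)) * xi j.2.2 (pt n b))) - A * E * G n =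
              A * (G n * (conj (xi i.2.2 (pt n b)) * xi j.2.2 (pt n b) - E)) := by ring
          rw [e1, norm_mul, norm_mul]
          have h1 := phase2 hPHA hCG i.2.2 j.2.2 n b hr0 hh0 (by linarith) (hn n hn') hpt
          rw [← hE, ← hκ, ← hδ] at h1
          have h2 : 0 ≤ M₁ * W := mul_nonneg hM hW0
          calc ‖A‖ * (‖G n‖ * ‖conj (xi i.2.2 (pt n b)) * xi j.2.2 (pt n b) - E‖)
              ≤ 1 * (M₁ * W * δ) :=
                mul_le_mul nA (mul_le_mul (nG n) h1 (norm_nonneg _) h2) (by positivity) zero_le_one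
            _ = M₁ * W * δ := one_mul _
      _ = (LN ω b X X').card * (M₁ * W * δ) := by rw [sum_const, nsmul_eq_mul]
      _ ≤ (dN + 2) * (M₁ * W * δ) :=
        mul_le_mul_of_nonneg_right NC (mul_nonneg (mul_nonneg hM hW0) hδ0)
  have D1' : (dN + 2) * (M₁ * W * δ) ≤
      M₁ * W * ((2 * CG + 8) * (1 / 2 + CG) * (R * κ)) + 4 * (M₁ * W) := by
    have h2 : 0 ≤ M₁ * W := mul_nonneg hM hW0
    have h3 : dN * δ ≤ (1 / 2 + CG) * R * ((2 * CG + 8) * κ) :=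
      mul_le_mul hdN1 hδ1 hδ0 (by positivity)
    have h4 : (dN + 2) * δ ≤ (2 * CG + 8) * (1 / 2 + CG) * (R * κ) + 4 := by nlinarith
    have h5 := mul_le_mul_of_nonneg_left h4 h2
    linarith
  -- D2
  have D2 : ‖∑ n ∈ LN ω b X X', G n - ((dN : ℝ) : ℂ) * AV0‖ ≤
      2 * M₁ * (W * W) * (i.1 * j.1) := by
    have e1 : ∑ n ∈ LN ω b X X', G n =
        ∑ δ ∈ Dw p.w m, (c δ : ℂ) * ∑ n ∈ LN ω b X X', Gd i j b δ n := by
      rw [hGd]
      simp only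
      rw [sum_congr rfl fun n _ => G_eq p.w m c i j b n, sum_comm]
      refine sum_congr rfl fun δ _ => ?_
      rw [mul_sum]
    have e2 : AV0 = ∑ δ ∈ Dw p.w m, (c δ : ℂ) * av (per p.w U) (Gd i j b δ) := by
      rw [hAV0]
      exact av_sum (per p.w U) p.w m c i j b
    rw [e1, e2, mul_sum, ← sum_sub_distrib]
    refine (norm_sum_le _ _).trans ?_
    calc ∑ δ ∈ Dw p.w m, ‖(c δ : ℂ) * ∑ n ∈ LN ω b X X', Gd i j b δ n -
          ((dN : ℝ) : ℂ) * ((c δ : ℂ) * av (per p.w U) (Gd i j b δ))‖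
        ≤ ∑ _δ ∈ Dw p.w m, M₁ * (2 * (W * (i.1 * j.1))) := by
          refine sum_le_sum fun δ hδm => ?_
          obtain ⟨q1, q2, -, -⟩ := mem_Dw hδm
          have e3 : (c δ : ℂ) * ∑ n ∈ LN ω b X X', Gd i j b δ n -
              ((dN : ℝ) : ℂ) * ((c δ : ℂ) * av (per p.w U) (Gd i j b δ)) =
              (c δ : ℂ) * (∑ n ∈ LN ω b X X', Gd i j b δ n -
                ((dN : ℝ) : ℂ) * av (per p.w U) (Gd i j b δ)) := by ring
          rw [e3, norm_mul, Complex.norm_real, Real.norm_eq_abs]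
          have hq0 : 0 < δ * (i.1 * j.1) := by positivity
          have h1 := hAVP (δ * (i.1 * j.1)) (per p.w U) (Gd i j b δ) hq0
            (per_pos fun i hi => (hU i hi).1) (dvd_per' hδm hi hj)
            (Gd_per b δ hChi hChj)
          have hcop : Nat.Coprime (nm ω) (δ * (i.1 * j.1)) := by
            refine Nat.Coprime.mul_right ?_ (hci.mul_right hcj)
            rw [Nat.coprime_comm, Nat.coprime_iff_gcd_eq_one]
            by_contra hg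
            obtain ⟨q, hq, hqd⟩ := Nat.exists_prime_and_dvd hg
            have h7 : q ∣ δ := hqd.trans (Nat.gcd_dvd_left _ _)
            have h8 : q ∣ nm ω := hqd.trans (Nat.gcd_dvd_right _ _)
            exact hrg q ((mem_Dw hδm).2.2.2 (Nat.mem_primeFactors.2 ⟨hq, h7, q1.ne'⟩)) h8
          have h2 := hLNQ (δ * (i.1 * j.1)) (Gd i j b δ) 1 ω b X X' hq0 zero_le_one
            (Gd_per b δ hChi hChj) (Gd_le b δ hni hnj) hω hcop hXX'
          rw [← h1, ← hdN] at h2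
          have h3 : 2 * ((δ * (i.1 * j.1) : ℕ) : ℝ) * 1 ≤ 2 * (W * (i.1 * j.1)) := by
            push_cast
            rw [← hW] at q2
            have h4 : (0 : ℝ) ≤ (i.1 : ℝ) * j.1 := by positivity
            have h5 := mul_le_mul_of_nonneg_right q2 h4
            linarith
          exact mul_le_mul (hc δ) (h2.trans h3) (norm_nonneg _) hM
      _ = (Dw p.w m).card * (M₁ * (2 * (W * (i.1 * j.1)))) := by rw [sum_const, nsmul_eq_mul]
      _ ≤ W * (M₁ * (2 * (W * (i.1 * j.1)))) := by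
          rw [hW]
          exact mul_le_mul_of_nonneg_right (card_Dw hw m) (by positivity)
      _ = 2 * M₁ * (W * W) * (i.1 * j.1) := by ring
  -- D3
  have nAV : ‖AV0‖ ≤ M₁ * W := by
    rw [hAV0]
    unfold AV
    rw [← hGd]
    exact norm_av_le (mul_nonneg hM hW0) nG
  have D3 : ‖((dN : ℝ) : ℂ) * AV0 - ((r / (2 * p.h * nm ω) : ℝ) : ℂ) * AV0‖ ≤
      CG * (1 / p.h * R) * (M₁ * W) := by
    rw [← sub_mul, norm_mul, ← Complex.ofReal_sub, Complex.norm_real, Real.norm_eq_abs]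
    have h1 : |dN - r / (2 * p.h * nm ω)| ≤ CG * (1 / p.h * R) := by
      have e1 : dN - r / (2 * p.h * nm ω) = (X' - X - r / (2 * p.h)) / nm ω := by
        rw [hdN, sub_div (X' - X), div_div]
      rw [e1, abs_div, abs_of_pos hN]
      have h2 : |X' - X - r / (2 * p.h)| / nm ω ≤ CG * r / p.h ^ 2 / nm ω :=
        div_le_div_of_nonneg_right hdX hN.le
      have e2 : CG * r / p.h ^ 2 / nm ω = CG * (1 / p.h * R) := by
        rw [hR]; field_simp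
      linarith
    exact mul_le_mul h1 nAV (norm_nonneg _) (by positivity)
  -- the conclusion
  rw [← hP, ← hA, ← hAV0, ← hE, ← hκ, ← hR]
  have e9 : P - ((r / (2 * p.h * nm ω) : ℝ) : ℂ) * A * AV0 * E =
      (P - A * E * ∑ n ∈ LN ω b X X', G n) +
        A * E * (∑ n ∈ LN ω b X X', G n - ((dN : ℝ) : ℂ) * AV0) +
        A * E * (((dN : ℝ) : ℂ) * AV0 - ((r / (2 * p.h * nm ω) : ℝ) : ℂ) * AV0) := by
    ring
  have nAE : ‖A * E‖ ≤ 1 := by rw [norm_mul, nE, mul_one]; exact nA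
  have F2 : ‖A * E * (∑ n ∈ LN ω b X X', G n - ((dN : ℝ) : ℂ) * AV0)‖ ≤
      2 * M₁ * (W * W) * (i.1 * j.1) := by
    rw [norm_mul]
    calc _ ≤ 1 * (2 * M₁ * (W * W) * (i.1 * j.1)) :=
          mul_le_mul nAE D2 (norm_nonneg _) zero_le_one
      _ = _ := one_mul _
  have F3 : ‖A * E * (((dN : ℝ) : ℂ) * AV0 - ((r / (2 * p.h * nm ω) : ℝ) : ℂ) * AV0)‖ ≤
      CG * (1 / p.h * R) * (M₁ * W) := by
    rw [norm_mul]
    calc _ ≤ 1 * (CG * (1 / p.h * R) * (M₁ * W)) :=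
          mul_le_mul nAE D3 (norm_nonneg _) zero_le_one
      _ = _ := one_mul _
  rw [e9]
  refine (norm_add₃_le).trans ((add_le_add (add_le_add (D1.trans D1') F2) F3).trans ?_)
  have hWW : W * W ≤ (p.w + 1) ^ (16 * m + 34) := by
    rw [hW, ← pow_add]
    exact pow_le_pow_right₀ (by linarith) (by omega)
  have hij : (1 : ℝ) ≤ (i.1 : ℝ) * j.1 := by
    have h1 : (1 : ℝ) ≤ i.1 := by exact_mod_cast hi1
    have h2 : (1 : ℝ) ≤ j.1 := by exact_mod_cast hj1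
    nlinarith
  obtain ⟨I, hI⟩ : ∃ I : ℝ, I = (i.1 : ℝ) * j.1 := ⟨_, rfl⟩
  rw [← hI] at hij ⊢
  obtain ⟨g, hg⟩ : ∃ g : ℝ, g = 1 / p.h := ⟨_, rfl⟩
  have hg0 : 0 ≤ g := by rw [hg]; positivity
  rw [← hg]
  obtain ⟨V, hV⟩ : ∃ V : ℝ, V = (p.w + 1) ^ (16 * m + 34) := ⟨_, rfl⟩
  rw [← hV] at hWW ⊢
  have hWV : W ≤ V := by nlinarith
  have hV0 : 0 ≤ V := hW0.trans hWV
  -- monotone bounds
  have a1 : M₁ * W * ((2 * CG + 8) * (1 / 2 + CG) * (R * κ)) ≤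
      M₁ * V * ((2 * CG + 8) * (1 / 2 + CG) * (R * κ)) :=
    mul_le_mul_of_nonneg_right (mul_le_mul_of_nonneg_left hWV hM) (by positivity)
  have a2 : 4 * (M₁ * W) ≤ 4 * (M₁ * V) * I := by
    have h1 : M₁ * W ≤ M₁ * V := mul_le_mul_of_nonneg_left hWV hM
    have h2 : 0 ≤ M₁ * V := mul_nonneg hM hV0
    nlinarith
  have a3 : 2 * M₁ * (W * W) * I ≤ 2 * M₁ * V * I :=
    mul_le_mul_of_nonneg_right (mul_le_mul_of_nonneg_left hWW (by positivity)) (by linarith)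
  have a4 : CG * (g * R) * (M₁ * W) ≤ CG * (g * R) * (M₁ * V) :=
    mul_le_mul_of_nonneg_left (mul_le_mul_of_nonneg_left hWV hM) (by positivity)
  have b1 : 0 ≤ M₁ * V * (R * κ) := by positivity
  have b2 : 0 ≤ M₁ * V * (R * g) := by positivity
  have b3 : 0 ≤ M₁ * V * I := mul_nonneg (mul_nonneg hM hV0) (by linarith)
  have c1 : 0 ≤ CG * (M₁ * V * (R * κ)) := mul_nonneg hCG.le b1
  have c2 : 0 ≤ CG * (M₁ * V * (R * g)) := mul_nonneg hCG.le b2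
  have c3 : 0 ≤ CG * (M₁ * V * I) := mul_nonneg hCG.le b3
  have c4 : 0 ≤ (2 * CG + 8) * (1 / 2 + CG) * (M₁ * V * (R * g)) := mul_nonneg (by positivity) b2
  have c5 : 0 ≤ (2 * CG + 8) * (1 / 2 + CG) * (M₁ * V * I) := mul_nonneg (by positivity) b3
  have e10 : ((2 * CG + 8) * (1 / 2 + CG) + CG + 6) * M₁ * V * (R * (g + κ) + I) =
      M₁ * V * ((2 * CG + 8) * (1 / 2 + CG) * (R * κ)) + CG * (M₁ * V * (R * κ)) +
      6 * (M₁ * V * (R * κ)) + (2 * CG + 8) * (1 / 2 + CG) * (M₁ * V * (R * g)) +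
      CG * (M₁ * V * (R * g)) + 6 * (M₁ * V * (R * g)) +
      (2 * CG + 8) * (1 / 2 + CG) * (M₁ * V * I) + CG * (M₁ * V * I) + 6 * (M₁ * V * I) := by
    ring
  have e11 : CG * (g * R) * (M₁ * V) = CG * (M₁ * V * (R * g)) := by ring
  rw [e10]
  nlinarith

end Pool.Agent.Lib.MP391708.X3M
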