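import Pool.Agent.Lib.MP_391708_nt.X3.SpecMT

/-!
# THEOREM X3 (MP_391708), part MT, module LPM: the line sums with weights in a context
-/

set_option autoImplicit false

namespace Pool.Agent.Lib.MP391708.X3M

open Finset Filter Topology Pool.Agent.Lib.MP391708.MR
open Pool.Agent.Lib.MP391708.X (ChiG hk Dist Fam rgh VP Ix psi ix1 UOK lc On)
open Pool.Agent.Lib.MP391708.X3
open Pool.Agent.Lib.MP391708.XL (gb VS PS pt LN)
open scoped ComplexConjugate

namespace LPMM

/-- the bounds for the norm of an element of `GP` -/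
lemma gp_bd {P Q : ℝ} {z : Gi} (hz : z ∈ GP P Q) : P < (nm z : ℝ) ∧ (nm z : ℝ) ≤ Q := by
  have h := MR.mem_GP.1 hz
  exact ⟨by tauto, by tauto⟩

/-- the radius and the norm of the outer point -/
lemma radii (p : Par) (y π z ω : Gi) (v j : ℕ) (h1 : 1 ≤ p.h)
    (hE1 : Real.exp ((v : ℝ) / p.h) ≤ nm z)
    (hE2 : (nm z : ℝ) ≤ Real.exp ((v : ℝ) / p.h) * Real.exp (1 / p.h))
    (hω : (nm ω : ℝ) = nm y * nm z * nm π) :
    rad p y π (v + j) ≤ Real.sqrt (nm ω * Real.exp ((j : ℝ) / p.h)) ∧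
    Real.sqrt (nm ω * Real.exp ((j : ℝ) / p.h)) ≤ rad p y π (v + j) * Real.exp (4 / p.h) := by
  have hy : (0 : ℝ) ≤ nm y := Nat.cast_nonneg _
  have hp : (0 : ℝ) ≤ nm π := Nat.cast_nonneg _
  have hyp : (0 : ℝ) ≤ nm y * nm π := mul_nonneg hy hp
  have hJ : 0 < Real.exp ((j : ℝ) / p.h) := Real.exp_pos _
  have hs : Real.exp (((v + j : ℕ) : ℝ) / p.h) =
      Real.exp ((v : ℝ) / p.h) * Real.exp ((j : ℝ) / p.h) := by
    rw [← Real.exp_add]
    congr 1
    push_cast
    ring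
  constructor
  · unfold rad
    rw [hs, hω]
    apply Real.sqrt_le_sqrt
    have h2 := mul_le_mul_of_nonneg_right hE1 (mul_nonneg hyp hJ.le)
    calc (nm y : ℝ) * nm π * (Real.exp ((v : ℝ) / p.h) * Real.exp ((j : ℝ) / p.h))
        = Real.exp ((v : ℝ) / p.h) * (nm y * nm π * Real.exp ((j : ℝ) / p.h)) := by ring
      _ ≤ nm z * (nm y * nm π * Real.exp ((j : ℝ) / p.h)) := h2
      _ = nm y * nm z * nm π * Real.exp ((j : ℝ) / p.h) := by ring
  · have h3 : rad p y π (v + j) * Real.exp (4 / p.h) =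
        Real.sqrt ((nm y : ℝ) * nm π * (Real.exp ((v : ℝ) / p.h) * Real.exp ((j : ℝ) / p.h)) *
          Real.exp (4 / p.h) ^ 2) := by
      unfold rad
      rw [hs, Real.sqrt_mul' _ (sq_nonneg (Real.exp (4 / p.h))), Real.sqrt_sq (Real.exp_pos _).le]
    rw [h3, hω]
    apply Real.sqrt_le_sqrt
    have h4 : Real.exp (1 / p.h) ≤ Real.exp (4 / p.h) ^ 2 := by
      rw [← Real.exp_nat_mul]
      apply Real.exp_le_exp.2
      have : 0 < p.h := by linarith
      have h5 : (1 : ℝ) / p.h ≤ 8 / p.h := div_le_div_of_nonneg_right (by norm_num) this.le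
      refine h5.trans (le_of_eq ?_)
      push_cast
      ring
    have h6 := mul_le_mul_of_nonneg_right hE2 (mul_nonneg hyp hJ.le)
    have h7 : 0 ≤ nm y * nm π * (Real.exp ((v : ℝ) / p.h) * Real.exp ((j : ℝ) / p.h)) :=
      mul_nonneg hyp (by positivity)
    calc (nm y : ℝ) * nm z * nm π * Real.exp ((j : ℝ) / p.h)
        = nm z * (nm y * nm π * Real.exp ((j : ℝ) / p.h)) := by ring
      _ ≤ Real.exp ((v : ℝ) / p.h) * Real.exp (1 / p.h) *
          (nm y * nm π * Real.exp ((j : ℝ) / p.h)) := h6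
      _ = nm y * nm π * (Real.exp ((v : ℝ) / p.h) * Real.exp ((j : ℝ) / p.h)) *
          Real.exp (1 / p.h) := by ring
      _ ≤ _ := mul_le_mul_of_nonneg_left h4 h7

/-- the number of points of a line in a cell -/
lemma pts {N T P h K n1 nz np nω r : ℝ} (hN : 0 < N) (hT : 0 < T) (hP : 0 < P) (hh : 0 < h)
    (hn1 : 0 < n1) (hK : K = N / T) (hω : nω = n1 * nz * np) (hω0 : 0 < nω)
    (hz : nz ≤ 2 * (K / n1)) (hz0 : 0 ≤ nz) (hp : np ≤ 2 * P) (hr : N / 8 ≤ r) :
    T / (P * h) ≤ 32 * (r / (h * nω)) := by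
  have h1 : nω ≤ 4 * (N / T) * P := by
    rw [hω]
    have h2 : n1 * nz ≤ 2 * K := by
      calc n1 * nz ≤ n1 * (2 * (K / n1)) := mul_le_mul_of_nonneg_left hz hn1.le
        _ = 2 * K := by field_simp
    calc n1 * nz * np ≤ (n1 * nz) * (2 * P) := mul_le_mul_of_nonneg_left hp (by positivity)
      _ ≤ (2 * K) * (2 * P) := mul_le_mul_of_nonneg_right h2 (by positivity)
      _ = 4 * (N / T) * P := by rw [hK]; ring
  have h3 : T / (P * h) = 32 * ((N / 8) / (h * (4 * (N / T) * P))) := by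
    field_simp
    norm_num
  rw [h3]
  apply mul_le_mul_of_nonneg_left _ (by norm_num)
  calc (N / 8) / (h * (4 * (N / T) * P)) ≤ (N / 8) / (h * nω) := by
        apply div_le_div_of_nonneg_left (by positivity) (by positivity)
        exact mul_le_mul_of_nonneg_left h1 hh.le
    _ ≤ r / (h * nω) := div_le_div_of_nonneg_right hr (by positivity)

/-- the radius against `N` -/
lemma errs {h N b r : ℝ} (hh : 0 < h) (hN : 0 < N) (hb : 0 ≤ b) (hr : N / 8 ≤ r) :
    b / (h * r) + (b / r) ^ 3 ≤ 512 * (b / (h * N) + (b / N) ^ 3) := by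
  have hr0 : 0 < r := by linarith
  have a1 : b / (h * r) ≤ 8 * (b / (h * N)) := by
    rw [← mul_div_assoc, div_le_div_iff₀ (by positivity) (by positivity)]
    have : b * h * N ≤ b * h * (8 * r) := mul_le_mul_of_nonneg_left (by linarith) (by positivity)
    nlinarith
  have a2 : b / r ≤ 8 * (b / N) := by
    rw [← mul_div_assoc, div_le_div_iff₀ hr0 hN]
    have : b * N ≤ b * (8 * r) := mul_le_mul_of_nonneg_left (by linarith) hb
    nlinarith
  have a3 : (b / r) ^ 3 ≤ 512 * (b / N) ^ 3 := by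
    calc (b / r) ^ 3 ≤ (8 * (b / N)) ^ 3 := pow_le_pow_left₀ (by positivity) a2 3
      _ = 512 * (b / N) ^ 3 := by ring
  have a4 : 0 ≤ b / (h * N) := by positivity
  linarith

/-- the sum of the errors -/
lemma total {C M δ W W' E V Q T A k k' β β' h u x : ℝ} (hC : 0 < C) (hM : 0 ≤ M) (hδ : 0 < δ)
    (hu : 0 ≤ u) (hE : 0 ≤ E) (hV : 0 ≤ V) (hk : 0 ≤ k) (hk' : 0 ≤ k') (hh : 0 < h)
    (hQ : 0 ≤ Q) (hβ0 : 0 ≤ β)
    (hW : 0 ≤ W) (hW' : A * W' ≤ M * W) (hβ : β' ≤ 512 * β)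
    (hx : x ≤ C * A * W' * (E * (1 / h + (k + k') * β') + Q))
    (h1 : u * W * (1 / h + k * β) ≤ δ / (2048 * C * (M + 1)) * V)
    (h2 : u * W * (1 / h + k' * β) ≤ δ / (2048 * C * (M + 1)) * V)
    (h3 : u * Q * W ≤ δ / (64 * C * (M + 1)) * T * V) (hT : T ≤ 32 * E) (hβ' : 0 ≤ β') :
    u * x ≤ δ * E * V := by
  have e0 : 1 / h + (k + k') * β' ≤ 512 * ((1 / h + k * β) + (1 / h + k' * β)) := by
    have e1 : (k + k') * β' ≤ (k + k') * (512 * β) := mul_le_mul_of_nonneg_left hβ (by positivity)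
    have e2 : 0 < 1 / h := by positivity
    nlinarith
  have e3 : 0 ≤ 1 / h + (k + k') * β' := by positivity
  have e4 : C * A * W' * (E * (1 / h + (k + k') * β') + Q) ≤
      C * (M * W) * (E * (512 * ((1 / h + k * β) + (1 / h + k' * β))) + Q) := by
    calc C * A * W' * (E * (1 / h + (k + k') * β') + Q)
        = C * (A * W') * (E * (1 / h + (k + k') * β') + Q) := by ring
      _ ≤ C * (M * W) * (E * (1 / h + (k + k') * β') + Q) :=
        mul_le_mul_of_nonneg_right (mul_le_mul_of_nonneg_left hW' hC.le)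
          (add_nonneg (mul_nonneg hE e3) hQ)
      _ ≤ _ := by
        apply mul_le_mul_of_nonneg_left _ (by positivity)
        have := mul_le_mul_of_nonneg_left e0 hE
        linarith
  have hM1 : 0 < M + 1 := by linarith
  have e5 : u * W * (512 * ((1 / h + k * β) + (1 / h + k' * β))) ≤
      512 * (2 * (δ / (2048 * C * (M + 1)) * V)) := by
    calc u * W * (512 * ((1 / h + k * β) + (1 / h + k' * β)))
        = 512 * (u * W * (1 / h + k * β) + u * W * (1 / h + k' * β)) := by ring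
      _ ≤ 512 * (δ / (2048 * C * (M + 1)) * V + δ / (2048 * C * (M + 1)) * V) := by
        apply mul_le_mul_of_nonneg_left (add_le_add h1 h2) (by norm_num)
      _ = _ := by ring
  have e6 : u * Q * W ≤ δ / (64 * C * (M + 1)) * (32 * E) * V := by
    refine h3.trans ?_
    apply mul_le_mul_of_nonneg_right _ hV
    exact mul_le_mul_of_nonneg_left hT (by positivity)
  calc u * x ≤ u * (C * (M * W) * (E * (512 * ((1 / h + k * β) + (1 / h + k' * β))) + Q)) :=
        mul_le_mul_of_nonneg_left (hx.trans e4) hu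
    _ = C * M * (E * (u * W * (512 * ((1 / h + k * β) + (1 / h + k' * β)))) + u * Q * W) := by ring
    _ ≤ C * (M + 1) * (E * (u * W * (512 * ((1 / h + k * β) + (1 / h + k' * β)))) + u * Q * W) := by
        apply mul_le_mul_of_nonneg_right
        · apply mul_le_mul_of_nonneg_left (by linarith) hC.le
        · positivity
    _ ≤ C * (M + 1) * (E * (512 * (2 * (δ / (2048 * C * (M + 1)) * V))) +
          δ / (64 * C * (M + 1)) * (32 * E) * V) := by
        apply mul_le_mul_of_nonneg_left _ (by positivity)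
        exact add_le_add (mul_le_mul_of_nonneg_left e5 hE) e6
    _ = δ * E * V := by
        field_simp
        ring

end LPMM

open LPMM in
/-- **LPM**. -/
theorem specLPM (hLPA : SpecLPA) (hSIZ : SpecSIZ) (hFRU : SpecFRU) (hTBU : SpecTBU) : SpecLPM := by
  obtain ⟨C, hC, hA⟩ := hLPA
  intro M₁ δ m hM hδ
  have hd1 : 0 < δ / (2048 * C * (M₁ + 1)) := by positivity
  have hd2 : 0 < δ / (64 * C * (M₁ + 1)) := by positivity
  have hEV := (((hSIZ.and (hFRU (16 * m + 35) _ hd1)).and (hTBU (16 * m + 35) _ hd2)).and EV.uok)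
  refine hEV.mono ?_
  rintro p B U b y ⟨⟨⟨hS, hF⟩, hT⟩, hU1, hU⟩ c hc i hi j hj π hπ z hz v hv
  obtain ⟨om1, om2, om3, om4, om5, om6⟩ := hS.om π hπ z hz
  obtain ⟨ce1, -, ce3, ce4⟩ := hS.ce z hz
  have f1 := hF i hi
  have f2 := hF j hj
  have t1 := hT i hi j hj
  have hra := hS.ra π hπ _ ce1 v hv
  have hh : 100 ≤ p.h := hS.h1
  have hN : 1000000 ≤ p.N := hS.N1
  have hr2 := radii p y π z (y * z * π) ⌊p.h * Real.log (nm z)⌋₊ v (by linarith) ce3 ce4 om4
  set r : ℝ := rad p y π (⌊p.h * Real.log (nm z)⌋₊ + v) with hr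
  have hr0 : 0 < r := by linarith [hra.1]
  have hw : 1 ≤ p.w := hS.w1
  have hb2 := hS.b2
  have hh2 := hS.h2
  have hL : 0 ≤ 1 + Real.log (p.w + 1) := by
    have := Real.log_nonneg (by linarith : (1:ℝ) ≤ p.w + 1)
    linarith
  have hL2 : 1 + Real.log (p.w + 1) ≤ p.w + 1 := by
    have := Real.log_le_sub_one_of_pos (by linarith : (0:ℝ) < p.w + 1)
    linarith
  have hm := hA p U m c (M₁ * (1 + Real.log (p.w + 1))) i j (y * z * π) b v r
    (fun i hi => ⟨(hU i hi).1, (hU i hi).2.1⟩) hi hj (mul_nonneg hM hL) hc om1 om2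
    (om3 i hi) (om3 j hj) hw hS.b1 (by linarith) (by linarith [hra.1]) (by linarith [hra.1])
    (by linarith [hra.1]) (hS.jj v hv).2 hr2.1 hr2.2
  have hP : 100 ≤ p.P := hS.P1
  have hTP : 1000 * p.P ≤ p.T := hS.T1
  have hω0 : (0 : ℝ) < nm (y * z * π) := by exact_mod_cast om5
  have hy0 : (0 : ℝ) < nm y := by
    have := hS.ny
    exact_mod_cast (show 0 < nm y by omega)
  have hpt : p.T / (p.P * p.h) ≤ 32 * (r / (p.h * nm (y * z * π))) :=
    pts (by linarith) (by linarith) (by linarith) (by linarith) hy0 rfl om4 hω0 (gp_bd hz).2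
      (Nat.cast_nonneg _) (gp_bd hπ).2 hra.1
  have hhp : 0 < p.h := by linarith
  have hNp : 0 < p.N := by linarith
  have hV : 0 ≤ VS b (PS p.w) := by
    have h1 : 0 ≤ (U.card : ℝ) ^ 2 * (p.w + 1) ^ (16 * m + 35) *
        (1 / p.h + |(i.2.2 : ℝ)| * (b / (p.h * p.N) + ((b : ℝ) / p.N) ^ 3)) := by positivity
    have h2 := h1.trans f1
    exact nonneg_of_mul_nonneg_right h2 hd1
  exact total (W := (p.w + 1) ^ (16 * m + 35)) (W' := (p.w + 1) ^ (16 * m + 34)) (C := C) (M := M₁)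
    (A := M₁ * (1 + Real.log (p.w + 1))) (k := |(i.2.2 : ℝ)|) (k' := |(j.2.2 : ℝ)|) (h := p.h)
    (Q := (i.1 : ℝ) * j.1) (T := p.T / (p.P * p.h)) (β := b / (p.h * p.N) + ((b : ℝ) / p.N) ^ 3)
    (β' := b / (p.h * r) + ((b : ℝ) / r) ^ 3)
    hC hM hδ (by positivity) (by positivity) hV (abs_nonneg _) (abs_nonneg _) hhp (by positivity)
    (by positivity) (by positivity)
    (by
      calc M₁ * (1 + Real.log (p.w + 1)) * (p.w + 1) ^ (16 * m + 34)
          ≤ M₁ * (p.w + 1) * (p.w + 1) ^ (16 * m + 34) :=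
            mul_le_mul_of_nonneg_right (mul_le_mul_of_nonneg_left hL2 hM) (by positivity)
        _ = M₁ * (p.w + 1) ^ (16 * m + 35) := by ring)
    (errs hhp hNp (Nat.cast_nonneg _) hra.1) hm f1 f2 t1 hpt (by positivity)

end Pool.Agent.Lib.MP391708.X3M
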