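import Pool.Agent.Lib.MP_391708_nt.X3.SpecMT

/-!
# THEOREM X3 (MP_391708), part MT, module MNX: the trivial character

Copy of `X/MT/MNX.lean` (helper1), without the variable `π₄` and with the sieve weights.
-/

set_option autoImplicit false

namespace Pool.Agent.Lib.MP391708.X3M

open Finset Filter Topology Pool.Agent.Lib.MP391708.MR
open Pool.Agent.Lib.MP391708.X (ChiG hk Dist Fam rgh VP Ix psi ix1 UOK lc On)
open Pool.Agent.Lib.MP391708.X3
open Pool.Agent.Lib.MP391708.XL (VS PS)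
open scoped ComplexConjugate

namespace MNXM

lemma psi1 (z : Gi) : psi ix1 z = 1 := by
  unfold psi hk ix1 xi
  simp

/-- the cells partition the primes -/
lemma cells {h M : ℝ} (hh : 0 ≤ h) (hM : 1 ≤ M) :
    ∑ v ∈ VV h M (2 * M), ((cell h M (2 * M) v).card : ℝ) = ((GP M (2 * M)).card : ℝ) := by
  have h1 : (GP M (2 * M)).card = ∑ v ∈ VV h M (2 * M), (cell h M (2 * M) v).card := by
    unfold cell
    refine Finset.card_eq_sum_card_fiberwise fun z hz => ?_
    have hz' : z ∈ GP M (2 * M) := hz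
    unfold GP disc at hz'
    rw [mem_filter, mem_filter] at hz'
    obtain ⟨⟨-, -, h2⟩, -, -, -, -, h3⟩ := hz'
    have h4 : (0 : ℝ) < M := by linarith
    show _ ∈ (VV h M (2 * M) : Set ℕ)
    unfold VV
    rw [Finset.coe_Icc, Set.mem_Icc]
    constructor
    · exact Nat.floor_le_floor (mul_le_mul_of_nonneg_left (Real.log_le_log h4 h3.le) hh)
    · exact Nat.floor_le_floor (mul_le_mul_of_nonneg_left
        (Real.log_le_log (h4.trans h3) h2) hh)
  rw [h1]
  push_cast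
  rfl

/-- the lower bound for the number of primes -/
lemma low {c X0 L M : ℝ} (hc : 0 < c)
    (h0 : ∀ X : ℝ, X0 ≤ X → c * X / Real.log X ≤ ((GP X (2 * X)).card : ℝ))
    (h1 : 2 ≤ M) (h2 : X0 ≤ M) (h3 : Real.log M ≤ L) :
    c * M / L ≤ ((GP M (2 * M)).card : ℝ) := by
  refine le_trans ?_ (h0 M h2)
  have h4 : 0 < Real.log M := Real.log_pos (by linarith)
  have h6 : 0 ≤ c * M := mul_nonneg hc.le (by linarith)
  exact div_le_div_of_nonneg_left h6 h4 h3

/-- the real number of which the main term is made -/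
noncomputable def t (p : Par) (y π : Gi) : ℝ :=
  ∑ u ∈ I1 p y, ∑ v ∈ I2 p,
    ((cell p.h (p.K / nm y) (2 * (p.K / nm y)) u).card : ℝ) *
      (4 * ((cell p.h p.M2 (2 * p.M2) v).card : ℝ)) * (1 / rad p y π (u + v))

lemma TT_eq (p : Par) (y π : Gi) (b : ℕ) : TT p y π b ix1 = ((t p y π : ℝ) : ℂ) := by
  unfold TT t
  push_cast
  refine Finset.sum_congr rfl fun u _ => Finset.sum_congr rfl fun v _ => ?_
  have h1 : S1 p y ix1 u = ((cell p.h (p.K / nm y) (2 * (p.K / nm y)) u).card : ℂ) := by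
    unfold S1
    rw [Finset.sum_congr rfl fun z _ => psi1 z]
    simp
  have h3 : S2 p ix1 v = 4 * ((cell p.h p.M2 (2 * p.M2) v).card : ℂ) := by
    unfold S2
    rw [Finset.sum_congr rfl fun z _ => psi1 z]
    simp
  have h4 : (ix1.2.2 : ℂ) = 0 := by
    unfold ix1
    simp
  rw [h1, h3, h4]
  simp

lemma tri (s r : Finset ℕ) (f k : ℕ → ℝ) (q : ℝ) :
    (∑ u ∈ s, f u) * (4 * ∑ w ∈ r, k w) * q = ∑ u ∈ s, ∑ w ∈ r, f u * (4 * k w) * q := by
  simp_rw [← Finset.sum_mul, ← Finset.mul_sum, ← Finset.sum_mul]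

lemma t_ge {p : Par} {y π : Gi} (hN : 0 < p.N)
    (hr : ∀ u ∈ I1 p y, ∀ v ∈ I2 p,
      p.N / 8 ≤ rad p y π (u + v) ∧ rad p y π (u + v) ≤ 2 * p.N)
    (hh : 0 ≤ p.h) (h1 : 1 ≤ p.K / nm y) (h2 : 1 ≤ p.M2) :
    ((GP (p.K / nm y) (2 * (p.K / nm y))).card : ℝ) *
      (4 * ((GP p.M2 (2 * p.M2)).card : ℝ)) * (1 / (2 * p.N)) ≤ t p y π := by
  rw [← cells hh h1, ← cells hh h2]
  unfold t
  have e : (∑ v ∈ VV p.h (p.K / nm y) (2 * (p.K / nm y)),
        ((cell p.h (p.K / nm y) (2 * (p.K / nm y)) v).card : ℝ)) *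
      (4 * ∑ v ∈ VV p.h p.M2 (2 * p.M2), ((cell p.h p.M2 (2 * p.M2) v).card : ℝ)) *
      (1 / (2 * p.N)) =
      ∑ u ∈ I1 p y, ∑ v ∈ I2 p,
        ((cell p.h (p.K / nm y) (2 * (p.K / nm y)) u).card : ℝ) *
          (4 * ((cell p.h p.M2 (2 * p.M2) v).card : ℝ)) * (1 / (2 * p.N)) := by
    unfold I1 I2
    exact tri _ _ _ _ _
  rw [e]
  refine Finset.sum_le_sum fun u hu => Finset.sum_le_sum fun v hv => ?_
  obtain ⟨h5, h6⟩ := hr u hu v hv
  have h7 : 0 < rad p y π (u + v) := lt_of_lt_of_le (by linarith) h5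
  exact mul_le_mul_of_nonneg_left (one_div_le_one_div_of_le h7 h6) (by positivity)

end MNXM

open MNXM in
/-- The trivial character. -/
theorem specMNX (hCNT : XM.SpecCNT) (hSIZ : SpecSIZ) (hAVB : SpecAVB) (hLSM : XL.SpecLSM) :
    SpecMNX := by
  obtain ⟨c, hc, hcn⟩ := hCNT
  obtain ⟨X0, hX0⟩ := Filter.eventually_atTop.1 hcn
  obtain ⟨-, -, -, -, -, c', hc', hE⟩ := hLSM
  have hX : EV (fun p _ _ _ _ => max X0 2 ≤ p.N ^ (1 / 3 : ℝ)) := by
    intro cw aU aQ aF _ _ _ _ _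
    refine ⟨0, 1, one_pos, fun ch _ δ _ _ => ⟨0, fun cP _ => ⟨0, fun cT _ => ⟨0, fun cB _ => ?_⟩⟩⟩⟩
    have h1 : Tendsto (fun N : ℝ => N ^ (1 / 3 : ℝ)) atTop atTop :=
      tendsto_rpow_atTop (by norm_num)
    filter_upwards [h1.eventually_ge_atTop (max X0 2)] with N hN T P B U b y _
    exact hN
  refine ⟨c ^ 2, by positivity, fun C m => ((hSIZ.and hX).and (hAVB C m)).mono ?_⟩
  rintro p B U b y ⟨⟨hS, hX1⟩, hA⟩ w d hw π hπ
  obtain ⟨-, hA1, hA2⟩ := hA w d hw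
  have hN : (0 : ℝ) < p.N := by have := hS.N1; linarith
  have hN1 : (1 : ℝ) ≤ p.N := by have := hS.N1; linarith
  have hl : 0 < Real.log p.N := by have := hS.l1; linarith
  have hre : (AV p m w U b ix1 ix1 * TT p y π b ix1).re =
      (AV p m w U b ix1 ix1).re * t p y π := by
    rw [TT_eq, Complex.re_mul_ofReal]
  have him : (AV p m w U b ix1 ix1 * TT p y π b ix1).im = 0 := by
    rw [TT_eq, Complex.im_mul_ofReal, hA1, zero_mul]
  refine ⟨him, ?_⟩
  rw [hre]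
  have hVS : 0 ≤ VS b (PS p.w) := (hE (b : ℤ) p.w hS.w1).2.1.le
  have hX2 : X0 ≤ p.N ^ (1 / 3 : ℝ) := (le_max_left _ _).trans hX1
  have hX3 : 2 ≤ p.N ^ (1 / 3 : ℝ) := (le_max_right _ _).trans hX1
  have hK : p.N ^ (1 / 3 : ℝ) ≤ p.K / nm y :=
    (Real.rpow_le_rpow_of_exponent_le hN1 (by norm_num)).trans hS.K1
  have hM : p.N ^ (1 / 3 : ℝ) ≤ p.M2 := by
    refine le_trans ?_ hS.M21
    calc p.N ^ (1 / 3 : ℝ) ≤ p.N ^ (1 : ℝ) := Real.rpow_le_rpow_of_exponent_le hN1 (by norm_num)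
      _ = p.N := Real.rpow_one _
  have hM22 := hS.M22
  have hK2 := hS.K2
  have hKp : 0 < p.K / nm y := by linarith
  have h2p : 0 < p.M2 := by linarith
  have hLK : Real.log (p.K / nm y) ≤ Real.log p.N := Real.log_le_log hKp hK2
  have hLM : Real.log p.M2 ≤ 2 * Real.log p.N := by
    have h1 : Real.log p.M2 ≤ Real.log (p.N ^ (3 / 2 : ℝ)) :=
      Real.log_le_log h2p (by linarith)
    rw [Real.log_rpow hN] at h1
    linarith
  have l1 := low hc hX0 (M := p.K / nm y) (by linarith) (by linarith) hLK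
  have l2 := low hc hX0 (M := p.M2) (by linarith) (by linarith) hLM
  have ht := t_ge (y := y) (π := π) hN (hS.ra π hπ) (by have := hS.h1; linarith)
    (by linarith) (by linarith)
  have hm : c ^ 2 * Z0 p y ≤ t p y π := by
    refine le_trans ?_ ht
    have e : c ^ 2 * Z0 p y = (c * (p.K / nm y) / Real.log p.N) *
        (4 * (c * p.M2 / (2 * Real.log p.N))) * (1 / (2 * p.N)) := by
      unfold Z0
      generalize p.K / nm y = k
      field_simp
      ring
    rw [e]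
    have p1 : 0 ≤ c * (p.K / nm y) / Real.log p.N := by positivity
    have p2 : 0 ≤ c * p.M2 / (2 * Real.log p.N) := by positivity
    gcongr
  have hZ : 0 ≤ c ^ 2 * Z0 p y := by
    unfold Z0
    positivity
  calc c ^ 2 * VS b (PS p.w) * Z0 p y = VS b (PS p.w) * (c ^ 2 * Z0 p y) := by ring
    _ ≤ (AV p m w U b ix1 ix1).re * t p y π :=
        mul_le_mul hA2 hm hZ (hVS.trans hA2)

end Pool.Agent.Lib.MP391708.X3M
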