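import Pool.Agent.Lib.MP_391708_nt.X3.SpecMT

/-!
# THEOREM X3 (MP_391708), part MT, module PSM (helper89, after helper32): the initial sums of `S2` in mean square
-/

set_option autoImplicit false

namespace Pool.Agent.Lib.MP391708.X3M

open Finset Filter Topology Pool.Agent.Lib.MP391708.MR
open Pool.Agent.Lib.MP391708.X (ChiG hk Dist Fam rgh VP Ix psi ix1 UOK lc On)
open Pool.Agent.Lib.MP391708.X3
open scoped ComplexConjugate

namespace PSMM

/-- THD in the contexts -/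
theorem md (hTHD : XD3.SpecTHD) (ε : ℝ) (hε : 0 < ε) : EV (fun p _ U _ _ =>
    ∀ y y' : ℝ, p.N ^ (1 / 2 : ℝ) ≤ y → y ≤ y' → y' ≤ 2 * y → y ≤ p.N ^ (2 : ℝ) →
      (open scoped Classical in ∑ i ∈ U.filter (fun i => i ≠ ix1), ‖∑ π ∈ GP y y', psi i π‖ ^ 2) ≤
        ε * (y / Real.log p.N) ^ 2) := by
  intro cw aU aQ aF _ _ haU haQ haF
  have ha1 : (1 : ℝ) ≤ max aQ aU := haQ.trans (le_max_left _ _)
  have hT := hTHD (max aQ aU) (1 / 2) ε ha1 (by norm_num) (by norm_num) hε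
  refine ⟨0, 1, one_pos, fun ch _ δ _ _ => ⟨0, fun cP hcP => ⟨0, fun cT hcT => ⟨0, fun cB hcB => ?_⟩⟩⟩⟩
  have hlog : Tendsto (fun N : ℝ => Real.log N) atTop atTop := Real.tendsto_log_atTop
  have hlo : ∀ᶠ N : ℝ in atTop, Real.log N ^ aF ≤ N := by
    have h1 := (isLittleO_log_rpow_rpow_atTop aF (zero_lt_one)).bound (c := 1) one_pos
    filter_upwards [h1, hlog.eventually_ge_atTop 1, eventually_gt_atTop 0] with N hN hl h0
    rw [Real.rpow_one, one_mul, Real.norm_of_nonneg (Real.rpow_nonneg (by linarith) _),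
      Real.norm_of_nonneg h0.le] at hN
    exact hN
  filter_upwards [hT, hlog.eventually_ge_atTop 1, eventually_ge_atTop 1, hlo]
    with N hN hl1 hN1 hlN T P B U b y hc
  have hok := hc.ok
  have hlN0 : 0 < Real.log N := by linarith
  have hP : 1 ≤ P := (Real.one_le_rpow hl1 hcP).trans hc.box.P1
  have hTT : 1 ≤ T := by
    refine le_trans ?_ hc.box.T1
    have h2 : 1 ≤ Real.log N ^ cT := Real.one_le_rpow hl1 hcT
    calc (1 : ℝ) = 1 * 1 := by ring
      _ ≤ P * Real.log N ^ cT := mul_le_mul hP h2 zero_le_one (by linarith)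
  have hB : 1 ≤ B := by
    refine le_trans ?_ hc.box.B1
    have h2 : 1 ≤ Real.log N ^ cB := Real.one_le_rpow hl1 hcB
    have h3 : 1 ≤ T * P := by
      calc (1 : ℝ) = 1 * 1 := by ring
        _ ≤ T * P := mul_le_mul hTT hP zero_le_one (by linarith)
    calc (1 : ℝ) = 1 * 1 := by ring
      _ ≤ T * P * Real.log N ^ cB := mul_le_mul h3 h2 zero_le_one (by linarith)
  have hU : UOK (Real.log N ^ max aQ aU) (N ^ (2 : ℝ)) (Real.log N ^ max aQ aU) U := by
    refine ⟨fun i hi => ?_, fun i hi => ?_, hok.adm, hok.dif, hok.one, ?_⟩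
    · obtain ⟨hf1, hf2, hf3⟩ := hok.ch i hi
      exact ⟨hf1, hf2.trans (Real.rpow_le_rpow_of_exponent_le hl1 (le_max_left _ _)), hf3⟩
    · refine (hok.frq i hi).trans ?_
      have h4 : N / B ≤ N := div_le_self (by linarith) hB
      calc Real.log N ^ aF * (N / B) ≤ N * N := by
            apply mul_le_mul hlN h4 (by positivity) (by linarith)
        _ = N ^ (2 : ℝ) := by rw [Real.rpow_two]; ring
    · exact hok.card.trans (Real.rpow_le_rpow_of_exponent_le hl1 (le_max_right _ _))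
  intro y₁ y₂ h1 h2 h3 h4
  exact hN U hU y₁ y₂ h1 h2 h3 h4

/-- the initial cells -/
theorem cells {h M : ℝ} (hh : 0 < h) (hM : 1 ≤ M) (m : ℕ) (ψ : Gi → ℂ) :
    ∑ v ∈ (VV h M (2 * M)).filter (fun v => v < m), ∑ π ∈ cell h M (2 * M) v, ψ π =
      ∑ π ∈ GP M (min (2 * M) ((⌈Real.exp (m / h)⌉₊ : ℝ) - 1)), ψ π := by
  have h1 : ∀ π ∈ GP M (2 * M), ⌊h * Real.log (nm π)⌋₊ ∈ VV h M (2 * M) := by
    intro π hπ
    rw [mem_GP] at hπ
    obtain ⟨-, -, -, -, h5, h6⟩ := hπ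
    rw [VV, mem_Icc]
    have hn : (0 : ℝ) < nm π := by linarith
    constructor
    · apply Nat.floor_mono
      apply mul_le_mul_of_nonneg_left _ hh.le
      exact Real.log_le_log (by linarith) h5.le
    · apply Nat.floor_mono
      apply mul_le_mul_of_nonneg_left _ hh.le
      exact Real.log_le_log hn h6
  have h2 : GP M (min (2 * M) ((⌈Real.exp (m / h)⌉₊ : ℝ) - 1)) =
      (GP M (2 * M)).filter (fun π => ⌊h * Real.log (nm π)⌋₊ < m) := by
    ext π
    rw [mem_filter, mem_GP, mem_GP]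
    constructor
    · rintro ⟨a1, a2, a3, a4, a5, a6⟩
      refine ⟨⟨a1, a2, a3, a4, a5, a6.trans (min_le_left _ _)⟩, ?_⟩
      have hn : (0 : ℝ) < nm π := by linarith
      have h3 : (nm π : ℝ) ≤ (⌈Real.exp (m / h)⌉₊ : ℝ) - 1 := a6.trans (min_le_right _ _)
      have h4 : nm π < ⌈Real.exp (m / h)⌉₊ := by
        have : (nm π : ℝ) < (⌈Real.exp (m / h)⌉₊ : ℝ) := by linarith
        exact_mod_cast this
      rw [Nat.lt_ceil, ← Real.log_lt_iff_lt_exp hn, lt_div_iff₀ hh, mul_comm] at h4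
      rw [Nat.floor_lt (mul_nonneg hh.le (Real.log_nonneg (by linarith)))]
      exact h4
    · rintro ⟨⟨a1, a2, a3, a4, a5, a6⟩, a7⟩
      refine ⟨a1, a2, a3, a4, a5, le_min a6 ?_⟩
      have hn : (0 : ℝ) < nm π := by linarith
      rw [Nat.floor_lt (mul_nonneg hh.le (Real.log_nonneg (by linarith))), mul_comm,
        ← lt_div_iff₀ hh, Real.log_lt_iff_lt_exp hn, ← Nat.lt_ceil] at a7
      have : (nm π : ℝ) + 1 ≤ (⌈Real.exp (m / h)⌉₊ : ℝ) := by exact_mod_cast a7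
      linarith
  rw [h2, sum_filter, sum_filter]
  have h3 : ∀ v ∈ VV h M (2 * M), (if v < m then ∑ π ∈ cell h M (2 * M) v, ψ π else 0) =
      ∑ π ∈ GP M (2 * M), if ⌊h * Real.log (nm π)⌋₊ = v then
        (if ⌊h * Real.log (nm π)⌋₊ < m then ψ π else 0) else 0 := by
    intro v _
    rw [cell, sum_filter]
    by_cases hv : v < m
    · rw [if_pos hv]
      refine sum_congr rfl fun π _ => ?_
      by_cases h4 : ⌊h * Real.log (nm π)⌋₊ = v
      · rw [if_pos h4, if_pos h4, if_pos (h4 ▸ hv)]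
      · rw [if_neg h4, if_neg h4]
    · rw [if_neg hv]
      symm
      refine sum_eq_zero fun π _ => ?_
      by_cases h4 : ⌊h * Real.log (nm π)⌋₊ = v
      · rw [if_pos h4, if_neg (h4 ▸ hv)]
      · rw [if_neg h4]
  rw [sum_congr rfl h3, sum_comm]
  refine sum_congr rfl fun π hπ => ?_
  rw [sum_ite_eq, if_pos (h1 π hπ)]

end PSMM

open PSMM in
theorem specPSM (hTHD : XD3.SpecTHD) (hSIZ : SpecSIZ) : SpecPSM := by
  intro δ hδ
  refine (hSIZ.and (md hTHD (δ / 16) (by positivity))).mono ?_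
  rintro p B U b y ⟨hs, hp⟩ m
  have hh : 0 < p.h := by linarith [hs.h1]
  have hN1 : 1 < p.N := by linarith [hs.N1]
  have hN0 : 0 < p.N := by linarith
  have hlN : 0 < Real.log p.N := by linarith [hs.l1]
  have hM1 : 1 ≤ p.M2 := hN1.le.trans hs.M21
  have hM0 : 0 < p.M2 := by linarith
  have hrhs : 0 ≤ δ * (p.M2 / Real.log p.N) ^ 2 := by positivity
  set y' : ℝ := min (2 * p.M2) ((⌈Real.exp (m / p.h)⌉₊ : ℝ) - 1) with hy'
  have h1 : ∀ i : Ix, ∑ v ∈ (I2 p).filter (fun v => v < m), S2 p i v =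
      4 * ∑ π ∈ GP p.M2 y', psi i π := by
    intro i
    have h := cells hh hM1 m (psi i)
    rw [← hy'] at h
    rw [← h, mul_sum]
    rfl
  have h2 : ∀ i : Ix, ‖∑ v ∈ (I2 p).filter (fun v => v < m), S2 p i v‖ ^ 2 =
      16 * ‖∑ π ∈ GP p.M2 y', psi i π‖ ^ 2 := by
    intro i
    rw [h1 i, norm_mul, mul_pow]
    norm_num
  rw [sum_congr rfl fun i _ => h2 i, ← mul_sum]
  rcases le_or_gt y' p.M2 with hle | hgt
  · have he : GP p.M2 y' = ∅ := by
      rw [eq_empty_iff_forall_notMem]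
      intro π hπ
      rw [mem_GP] at hπ
      linarith [hπ.2.2.2.2.1, hπ.2.2.2.2.2]
    simpa [he] using hrhs
  · have hy2 : y' ≤ 2 * p.M2 := min_le_left _ _
    have hN12 : p.N ^ (1 / 2 : ℝ) ≤ p.M2 := by
      calc p.N ^ (1 / 2 : ℝ) ≤ p.N ^ (1 : ℝ) := Real.rpow_le_rpow_of_exponent_le hN1.le (by norm_num)
        _ = p.N := Real.rpow_one _
        _ ≤ p.M2 := hs.M21
    have hN2 : p.M2 ≤ p.N ^ (2 : ℝ) := by
      have h3 : p.N ^ (3 / 2 : ℝ) ≤ p.N ^ (2 : ℝ) :=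
        Real.rpow_le_rpow_of_exponent_le hN1.le (by norm_num)
      linarith [hs.M22]
    have h3 := hp p.M2 y' hN12 hgt.le hy2 hN2
    calc 16 * _ ≤ 16 * (δ / 16 * (p.M2 / Real.log p.N) ^ 2) := by
          exact mul_le_mul_of_nonneg_left h3 (by norm_num)
      _ = δ * (p.M2 / Real.log p.N) ^ 2 := by ring

end Pool.Agent.Lib.MP391708.X3M
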