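import Pool.Agent.Lib.MP_391708_nt.X3.SpecMT
import Pool.Agent.Lib.MP_391708_nt.MR.Basic

/-!
# THEOREM X3 (MP_391708), part MT, module RED: the reduction to the bilinear sums (helper21, after helper92's X/MT/RED)
-/

set_option autoImplicit false

namespace Pool.Agent.Lib.MP391708.X3M

open Finset Filter Topology Pool.Agent.Lib.MP391708.MR
open Pool.Agent.Lib.MP391708.X (ChiG hk Dist Fam rgh VP Ix psi ix1 UOK lc On)
open Pool.Agent.Lib.MP391708.X3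
open Pool.Agent.Lib.MP391708.XL (gb VS PS pt LN)
open scoped ComplexConjugate

namespace REDM

lemma gb_le_one (b : ℤ) (p : ℕ) : gb b p ≤ 1 := by
  unfold XL.gb
  rcases Nat.eq_zero_or_pos p with h | h
  · subst h
    simp
  · rw [div_le_one (by exact_mod_cast h)]
    have h1 := Finset.card_filter_le (range p) (fun n : ℕ => p ∣ nm (XL.pt n b))
    rw [card_range] at h1
    exact_mod_cast h1

lemma VS_nonneg (b : ℤ) (S : Finset ℕ) : 0 ≤ VS b S := by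
  unfold XL.VS
  exact Finset.prod_nonneg fun p _ => sub_nonneg.2 (gb_le_one b p)

lemma VS_le_one (b : ℤ) (S : Finset ℕ) : VS b S ≤ 1 := by
  unfold XL.VS
  refine Finset.prod_le_one (fun p _ => sub_nonneg.2 (gb_le_one b p)) fun p _ => ?_
  have : 0 ≤ gb b p := by unfold XL.gb; positivity
  linarith

lemma psi_mul {i : Ix} (hi : ChiG (i.1 : Gi) i.2.1) (x y : Gi) :
    psi i (x * y) = psi i x * psi i y := by
  unfold X.psi X.hk
  rw [hi.mul, xi_mul]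
  ring

lemma psi_le {i : Ix} (hi : ∀ v, ‖i.2.1 v‖ ≤ 1) {x : Gi} (hx : x ≠ 0) : ‖psi i x‖ ≤ 1 := by
  unfold X.psi X.hk
  rw [norm_mul, norm_xi _ hx, mul_one]
  exact hi x

lemma psi_ix1 (x : Gi) : psi ix1 x = 1 := by
  unfold X.psi X.hk X.ix1 xi
  simp

lemma norm_e (k : ℤ) (b : ℕ) (r : ℝ) :
    ‖Complex.exp (-(Complex.I * k * b / (r : ℝ)))‖ = 1 := by
  have h : (-(Complex.I * k * b / ((r : ℝ) : ℂ))) = ((-((k : ℝ) * b / r) : ℝ) : ℂ) * Complex.I := by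
    push_cast
    ring
  rw [h, Complex.norm_exp_ofReal_mul_I]

/-- one term of the expanded main term -/
noncomputable def TM (p : Par) (m : ℕ) (c : ℕ → ℝ) (U : Finset Ix) (y : Gi) (b : ℕ) (π z : Gi) (v : ℕ) (i : Ix) : ℂ :=
  ((1 / (2 * Real.pi * VP p.w) : ℝ) : ℂ) * (psi i y * psi i π * (AV p m c U b i ix1 *
    (psi i z * S2 p i v *
      (((1 / rad p y π (⌊p.h * Real.log (nm z)⌋₊ + v) : ℝ) : ℂ) *
        Complex.exp (-(Complex.I * i.2.2 * b /
          (rad p y π (⌊p.h * Real.log (nm z)⌋₊ + v) : ℝ)))))))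

/-- the main term, expanded -/
lemma expand (p : Par) (m : ℕ) (c : ℕ → ℝ) (U : Finset Ix) (b : ℕ) (y : Gi) (hS : Siz p U b y) :
    ((1 / (2 * Real.pi * VP p.w) : ℝ) : ℂ) * ∑ π ∈ GP p.P (2 * p.P), ∑ i ∈ U,
      psi i y * psi i π * (AV p m c U b i ix1 * TT p y π b i) =
    ∑ π ∈ GP p.P (2 * p.P), ∑ z ∈ GP (p.K / nm y) (2 * (p.K / nm y)),
      ∑ v ∈ I2 p, ∑ i ∈ U, TM p m c U y b π z v i := by
  rw [Finset.mul_sum]
  refine Finset.sum_congr rfl fun π _ => ?_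
  -- the sum over z is the sum over the cells
  have h1 : ∀ i : Ix, TT p y π b i = ∑ z ∈ GP (p.K / nm y) (2 * (p.K / nm y)),
      ∑ v ∈ I2 p, psi i z * S2 p i v *
      (((1 / rad p y π (⌊p.h * Real.log (nm z)⌋₊ + v) : ℝ) : ℂ) *
        Complex.exp (-(Complex.I * i.2.2 * b /
          (rad p y π (⌊p.h * Real.log (nm z)⌋₊ + v) : ℝ)))) := by
    intro i
    rw [← Finset.sum_fiberwise_of_maps_to (s := GP (p.K / nm y) (2 * (p.K / nm y)))
      (t := I1 p y) (g := fun z => ⌊p.h * Real.log (nm z)⌋₊) (fun z hz => (hS.ce z hz).1)]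
    unfold TT
    refine Finset.sum_congr rfl fun u _ => ?_
    have h2 : ∀ z ∈ (GP (p.K / nm y) (2 * (p.K / nm y))).filter
        (fun z => ⌊p.h * Real.log (nm z)⌋₊ = u),
        (∑ v ∈ I2 p, psi i z * S2 p i v *
        (((1 / rad p y π (⌊p.h * Real.log (nm z)⌋₊ + v) : ℝ) : ℂ) *
        Complex.exp (-(Complex.I * i.2.2 * b /
          (rad p y π (⌊p.h * Real.log (nm z)⌋₊ + v) : ℝ))))) =
        psi i z * ∑ v ∈ I2 p, S2 p i v *
        (((1 / rad p y π (u + v) : ℝ) : ℂ) *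
        Complex.exp (-(Complex.I * i.2.2 * b / (rad p y π (u + v) : ℝ)))) := by
      intro z hz
      rw [(Finset.mem_filter.1 hz).2]
      simp only [Finset.mul_sum, mul_assoc]
    rw [Finset.sum_congr rfl h2, ← Finset.sum_mul]
    have h3 : S1 p y i u = ∑ z ∈ (GP (p.K / nm y) (2 * (p.K / nm y))).filter
        (fun z => ⌊p.h * Real.log (nm z)⌋₊ = u), psi i z := rfl
    rw [← h3]
    simp only [Finset.mul_sum, mul_assoc]
  rw [Finset.mul_sum]
  have h4 : ∀ i ∈ U, ((1 / (2 * Real.pi * VP p.w) : ℝ) : ℂ) *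
      (psi i y * psi i π * (AV p m c U b i ix1 * TT p y π b i)) =
      ∑ z ∈ GP (p.K / nm y) (2 * (p.K / nm y)), ∑ v ∈ I2 p,
        TM p m c U y b π z v i := by
    intro i _
    rw [h1 i]
    simp only [Finset.mul_sum]
    rfl
  rw [Finset.sum_congr rfl h4, Finset.sum_comm]
  refine Finset.sum_congr rfl fun z _ => ?_
  rw [Finset.sum_comm]

/-- `∑ ‖a_i‖ ≤ #U X` if `∑ ‖a_i‖² ≤ X²` -/
lemma sum_norm_le (U : Finset Ix) (a : Ix → ℂ) (X : ℝ) (hX : 0 ≤ X)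
    (h : ∑ i ∈ U, ‖a i‖ ^ 2 ≤ X ^ 2) : ∑ i ∈ U, ‖a i‖ ≤ U.card * X := by
  have h1 : ∀ i ∈ U, ‖a i‖ ≤ X := by
    intro i hi
    have h2 : ‖a i‖ ^ 2 ≤ X ^ 2 :=
      (Finset.single_le_sum (f := fun i => ‖a i‖ ^ 2) (fun i _ => by positivity) hi).trans h
    exact le_of_sq_le_sq h2 hX
  refine (Finset.sum_le_sum h1).trans ?_
  rw [Finset.sum_const, nsmul_eq_mul]

/-- the bound for one `(π, z, v)` -/
lemma one_term (p : Par) (m : ℕ) (c : ℕ → ℝ) (U : Finset Ix) (b : ℕ) (y : Gi) (hS : Siz p U b y)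
    (A C1 C3 d dr : ℝ) (hA : 0 ≤ A)
    (hC1 : 0 ≤ C1) (hC3 : 0 ≤ C3) (hd : 0 ≤ d) (hdr : 0 ≤ dr) (hdr2 : dr ≤ 1 / 2)
    (h1 : ix1 ∈ U)
    (hU : ∀ i ∈ U, ChiG (i.1 : Gi) i.2.1) (hchi : ∀ i ∈ U, ∀ v, ‖i.2.1 v‖ ≤ 1)
    (hAV : ∀ i ∈ U, ‖AV p m c U b i ix1‖ ≤ A * VS b (PS p.w))
    (hVP : 0 < VP p.w) (π z : Gi) (v : ℕ)
    (hπ : π ∈ GP p.P (2 * p.P)) (hz : z ∈ GP (p.K / nm y) (2 * (p.K / nm y)))
    (hv : v ∈ I2 p)
    (hLIN : ∀ i ∈ U, (U.card : ℝ) ^ 2 * ‖PL p m c i ix1 (y * z * π) b v -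
      ((rad p y π (⌊p.h * Real.log (nm z)⌋₊ + v) / (2 * p.h * nm (y * z * π)) : ℝ) : ℂ) *
        (psi i (y * z * π) * conj (psi ix1 (y * z * π))) * AV p m c U b i ix1 *
        Complex.exp (-(Complex.I * ((i.2.2 : ℂ) - ix1.2.2) * b /
          (rad p y π (⌊p.h * Real.log (nm z)⌋₊ + v) : ℝ)))‖ ≤
      d * (rad p y π (⌊p.h * Real.log (nm z)⌋₊ + v) / (p.h * nm (y * z * π))) * VS b (PS p.w))
    (hB : ∑ i ∈ U, ‖cc p i v‖ ^ 2 ≤
      (C1 * p.M2 / (Real.log p.N * (Real.exp ((v : ℝ) / p.h) * VP p.w))) ^ 2)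
    (hD : ∑ i ∈ U, ‖S2 p i v‖ ^ 2 ≤ (C3 * p.M2 / (p.h * Real.log p.N)) ^ 2)
    (hR : |RR p v * p.h /
      (Real.pi * Real.exp ((v : ℝ) / p.h) * VP p.w) - 1| ≤ dr) :
    ∑ i ∈ U, ‖cc p i v * PL p m c i ix1 (y * z * π) b v - TM p m c U y b π z v i‖ ≤
      8 * (C1 * d + C3 * A * (U.card * (dr + 1 / p.h))) * (VS b (PS p.w) * p.M2 /
        (p.h * Real.log p.N * VP p.w * p.N)) := by
  have hVS : 0 ≤ VS b (PS p.w) := VS_nonneg _ _
  have hN : (0 : ℝ) < p.N := lt_of_lt_of_le (by norm_num) hS.N1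
  have hh : (0 : ℝ) < p.h := lt_of_lt_of_le (by norm_num) hS.h1
  have hl : (0 : ℝ) < Real.log p.N := lt_of_lt_of_le (by norm_num) hS.l1
  have hM2 : (0 : ℝ) ≤ p.M2 := hN.le.trans hS.M21
  have hpi := Real.pi_pos
  have hn1 : (1 : ℝ) ≤ (U.card : ℝ) := by
    have : 1 ≤ U.card := Finset.card_pos.2 ⟨ix1, h1⟩
    exact_mod_cast this
  generalize hn : (U.card : ℝ) = n at *
  have hn0 : 0 < n := by linarith
  obtain ⟨hcu, -, hce1, hce2⟩ := hS.ce z hz
  obtain ⟨hra1, -⟩ := hS.ra π hπ _ hcu v hv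
  obtain ⟨-, -, -, hnm, hnm0, -⟩ := hS.om π hπ z hz
  generalize hr : rad p y π (⌊p.h * Real.log (nm z)⌋₊ + v) = r at *
  have hr0 : 0 < r := lt_of_lt_of_le (by positivity) hra1
  have hnmR : (0 : ℝ) < (nm (y * z * π) : ℝ) := by exact_mod_cast hnm0
  have hnm1 : (0 : ℝ) < (nm y : ℝ) * nm z * nm π := by rw [← hnm]; exact hnmR
  have hnz : (0 : ℝ) < (nm z : ℝ) := nm_posR (GP_ne_zero hz)
  have hω0 : y * z * π ≠ 0 := by
    intro h0
    rw [h0] at hnm0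
    simp at hnm0
  -- the square of the radius
  generalize hE : Real.exp ((v : ℝ) / p.h) = E at *
  have hE0 : 0 < E := by rw [← hE]; exact Real.exp_pos _
  generalize hu : Real.exp ((⌊p.h * Real.log (nm z)⌋₊ : ℝ) / p.h) = eu at *
  have heu0 : 0 < eu := by rw [← hu]; exact Real.exp_pos _
  have hr2 : r ^ 2 = (nm y : ℝ) * nm π * (eu * E) := by
    rw [← hr, ← hu, ← hE]
    unfold rad
    rw [Real.sq_sqrt (by positivity), ← Real.exp_add]
    congr 2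
    push_cast
    ring
  have hq1 : r ^ 2 ≤ (nm (y * z * π) : ℝ) * E := by
    rw [hr2, hnm]
    have : (nm y : ℝ) * nm π * (eu * E) = ((nm y : ℝ) * nm π * E) * eu := by ring
    rw [this]
    have h2 : (nm y : ℝ) * nm z * nm π * E = ((nm y : ℝ) * nm π * E) * nm z := by ring
    rw [h2]
    exact mul_le_mul_of_nonneg_left hce1 (by positivity)
  have hq2 : (nm (y * z * π) : ℝ) * E * (1 - 1 / p.h) ≤ r ^ 2 := by
    have h1 : 1 - 1 / p.h ≤ Real.exp (-(1 / p.h)) := by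
      have := Real.add_one_le_exp (-(1 / p.h))
      linarith
    have h3 : (nm z : ℝ) * Real.exp (-(1 / p.h)) ≤ eu := by
      calc (nm z : ℝ) * Real.exp (-(1 / p.h)) ≤ (eu * Real.exp (1 / p.h)) * Real.exp (-(1 / p.h)) :=
            mul_le_mul_of_nonneg_right hce2 (Real.exp_pos _).le
        _ = eu := by rw [mul_assoc, ← Real.exp_add]; simp
    calc (nm (y * z * π) : ℝ) * E * (1 - 1 / p.h)
        ≤ (nm (y * z * π) : ℝ) * E * Real.exp (-(1 / p.h)) :=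
          mul_le_mul_of_nonneg_left h1 (by positivity)
      _ = ((nm y : ℝ) * nm π * E) * ((nm z : ℝ) * Real.exp (-(1 / p.h))) := by rw [hnm]; ring
      _ ≤ ((nm y : ℝ) * nm π * E) * eu := mul_le_mul_of_nonneg_left h3 (by positivity)
      _ = r ^ 2 := by rw [hr2]; ring
  -- the number of rough elements
  obtain ⟨ρ, hρ⟩ : ∃ ρ, ρ = RR p v * p.h / (Real.pi * E * VP p.w) := ⟨_, rfl⟩
  rw [← hρ] at hR
  have hρ1 : 1 / 2 ≤ ρ := by
    have := abs_le.1 hR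
    linarith [this.1]
  have hρ0 : 0 < ρ := lt_of_lt_of_le (by norm_num) hρ1
  have hRR : RR p v = ρ * (Real.pi * E * VP p.w) / p.h := by
    rw [hρ]
    field_simp
  have hRR0 : 0 < RR p v := by rw [hRR]; positivity
  -- the coefficients
  have hcoef : |r / (2 * p.h * nm (y * z * π)) / RR p v - 1 / (2 * Real.pi * VP p.w) * (1 / r)| ≤
      8 / (VP p.w * p.N) * (dr + 1 / p.h) := by
    have h1 : r / (2 * p.h * nm (y * z * π)) / RR p v - 1 / (2 * Real.pi * VP p.w) * (1 / r) =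
        1 / (2 * Real.pi * VP p.w * r) * ((r ^ 2 / (nm (y * z * π) * E) - ρ) / ρ) := by
      rw [hRR]
      field_simp
    have h2 : |(r ^ 2 / (nm (y * z * π) * E) - ρ) / ρ| ≤ 2 * (dr + 1 / p.h) := by
      rw [abs_div, abs_of_pos hρ0, div_le_iff₀ hρ0]
      have h3 : |r ^ 2 / (nm (y * z * π) * E) - ρ| ≤ dr + 1 / p.h := by
        have h4 : r ^ 2 / (nm (y * z * π) * E) ≤ 1 := by
          rw [div_le_one (by positivity)]
          exact hq1
        have h5 : 1 - 1 / p.h ≤ r ^ 2 / (nm (y * z * π) * E) := by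
          rw [le_div_iff₀ (by positivity), mul_comm]
          exact hq2
        have h6 := abs_le.1 hR
        rw [abs_le]
        constructor
        · linarith [h6.1, h6.2]
        · have : 0 ≤ 1 / p.h := by positivity
          linarith [h6.1, h6.2]
      have h7 : 0 ≤ dr + 1 / p.h := by positivity
      nlinarith
    rw [h1, abs_mul, abs_of_pos (show (0 : ℝ) < 1 / (2 * Real.pi * VP p.w * r) by positivity)]
    have h3 : 1 / (2 * Real.pi * VP p.w * r) ≤ 4 / (VP p.w * p.N) := by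
      rw [div_le_div_iff₀ (by positivity) (by positivity)]
      have h4 : p.N ≤ 8 * r := by linarith
      have h5 : (3 : ℝ) < Real.pi := Real.pi_gt_three
      have h6 : VP p.w * p.N ≤ VP p.w * (8 * r) := mul_le_mul_of_nonneg_left h4 hVP.le
      have h7 : VP p.w * r * 3 ≤ VP p.w * r * Real.pi :=
        mul_le_mul_of_nonneg_left h5.le (by positivity)
      nlinarith [mul_pos hVP hr0]
    calc 1 / (2 * Real.pi * VP p.w * r) * |(r ^ 2 / (nm (y * z * π) * E) - ρ) / ρ|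
        ≤ 4 / (VP p.w * p.N) * (2 * (dr + 1 / p.h)) :=
          mul_le_mul h3 h2 (abs_nonneg _) (by positivity)
      _ = 8 / (VP p.w * p.N) * (dr + 1 / p.h) := by ring
  -- the pointwise bound
  have hpt : ∀ i ∈ U, ‖cc p i v * PL p m c i ix1 (y * z * π) b v - TM p m c U y b π z v i‖ ≤
      ‖cc p i v‖ * (d * (r / (p.h * nm (y * z * π))) * VS b (PS p.w) / n ^ 2) +
      ‖S2 p i v‖ * (A * VS b (PS p.w) * (8 / (VP p.w * p.N) * (dr + 1 / p.h))) := by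
    intro i hi
    have hψ : psi i (y * z * π) = psi i y * psi i z * psi i π := by
      rw [psi_mul (hU i hi), psi_mul (hU i hi)]
    obtain ⟨e, he⟩ : ∃ e : ℂ, e = Complex.exp (-(Complex.I * i.2.2 * b / (r : ℝ))) := ⟨_, rfl⟩
    have he1 : ‖e‖ = 1 := by rw [he]; exact norm_e _ _ _
    have hL := hLIN i hi
    have hx1 : conj (psi ix1 (y * z * π)) = 1 := by rw [psi_ix1]; simp
    have hx2 : ((i.2.2 : ℂ) - (ix1.2.2 : ℂ)) = (i.2.2 : ℂ) := by
      simp [X.ix1]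
    rw [hx1, hx2, ← he, mul_one] at hL
    have hL' : ‖PL p m c i ix1 (y * z * π) b v -
        ((r / (2 * p.h * nm (y * z * π)) : ℝ) : ℂ) * psi i (y * z * π) * AV p m c U b i ix1 * e‖ ≤
        d * (r / (p.h * nm (y * z * π))) * VS b (PS p.w) / n ^ 2 := by
      rw [le_div_iff₀ (by positivity), mul_comm]
      exact hL
    have hT : TM p m c U y b π z v i = S2 p i v * AV p m c U b i ix1 * psi i (y * z * π) * e *
        ((1 / (2 * Real.pi * VP p.w) * (1 / r) : ℝ) : ℂ) := by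
      unfold TM
      rw [hr, ← he, hψ]
      push_cast
      ring
    have hM : cc p i v * (((r / (2 * p.h * nm (y * z * π)) : ℝ) : ℂ) * psi i (y * z * π) *
        AV p m c U b i ix1 * e) = S2 p i v * AV p m c U b i ix1 * psi i (y * z * π) * e *
        ((r / (2 * p.h * nm (y * z * π)) / RR p v : ℝ) : ℂ) := by
      unfold X3.cc
      push_cast
      ring
    have hdiff : cc p i v * PL p m c i ix1 (y * z * π) b v - TM p m c U y b π z v i =
        cc p i v * (PL p m c i ix1 (y * z * π) b v -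
          ((r / (2 * p.h * nm (y * z * π)) : ℝ) : ℂ) * psi i (y * z * π) *
            AV p m c U b i ix1 * e) +
        S2 p i v * AV p m c U b i ix1 * psi i (y * z * π) * e *
          (((r / (2 * p.h * nm (y * z * π)) / RR p v -
            1 / (2 * Real.pi * VP p.w) * (1 / r)) : ℝ) : ℂ) := by
      rw [mul_sub, hM, hT, Complex.ofReal_sub]
      ring
    rw [hdiff]
    refine (norm_add_le _ _).trans (add_le_add ?_ ?_)
    · rw [norm_mul]
      exact mul_le_mul_of_nonneg_left hL' (norm_nonneg _)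
    · rw [norm_mul, norm_mul, norm_mul, norm_mul, he1, mul_one, Complex.norm_real,
        Real.norm_eq_abs]
      have h1 : ‖S2 p i v‖ * ‖AV p m c U b i ix1‖ * ‖psi i (y * z * π)‖ ≤
          ‖S2 p i v‖ * (A * VS b (PS p.w)) * 1 := by
        refine mul_le_mul ?_ (psi_le (hchi i hi) hω0) (norm_nonneg _) (by positivity)
        exact mul_le_mul_of_nonneg_left (hAV i hi) (by positivity)
      calc ‖S2 p i v‖ * ‖AV p m c U b i ix1‖ * ‖psi i (y * z * π)‖ *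
            |r / (2 * p.h * nm (y * z * π)) / RR p v - 1 / (2 * Real.pi * VP p.w) * (1 / r)|
          ≤ (‖S2 p i v‖ * (A * VS b (PS p.w)) * 1) *
            (8 / (VP p.w * p.N) * (dr + 1 / p.h)) :=
            mul_le_mul h1 hcoef (abs_nonneg _) (by positivity)
        _ = _ := by ring
  refine (Finset.sum_le_sum hpt).trans ?_
  rw [Finset.sum_add_distrib, ← Finset.sum_mul, ← Finset.sum_mul]
  have hsB : ∑ i ∈ U, ‖cc p i v‖ ≤ n * (C1 * p.M2 / (Real.log p.N * (E * VP p.w))) := by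
    have := sum_norm_le U (fun i => cc p i v) (C1 * p.M2 / (Real.log p.N * (E * VP p.w)))
      (by positivity) hB
    rw [hn] at this
    exact this
  have hsD : ∑ i ∈ U, ‖S2 p i v‖ ≤ n * (C3 * p.M2 / (p.h * Real.log p.N)) := by
    have := sum_norm_le U (fun i => S2 p i v) (C3 * p.M2 / (p.h * Real.log p.N))
      (by positivity) hD
    rw [hn] at this
    exact this
  have hk1 : (∑ i ∈ U, ‖cc p i v‖) * (d * (r / (p.h * nm (y * z * π))) * VS b (PS p.w) / n ^ 2) ≤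
      8 * (C1 * d) * (VS b (PS p.w) * p.M2 /
        (p.h * Real.log p.N * VP p.w * p.N)) := by
    have h1 : r / (nm (y * z * π) * E) ≤ 8 / p.N := by
      rw [div_le_div_iff₀ (by positivity) hN]
      have h2 : r * p.N ≤ r * (8 * r) := mul_le_mul_of_nonneg_left (by linarith) hr0.le
      nlinarith
    have h3 : 1 / n ≤ 1 := by
      rw [div_le_one hn0]
      exact hn1
    calc (∑ i ∈ U, ‖cc p i v‖) * (d * (r / (p.h * nm (y * z * π))) * VS b (PS p.w) / n ^ 2)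
        ≤ (n * (C1 * p.M2 / (Real.log p.N * (E * VP p.w)))) *
          (d * (r / (p.h * nm (y * z * π))) * VS b (PS p.w) / n ^ 2) :=
          mul_le_mul_of_nonneg_right hsB (by positivity)
      _ = ((C1 * d) * (VS b (PS p.w) * p.M2 / (p.h * Real.log p.N * VP p.w))) *
          (r / (nm (y * z * π) * E)) * (1 / n) := by
          field_simp
      _ ≤ ((C1 * d) * (VS b (PS p.w) * p.M2 / (p.h * Real.log p.N * VP p.w))) *
          (8 / p.N) * 1 := by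
          refine mul_le_mul ?_ h3 (by positivity) (by positivity)
          exact mul_le_mul_of_nonneg_left h1 (by positivity)
      _ = _ := by
          field_simp
  have hk2 : (∑ i ∈ U, ‖S2 p i v‖) *
      (A * VS b (PS p.w) * (8 / (VP p.w * p.N) * (dr + 1 / p.h))) ≤
      8 * (C3 * A * (n * (dr + 1 / p.h))) * (VS b (PS p.w) * p.M2 /
        (p.h * Real.log p.N * VP p.w * p.N)) := by
    calc (∑ i ∈ U, ‖S2 p i v‖) *
          (A * VS b (PS p.w) * (8 / (VP p.w * p.N) * (dr + 1 / p.h)))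
        ≤ (n * (C3 * p.M2 / (p.h * Real.log p.N))) *
          (A * VS b (PS p.w) * (8 / (VP p.w * p.N) * (dr + 1 / p.h))) :=
          mul_le_mul_of_nonneg_right hsD (by positivity)
      _ = _ := by
          field_simp
  calc _ ≤ 8 * (C1 * d) * (VS b (PS p.w) * p.M2 /
        (p.h * Real.log p.N * VP p.w * p.N)) + 8 * (C3 * A * (n * (dr + 1 / p.h))) *
        (VS b (PS p.w) * p.M2 / (p.h * Real.log p.N * VP p.w * p.N)) :=
        add_le_add hk1 hk2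
    _ = _ := by ring

/-- the number of the `z₁` -/
lemma card_Z (p : Par) (U : Finset Ix) (b : ℕ) (y : Gi) (hS : Siz p U b y) (C3 : ℝ)
    (hC3 : 0 ≤ C3)
    (hC : ∀ u : ℕ, ((cell p.h (p.K / nm y) (2 * (p.K / nm y)) u).card : ℝ) ≤
      C3 * (p.K / nm y) / (p.h * Real.log p.N)) :
    ((GP (p.K / nm y) (2 * (p.K / nm y))).card : ℝ) ≤ C3 * (p.K / nm y) / Real.log p.N := by
  have hN : (0 : ℝ) < p.N := lt_of_lt_of_le (by norm_num) hS.N1
  have hh : (0 : ℝ) < p.h := lt_of_lt_of_le (by norm_num) hS.h1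
  have hl : (0 : ℝ) < Real.log p.N := lt_of_lt_of_le (by norm_num) hS.l1
  have hK : (0 : ℝ) ≤ p.K / nm y := (Real.rpow_nonneg hN.le _).trans hS.K1
  have h2 : (GP (p.K / nm y) (2 * (p.K / nm y))).card = ∑ u ∈ I1 p y,
      ((GP (p.K / nm y) (2 * (p.K / nm y))).filter
        (fun z => ⌊p.h * Real.log (nm z)⌋₊ = u)).card :=
    Finset.card_eq_sum_card_fiberwise (fun z hz => (hS.ce z hz).1)
  have h3 : ∀ u ∈ I1 p y, ((((GP (p.K / nm y) (2 * (p.K / nm y))).filter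
      (fun z => ⌊p.h * Real.log (nm z)⌋₊ = u)).card : ℕ) : ℝ) ≤
      C3 * (p.K / nm y) / (p.h * Real.log p.N) := fun u _ => hC u
  rw [h2]
  push_cast
  refine (Finset.sum_le_sum h3).trans ?_
  rw [Finset.sum_const, nsmul_eq_mul]
  calc ((I1 p y).card : ℝ) * (C3 * (p.K / nm y) / (p.h * Real.log p.N))
      ≤ p.h * (C3 * (p.K / nm y) / (p.h * Real.log p.N)) :=
        mul_le_mul_of_nonneg_right hS.c1 (by positivity)
    _ = C3 * (p.K / nm y) / Real.log p.N := by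
        field_simp

/-- the sieve error in one context -/
lemma sieve (p : Par) (m : ℕ) (c : ℕ → ℝ) (U : Finset Ix) (b : ℕ) (y : Gi) (hS : Siz p U b y)
    (C1 e : ℝ) (hC1 : 0 ≤ C1) (he : 0 ≤ e) (hVP : 0 < VP p.w)
    (hB : ∀ v ∈ I2 p, ∑ i ∈ U, ‖cc p i v‖ ^ 2 ≤
      (C1 * p.M2 / (Real.log p.N * (Real.exp ((v : ℝ) / p.h) * VP p.w))) ^ 2)
    (hSER : ∀ π ∈ GP p.P (2 * p.P), ∀ u ∈ I1 p y, ∀ v ∈ I2 p, ∀ a : Ix → ℂ,
    ‖∑ z₁ ∈ cell p.h (p.K / nm y) (2 * (p.K / nm y)) u, ∑ z ∈ LC p (y * z₁ * π) b v,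
      ((ro p.w z - lam p.w m c z : ℝ) : ℂ) * ∑ i ∈ U, a i * conj (psi i z)‖ ≤
    e * VS b (PS p.w) * (Real.exp ((v : ℝ) / p.h) / (p.h * rad p y π (u + v))) *
      ((p.K / nm y) / (p.h * Real.log p.N)) * Real.sqrt (∑ i ∈ U, ‖a i‖ ^ 2)) :
    ‖∑ π ∈ GP p.P (2 * p.P), ∑ z₁ ∈ GP (p.K / nm y) (2 * (p.K / nm y)), ∑ v ∈ I2 p,
      ∑ z ∈ LC p (y * z₁ * π) b v,
        ((ro p.w z - lam p.w m c z : ℝ) : ℂ) * ∑ i ∈ U, cc p i v * conj (psi i z)‖ ≤
      8 * C1 * e * XX p y b := by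
  have hVS : 0 ≤ VS b (PS p.w) := VS_nonneg _ _
  have hN : (0 : ℝ) < p.N := lt_of_lt_of_le (by norm_num) hS.N1
  have hh : (0 : ℝ) < p.h := lt_of_lt_of_le (by norm_num) hS.h1
  have hl : (0 : ℝ) < Real.log p.N := lt_of_lt_of_le (by norm_num) hS.l1
  have hM2 : (0 : ℝ) ≤ p.M2 := hN.le.trans hS.M21
  have hK : (0 : ℝ) ≤ p.K / nm y := (Real.rpow_nonneg hN.le _).trans hS.K1
  obtain ⟨B0, hB0⟩ : ∃ B0, B0 = 8 * C1 * e * (VS b (PS p.w) * (p.K / nm y) * p.M2 /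
        (p.h ^ 2 * Real.log p.N ^ 2 * VP p.w * p.N)) := ⟨_, rfl⟩
  have hB00 : 0 ≤ B0 := by rw [hB0]; positivity
  have hone : ∀ π ∈ GP p.P (2 * p.P), ∀ u ∈ I1 p y, ∀ v ∈ I2 p,
      ‖∑ z₁ ∈ (GP (p.K / nm y) (2 * (p.K / nm y))).filter
        (fun z => ⌊p.h * Real.log (nm z)⌋₊ = u), ∑ z ∈ LC p (y * z₁ * π) b v,
        ((ro p.w z - lam p.w m c z : ℝ) : ℂ) * ∑ i ∈ U, cc p i v * conj (psi i z)‖ ≤ B0 := by
    intro π hπ u hu v hv
    have h1 := hSER π hπ u hu v hv (fun i => cc p i v)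
    refine le_trans h1 ?_
    have hr1 := (hS.ra π hπ u hu v hv).1
    generalize rad p y π (u + v) = r at *
    have hr0 : 0 < r := lt_of_lt_of_le (by positivity) hr1
    have h2 : Real.sqrt (∑ i ∈ U, ‖cc p i v‖ ^ 2) ≤
        C1 * p.M2 / (Real.log p.N * (Real.exp ((v : ℝ) / p.h) * VP p.w)) := by
      rw [← Real.sqrt_sq (show (0 : ℝ) ≤
        C1 * p.M2 / (Real.log p.N * (Real.exp ((v : ℝ) / p.h) * VP p.w)) by positivity)]
      exact Real.sqrt_le_sqrt (hB v hv)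
    have h3 : 1 / r ≤ 8 / p.N := by
      rw [div_le_div_iff₀ hr0 hN]
      linarith
    have hE0 : 0 < Real.exp ((v : ℝ) / p.h) := Real.exp_pos _
    calc e * VS b (PS p.w) * (Real.exp ((v : ℝ) / p.h) / (p.h * r)) *
          ((p.K / nm y) / (p.h * Real.log p.N)) * Real.sqrt (∑ i ∈ U, ‖cc p i v‖ ^ 2)
        ≤ e * VS b (PS p.w) * (Real.exp ((v : ℝ) / p.h) / (p.h * r)) *
          ((p.K / nm y) / (p.h * Real.log p.N)) *
          (C1 * p.M2 / (Real.log p.N * (Real.exp ((v : ℝ) / p.h) * VP p.w))) :=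
          mul_le_mul_of_nonneg_left h2 (by positivity)
      _ = (C1 * e * (VS b (PS p.w) * (p.K / nm y) * p.M2 /
          (p.h ^ 2 * Real.log p.N ^ 2 * VP p.w))) * (1 / r) := by
          field_simp
      _ ≤ (C1 * e * (VS b (PS p.w) * (p.K / nm y) * p.M2 /
          (p.h ^ 2 * Real.log p.N ^ 2 * VP p.w))) * (8 / p.N) :=
          mul_le_mul_of_nonneg_left h3 (by positivity)
      _ = B0 := by
          rw [hB0]
          field_simp
  have hre : ∀ π ∈ GP p.P (2 * p.P), ‖∑ z₁ ∈ GP (p.K / nm y) (2 * (p.K / nm y)), ∑ v ∈ I2 p,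
      ∑ z ∈ LC p (y * z₁ * π) b v,
        ((ro p.w z - lam p.w m c z : ℝ) : ℂ) * ∑ i ∈ U, cc p i v * conj (psi i z)‖ ≤
      p.h * (p.h * B0) := by
    intro π hπ
    rw [← Finset.sum_fiberwise_of_maps_to (s := GP (p.K / nm y) (2 * (p.K / nm y)))
      (t := I1 p y) (g := fun z => ⌊p.h * Real.log (nm z)⌋₊) (fun z hz => (hS.ce z hz).1)]
    have h1 : ∀ u ∈ I1 p y, ‖∑ z₁ ∈ (GP (p.K / nm y) (2 * (p.K / nm y))).filter
        (fun z => ⌊p.h * Real.log (nm z)⌋₊ = u), ∑ v ∈ I2 p, ∑ z ∈ LC p (y * z₁ * π) b v,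
        ((ro p.w z - lam p.w m c z : ℝ) : ℂ) * ∑ i ∈ U, cc p i v * conj (psi i z)‖ ≤
        p.h * B0 := by
      intro u hu
      rw [Finset.sum_comm]
      refine (norm_sum_le _ _).trans ((Finset.sum_le_sum fun v hv => hone π hπ u hu v hv).trans ?_)
      rw [Finset.sum_const, nsmul_eq_mul]
      exact mul_le_mul_of_nonneg_right hS.c2 hB00
    refine (norm_sum_le _ _).trans ((Finset.sum_le_sum h1).trans ?_)
    rw [Finset.sum_const, nsmul_eq_mul]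
    exact mul_le_mul_of_nonneg_right hS.c1 (by positivity)
  refine (norm_sum_le _ _).trans ((Finset.sum_le_sum hre).trans ?_)
  rw [Finset.sum_const, nsmul_eq_mul]
  refine le_of_eq ?_
  rw [hB0]
  unfold XX Z0
  field_simp

/-- the reduction in one context -/
lemma core (p : Par) (m : ℕ) (c : ℕ → ℝ) (U : Finset Ix) (b : ℕ) (y : Gi) (hS : Siz p U b y)
    (A C1 C3 d dr : ℝ) (hA : 0 ≤ A)
    (hC1 : 0 ≤ C1) (hC3 : 0 ≤ C3) (hd : 0 ≤ d) (hdr : 0 ≤ dr) (hdr2 : dr ≤ 1 / 2)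
    (h1 : ix1 ∈ U)
    (hU : ∀ i ∈ U, ChiG (i.1 : Gi) i.2.1) (hchi : ∀ i ∈ U, ∀ v, ‖i.2.1 v‖ ≤ 1)
    (hAV : ∀ i ∈ U, ‖AV p m c U b i ix1‖ ≤ A * VS b (PS p.w))
    (hVP : 0 < VP p.w)
    (hLIN : ∀ i ∈ U, ∀ π ∈ GP p.P (2 * p.P),
      ∀ z ∈ GP (p.K / nm y) (2 * (p.K / nm y)), ∀ v ∈ I2 p,
      (U.card : ℝ) ^ 2 * ‖PL p m c i ix1 (y * z * π) b v -
      ((rad p y π (⌊p.h * Real.log (nm z)⌋₊ + v) / (2 * p.h * nm (y * z * π)) : ℝ) : ℂ) *
        (psi i (y * z * π) * conj (psi ix1 (y * z * π))) * AV p m c U b i ix1 *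
        Complex.exp (-(Complex.I * ((i.2.2 : ℂ) - ix1.2.2) * b /
          (rad p y π (⌊p.h * Real.log (nm z)⌋₊ + v) : ℝ)))‖ ≤
      d * (rad p y π (⌊p.h * Real.log (nm z)⌋₊ + v) / (p.h * nm (y * z * π))) * VS b (PS p.w))
    (hB : ∀ v ∈ I2 p, ∑ i ∈ U, ‖cc p i v‖ ^ 2 ≤
      (C1 * p.M2 / (Real.log p.N * (Real.exp ((v : ℝ) / p.h) * VP p.w))) ^ 2)
    (hD : ∀ v : ℕ, ∑ i ∈ U, ‖S2 p i v‖ ^ 2 ≤ (C3 * p.M2 / (p.h * Real.log p.N)) ^ 2)
    (hR : ∀ v ∈ I2 p, |RR p v * p.h /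
      (Real.pi * Real.exp ((v : ℝ) / p.h) * VP p.w) - 1| ≤ dr)
    (hC : ∀ u : ℕ, ((cell p.h (p.K / nm y) (2 * (p.K / nm y)) u).card : ℝ) ≤
      C3 * (p.K / nm y) / (p.h * Real.log p.N)) :
    ‖(∑ π ∈ GP p.P (2 * p.P), ∑ z ∈ GP (p.K / nm y) (2 * (p.K / nm y)),
      ∑ v ∈ I2 p, ∑ i ∈ U, cc p i v * PL p m c i ix1 (y * z * π) b v) -
      ((1 / (2 * Real.pi * VP p.w) : ℝ) : ℂ) *
      ∑ π ∈ GP p.P (2 * p.P), ∑ i ∈ U, psi i y * psi i π *
        (AV p m c U b i ix1 * TT p y π b i)‖ ≤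
    8 * C3 * (C1 * d + C3 * A * (U.card * (dr + 1 / p.h))) * XX p y b := by
  have hVS : 0 ≤ VS b (PS p.w) := VS_nonneg _ _
  have hN : (0 : ℝ) < p.N := lt_of_lt_of_le (by norm_num) hS.N1
  have hh : (0 : ℝ) < p.h := lt_of_lt_of_le (by norm_num) hS.h1
  have hl : (0 : ℝ) < Real.log p.N := lt_of_lt_of_le (by norm_num) hS.l1
  have hM2 : (0 : ℝ) ≤ p.M2 := hN.le.trans hS.M21
  have hK : (0 : ℝ) ≤ p.K / nm y := (Real.rpow_nonneg hN.le _).trans hS.K1
  obtain ⟨B0, hB0⟩ : ∃ B0, B0 = 8 * (C1 * d + C3 * A * (U.card * (dr + 1 / p.h))) *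
      (VS b (PS p.w) * p.M2 / (p.h * Real.log p.N * VP p.w * p.N)) := ⟨_, rfl⟩
  have hB00 : 0 ≤ B0 := by rw [hB0]; positivity
  rw [expand p m c U b y hS]
  simp only [← Finset.sum_sub_distrib]
  have hsum : ‖∑ π ∈ GP p.P (2 * p.P), ∑ z ∈ GP (p.K / nm y) (2 * (p.K / nm y)),
      ∑ v ∈ I2 p, ∑ i ∈ U, (cc p i v * PL p m c i ix1 (y * z * π) b v -
        TM p m c U y b π z v i)‖ ≤
      ∑ _π ∈ GP p.P (2 * p.P), ∑ _z ∈ GP (p.K / nm y) (2 * (p.K / nm y)),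
      ∑ _v ∈ I2 p, B0 := by
    refine (norm_sum_le _ _).trans (Finset.sum_le_sum fun π hπ => ?_)
    refine (norm_sum_le _ _).trans (Finset.sum_le_sum fun z hz => ?_)
    refine (norm_sum_le _ _).trans (Finset.sum_le_sum fun v hv => ?_)
    refine (norm_sum_le _ _).trans ?_
    rw [hB0]
    exact one_term p m c U b y hS A C1 C3 d dr hA hC1 hC3 hd hdr hdr2 h1 hU hchi hAV hVP π z v
      hπ hz hv (fun i hi => hLIN i hi π hπ z hz v hv) (hB v hv) (hD v) (hR v hv)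
  refine hsum.trans ?_
  simp only [Finset.sum_const, nsmul_eq_mul]
  have hz := card_Z p U b y hS C3 hC3 hC
  calc ((GP p.P (2 * p.P)).card : ℝ) * (((GP (p.K / nm y) (2 * (p.K / nm y))).card : ℝ) *
        (((I2 p).card : ℝ) * B0))
      ≤ ((GP p.P (2 * p.P)).card : ℝ) * ((C3 * (p.K / nm y) / Real.log p.N) *
        (p.h * B0)) := by
        refine mul_le_mul_of_nonneg_left ?_ (by positivity)
        refine mul_le_mul hz ?_ (by positivity) (by positivity)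
        exact mul_le_mul_of_nonneg_right hS.c2 hB00
    _ = 8 * C3 * (C1 * d + C3 * A * (U.card * (dr + 1 / p.h))) * XX p y b := by
        rw [hB0]
        unfold XX Z0
        field_simp

/-- the splitting `ro = lam + (ro - lam)` -/
lemma split (p : Par) (m : ℕ) (c : ℕ → ℝ) (U : Finset Ix) (b : ℕ) (y : Gi)
    (hEXC : sy p y b (Kap p U) = ∑ π ∈ GP p.P (2 * p.P),
      ∑ z₁ ∈ GP (p.K / nm y) (2 * (p.K / nm y)),
      ∑ v ∈ I2 p, ∑ z ∈ LC p (y * z₁ * π) b v,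
        (ro p.w z : ℂ) * ∑ i ∈ U, cc p i v * conj (psi i z)) :
    sy p y b (Kap p U) = (∑ π ∈ GP p.P (2 * p.P), ∑ z₁ ∈ GP (p.K / nm y) (2 * (p.K / nm y)),
      ∑ v ∈ I2 p, ∑ z ∈ LC p (y * z₁ * π) b v,
        ((ro p.w z - lam p.w m c z : ℝ) : ℂ) * ∑ i ∈ U, cc p i v * conj (psi i z)) +
      ∑ π ∈ GP p.P (2 * p.P), ∑ z ∈ GP (p.K / nm y) (2 * (p.K / nm y)),
      ∑ v ∈ I2 p, ∑ i ∈ U, cc p i v * PL p m c i ix1 (y * z * π) b v := by
  rw [hEXC]
  simp only [← Finset.sum_add_distrib]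
  refine Finset.sum_congr rfl fun π _ => Finset.sum_congr rfl fun z₁ _ =>
    Finset.sum_congr rfl fun v _ => ?_
  have h1 : ∑ i ∈ U, cc p i v * PL p m c i ix1 (y * z₁ * π) b v =
      ∑ z ∈ LC p (y * z₁ * π) b v, (lam p.w m c z : ℂ) * ∑ i ∈ U, cc p i v * conj (psi i z) := by
    unfold PL
    simp only [Finset.mul_sum]
    rw [Finset.sum_comm]
    refine Finset.sum_congr rfl fun z _ => Finset.sum_congr rfl fun i _ => ?_
    rw [psi_ix1]
    ring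
  rw [h1, ← Finset.sum_add_distrib]
  refine Finset.sum_congr rfl fun z _ => ?_
  push_cast
  ring

end REDM

open REDM in
theorem specRED (hEXC : SpecEXC) (hSER : SpecSER) (hLPM : SpecLPM) (hAVB : SpecAVB)
    (hCCB : SpecCCB) (hRRA : SpecRRA) (hSIZ : SpecSIZ) (hCE3 : SpecCE3) (hFRU : SpecFRU)
    (hCHB : XL.SpecCHB) : SpecRED := by
  intro C δ hC hδ
  obtain ⟨C1, hC1, hCC⟩ := hCCB
  obtain ⟨C3, hC3, hCE⟩ := hCE3
  obtain ⟨D, hD⟩ : ∃ D, D = 8 * C1 + 8 * C3 * C1 + 40 * C3 ^ 2 * (1 + C) := ⟨_, rfl⟩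
  have hD0 : 0 < D := by rw [hD]; positivity
  obtain ⟨e, he⟩ : ∃ e, e = δ / D := ⟨_, rfl⟩
  have he0 : 0 < e := by rw [he]; positivity
  have he2 : D * e = δ := by rw [he]; field_simp
  obtain ⟨m₀, hm₀⟩ := hSER C e hC he0
  refine ⟨m₀, fun m hm => ?_⟩
  have hall := ((((((((hm₀ m hm).and (hLPM 1 e m zero_le_one he0)).and (hAVB C m)).and hCC).and
    hRRA).and hSIZ).and hCE).and (hFRU 0 e he0)).and EV.uok
  refine hall.mono ?_
  rintro p B U b y ⟨⟨⟨⟨⟨⟨⟨⟨kSER, kLPM⟩, kAVB⟩, kCC⟩, kRR⟩, kS⟩, kCE⟩, kF⟩, kU⟩ c d hW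
  have hh : (0 : ℝ) < p.h := lt_of_lt_of_le (by norm_num) kS.h1
  have hVS : 0 ≤ VS b (PS p.w) := VS_nonneg _ _
  have hVP := kRR.1
  have hXX : 0 ≤ XX p y b := by
    have hN : (0 : ℝ) < p.N := lt_of_lt_of_le (by norm_num) kS.N1
    have hl : (0 : ℝ) < Real.log p.N := lt_of_lt_of_le (by norm_num) kS.l1
    have hM2 : (0 : ℝ) ≤ p.M2 := hN.le.trans kS.M21
    have hK : (0 : ℝ) ≤ p.K / nm y := (Real.rpow_nonneg hN.le _).trans kS.K1
    unfold XX Z0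
    positivity
  have hAV : ∀ i ∈ U, ‖AV p m c U b i ix1‖ ≤ (1 + C) * VS b (PS p.w) := by
    intro i hi
    refine ((kAVB c d hW).1 i hi).trans ?_
    refine mul_le_mul_of_nonneg_right ?_ hVS
    have h1 : Real.exp (-(m : ℝ)) ≤ 1 := by
      rw [Real.exp_le_one_iff]
      have : (0 : ℝ) ≤ m := Nat.cast_nonneg m
      linarith
    nlinarith
  have hdr : 4 / p.h ≤ 1 / 2 := by
    rw [div_le_iff₀ hh]
    have := kS.h1
    linarith
  have hLIN : ∀ i ∈ U, ∀ π ∈ GP p.P (2 * p.P),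
      ∀ z ∈ GP (p.K / nm y) (2 * (p.K / nm y)), ∀ v ∈ I2 p,
      (U.card : ℝ) ^ 2 * ‖PL p m c i ix1 (y * z * π) b v -
      ((rad p y π (⌊p.h * Real.log (nm z)⌋₊ + v) / (2 * p.h * nm (y * z * π)) : ℝ) : ℂ) *
        (psi i (y * z * π) * conj (psi ix1 (y * z * π))) * AV p m c U b i ix1 *
        Complex.exp (-(Complex.I * ((i.2.2 : ℂ) - ix1.2.2) * b /
          (rad p y π (⌊p.h * Real.log (nm z)⌋₊ + v) : ℝ)))‖ ≤
      e * (rad p y π (⌊p.h * Real.log (nm z)⌋₊ + v) / (p.h * nm (y * z * π))) * VS b (PS p.w) := by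
    intro i hi π hπ z hz v hv
    exact kLPM c (fun x => by rw [one_mul]; exact hW.bc x) i hi ix1 kU.1 π hπ z hz v hv
  have hs := sieve p m c U b y kS C1 e hC1.le he0.le hVP kCC (kSER c d hW)
  have hc := core p m c U b y kS (1 + C) C1 C3 e (4 / p.h) (by linarith) hC1.le hC3.le he0.le
    (by positivity) hdr kU.1 (fun i hi => (kU.2 i hi).2.1)
    (fun i hi => (hCHB i.1 i.2.1 (kU.2 i hi).1 (kU.2 i hi).2.1).2.2)
    hAV hVP hLIN kCC kCE.2.1 kRR.2.2 kCE.2.2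
  rw [split p m c U b y (hEXC p U b y), add_sub_assoc]
  refine (norm_add_le _ _).trans ((add_le_add hs hc).trans ?_)
  have hn1 : (1 : ℝ) ≤ (U.card : ℝ) := by
    have : 1 ≤ U.card := Finset.card_pos.2 ⟨ix1, kU.1⟩
    exact_mod_cast this
  have hnh : (U.card : ℝ) * (1 / p.h) ≤ e := by
    have h1 := kF ix1 kU.1
    have h2 : (0 : ℝ) ≤ |(ix1.2.2 : ℝ)| * (b / (p.h * p.N) + ((b : ℝ) / p.N) ^ 3) := by
      simp [X.ix1]
    rw [pow_zero, mul_one] at h1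
    have h3 : (U.card : ℝ) ^ 2 * (1 / p.h) ≤ e * VS b (PS p.w) := by
      refine le_trans ?_ h1
      refine mul_le_mul_of_nonneg_left ?_ (by positivity)
      linarith
    have h4 : e * VS b (PS p.w) ≤ e := by
      have := VS_le_one b (PS p.w)
      nlinarith
    have h5 : (U.card : ℝ) * (1 / p.h) ≤ (U.card : ℝ) ^ 2 * (1 / p.h) := by
      refine mul_le_mul_of_nonneg_right ?_ (by positivity)
      nlinarith
    linarith
  have h5 : (U.card : ℝ) * (4 / p.h + 1 / p.h) ≤ 5 * e := by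
    have : (U.card : ℝ) * (4 / p.h + 1 / p.h) = 5 * ((U.card : ℝ) * (1 / p.h)) := by
      ring
    rw [this]
    linarith
  have h6 : C1 * e + C3 * (1 + C) * ((U.card : ℝ) * (4 / p.h + 1 / p.h)) ≤
      C1 * e + C3 * (1 + C) * (5 * e) := by
    have : 0 ≤ C3 * (1 + C) := by positivity
    have := mul_le_mul_of_nonneg_left h5 this
    linarith
  have h7 : 8 * C3 * (C1 * e + C3 * (1 + C) * ((U.card : ℝ) * (4 / p.h + 1 / p.h))) ≤
      8 * C3 * (C1 * e + C3 * (1 + C) * (5 * e)) :=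
    mul_le_mul_of_nonneg_left h6 (by positivity)
  calc 8 * C1 * e * XX p y b + 8 * C3 * (C1 * e + C3 * (1 + C) *
        ((U.card : ℝ) * (4 / p.h + 1 / p.h))) * XX p y b
      ≤ 8 * C1 * e * XX p y b + 8 * C3 * (C1 * e + C3 * (1 + C) * (5 * e)) * XX p y b := by
        have := mul_le_mul_of_nonneg_right h7 hXX
        linarith
    _ = D * e * XX p y b := by rw [hD]; ring
    _ = δ * XX p y b := by rw [he2]

end Pool.Agent.Lib.MP391708.X3M
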