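import Pool.Agent.Lib.MP_391708_nt.X3.SpecMT
import Pool.Agent.Lib.MP_391708_nt.X.MT.RRA

/-!
# THEOREM X3 (MP_391708), part MT, module RRA: the number of rough elements of a lattice cell
-/

set_option autoImplicit false

namespace Pool.Agent.Lib.MP391708.X3M

open Finset Filter Topology Pool.Agent.Lib.MP391708.MR
open Pool.Agent.Lib.MP391708.X (ChiG hk Dist Fam rgh VP Ix psi ix1 UOK lc On)
open Pool.Agent.Lib.MP391708.X3

theorem specRRA (hR : X.SpecRG0) (hS : SpecSIZ) : SpecRRA := by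
  intro cw aU aQ aF h0 h1 h2 h3 h4
  have hcw : 0 < cw := by linarith
  obtain ⟨ch0, δ0, hδ0, hch0⟩ := hS cw aU aQ aF h0 h1 h2 h3 h4
  obtain ⟨c, hc0, hc1, hmain⟩ := X.RRAM.main hR cw hcw
  refine ⟨max ch0 1, δ0, hδ0, fun ch hch δ1 hδ1 hδ2 => ?_⟩
  have hch1 : 1 ≤ ch := (le_max_right _ _).trans hch
  obtain ⟨cP0, hcP0⟩ := hch0 ch ((le_max_left _ _).trans hch) δ1 hδ1 hδ2
  refine ⟨cP0, fun cP hcP => ?_⟩
  obtain ⟨cT0, hcT0⟩ := hcP0 cP hcP
  refine ⟨cT0, fun cT hcT => ?_⟩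
  obtain ⟨cB0, hcB0⟩ := hcT0 cT hcT
  refine ⟨cB0, fun cB hcB => ?_⟩
  have hL : Tendsto Real.log atTop atTop := Real.tendsto_log_atTop
  have ev1 := hL.eventually_ge_atTop 1
  have ev2 := (isLittleO_log_rpow_rpow_atTop (ch + ch + 72 * cw)
    (show (0 : ℝ) < 1 / 3 * c by positivity)).bound (Real.exp_pos (-54))
  have ev3 : ∀ᶠ N : ℝ in atTop, N ^ (1 / 3 : ℝ) ≤ N / 20 := by
    have h5 := (tendsto_rpow_atTop (show (0 : ℝ) < 2 / 3 by norm_num)).eventually_ge_atTop (20 : ℝ)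
    filter_upwards [h5, eventually_gt_atTop (0 : ℝ)] with N h6 h7
    have h8 : N = N ^ (1 / 3 : ℝ) * N ^ (2 / 3 : ℝ) := by
      rw [← Real.rpow_add h7]
      norm_num
    have h9 : 0 < N ^ (1 / 3 : ℝ) := by positivity
    rw [le_div_iff₀ (by norm_num)]
    calc N ^ (1 / 3 : ℝ) * 20 ≤ N ^ (1 / 3 : ℝ) * N ^ (2 / 3 : ℝ) :=
          mul_le_mul_of_nonneg_left h6 h9.le
      _ = N := h8.symm
  filter_upwards [hcB0 cB hcB, hmain 0 0 ch hch1, ev1, ev2, ev3, eventually_gt_atTop (1 : ℝ)] with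
    N hN hm hL1 g2 g3 g4 T P B U b y hc
  have hs : Siz (par N T P ch cw) U b y := hN T P B U b y hc
  have hL0 : 0 < Real.log N := by linarith
  have hw1 : 1 ≤ Real.log N ^ cw := Real.one_le_rpow hL1 hcw.le
  have hV := XM.RRAM.VP_ge hw1
  have hV0 : 0 < VP (Real.log N ^ cw) := lt_of_lt_of_le (by positivity) hV
  have hh1 : 1 ≤ Real.log N ^ ch := Real.one_le_rpow hL1 (by linarith)
  refine ⟨hV0, X.RRAM.VP_le_one _, fun v hv => ?_⟩
  have hjj : N / 20 ≤ Real.exp ((v : ℝ) / Real.log N ^ ch) := (hs.jj v hv).1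
  have hEN : N ^ (1 / 3 : ℝ) ≤ Real.exp ((v : ℝ) / Real.log N ^ ch) := g3.trans hjj
  have hm1 := hm v hEN
  set E : ℝ := Real.exp ((v : ℝ) / Real.log N ^ ch) with hE
  have hE0 : 0 < E := Real.exp_pos _
  have hx : Real.exp (((v : ℝ) + 1) / Real.log N ^ ch) = E * Real.exp (1 / Real.log N ^ ch) := by
    rw [hE, ← Real.exp_add]
    congr 1
    ring
  rw [hx] at hm1
  have hN0 : 0 < N := by linarith
  rw [Real.norm_of_nonneg (by positivity), Real.norm_of_nonneg (by positivity)] at g2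
  have hh0 : 0 < Real.log N ^ ch := by linarith
  suffices key : |RR (par N T P ch cw) v * (Real.log N ^ ch) /
      (Real.pi * E * VP (Real.log N ^ cw)) - 1| ≤ 4 / Real.log N ^ ch from key
  refine XM.RRAM.core (h := Real.log N ^ ch) (c := c) hV0 hE0 hh1 hm1 ?_ ?_
  · have : (4 : ℝ) / Real.log N ^ ch / 2 = 2 / Real.log N ^ ch := by ring
    rw [this]
    exact div_le_div_of_nonneg_right (by norm_num) hh0.le
  · have h5 : N ^ (1 / 3 * c) ≤ E ^ c := by
      rw [Real.rpow_mul hN0.le]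
      exact Real.rpow_le_rpow (by positivity) hEN hc0.le
    have h6 : Real.log N ^ ch / VP (Real.log N ^ cw) ≤
        Real.log N ^ ch / (Real.exp (-54) * (Real.log N ^ cw) ^ (-72 : ℝ)) :=
      div_le_div_of_nonneg_left (by positivity) (by positivity) hV
    refine h6.trans ?_
    have h7 : (Real.log N ^ cw) ^ (-72 : ℝ) = (Real.log N ^ (72 * cw))⁻¹ := by
      rw [← Real.rpow_mul hL0.le, ← Real.rpow_neg hL0.le]
      congr 1
      ring
    rw [h7]
    have h8 : Real.log N ^ ch / (Real.exp (-54) * (Real.log N ^ (72 * cw))⁻¹) =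
        Real.log N ^ (ch + ch + 72 * cw) / Real.exp (-54) / Real.log N ^ ch := by
      rw [Real.rpow_add hL0, Real.rpow_add hL0]
      have : 0 < Real.log N ^ (72 * cw) := by positivity
      field_simp
    rw [h8]
    have h9 : (4 : ℝ) / Real.log N ^ ch / 2 * E ^ c = 2 * E ^ c / Real.log N ^ ch := by ring
    rw [h9]
    apply div_le_div_of_nonneg_right _ hh0.le
    rw [div_le_iff₀ (Real.exp_pos _)]
    have h10 : 0 < Real.exp (-54) := Real.exp_pos _
    have h11 : 0 ≤ N ^ (1 / 3 * c) := Real.rpow_nonneg hN0.le _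
    calc Real.log N ^ (ch + ch + 72 * cw) ≤ Real.exp (-54) * N ^ (1 / 3 * c) := g2
      _ ≤ Real.exp (-54) * E ^ c := mul_le_mul_of_nonneg_left h5 h10.le
      _ ≤ 2 * E ^ c * Real.exp (-54) := by nlinarith [mul_nonneg h10.le (h11.trans h5)]

end Pool.Agent.Lib.MP391708.X3M
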