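import Pool.Agent.Lib.MP_391708_nt.X3.SpecMT

/-!
# THEOREM X3 (MP_391708), part MT, module SER: the sieve error
-/

set_option autoImplicit false

namespace Pool.Agent.Lib.MP391708.X3M

open Finset Filter Topology Pool.Agent.Lib.MP391708.MR
open Pool.Agent.Lib.MP391708.X (ChiG hk Dist Fam rgh VP Ix psi ix1 UOK lc On)
open Pool.Agent.Lib.MP391708.X3
open Pool.Agent.Lib.MP391708.XL (gb VS PS pt LN)
open Pool.Agent.Lib.MP391708.QPA (PB)
open Pool.Agent.Lib.MP391708.QPA.FLW (Dset)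
open scoped ComplexConjugate

namespace SERM

lemma evw : EV (fun p _ _ _ _ => 1 ≤ p.w) := by
  intro cw aU aQ aF h0 _ _ _ _
  refine ⟨0, 1, one_pos, fun ch _ δ _ _ => ⟨0, fun cP _ => ⟨0, fun cT _ => ⟨0, fun cB _ => ?_⟩⟩⟩⟩
  filter_upwards [Real.tendsto_log_atTop.eventually_ge_atTop 1] with N hN T P B U b y _
  exact Real.one_le_rpow hN (by linarith)

/-- weighted Cauchy–Schwarz with two upper bounds -/
lemma wcs {ι : Type*} (s : Finset ι) (w x : ι → ℝ) (hw : ∀ i ∈ s, 0 ≤ w i) {Q S : ℝ} (hS : 0 ≤ S)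
    (h0 : ∑ i ∈ s, w i ≤ Q) (h2 : ∑ i ∈ s, w i * x i ^ 2 ≤ Q * S) :
    ∑ i ∈ s, w i * x i ≤ Q * Real.sqrt S := by
  have hQ : 0 ≤ Q := (sum_nonneg hw).trans h0
  have h1 := Finset.sum_mul_sq_le_sq_mul_sq s (fun i => Real.sqrt (w i)) (fun i => Real.sqrt (w i) * x i)
  have e1 : ∑ i ∈ s, Real.sqrt (w i) * (Real.sqrt (w i) * x i) = ∑ i ∈ s, w i * x i :=
    sum_congr rfl fun i hi => by rw [← mul_assoc, Real.mul_self_sqrt (hw i hi)]
  have e2 : ∑ i ∈ s, Real.sqrt (w i) ^ 2 = ∑ i ∈ s, w i :=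
    sum_congr rfl fun i hi => Real.sq_sqrt (hw i hi)
  have e3 : ∑ i ∈ s, (Real.sqrt (w i) * x i) ^ 2 = ∑ i ∈ s, w i * x i ^ 2 :=
    sum_congr rfl fun i hi => by rw [mul_pow, Real.sq_sqrt (hw i hi)]
  rw [e1, e2, e3] at h1
  have h3 : (∑ i ∈ s, w i) * ∑ i ∈ s, w i * x i ^ 2 ≤ Q * (Q * S) :=
    mul_le_mul h0 h2 (sum_nonneg fun i hi => mul_nonneg (hw i hi) (sq_nonneg _)) hQ
  have h4 : (∑ i ∈ s, w i * x i) ^ 2 ≤ (Q * Real.sqrt S) ^ 2 := by
    rw [mul_pow, Real.sq_sqrt hS]; nlinarith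
  exact (abs_le_of_sq_le_sq' h4 (mul_nonneg hQ (Real.sqrt_nonneg _))).2

lemma ne0 {p : Par} {ω : Gi} {b v : ℕ} {z : Gi} (hz : z ∈ LC p ω b v) : z ≠ 0 := by
  classical
  unfold LC at hz
  have h := (mem_filter.mp hz).1
  unfold disc at h
  exact (mem_filter.mp h).2.1

lemma psi1 (z : Gi) : psi ix1 z = 1 := by
  simp [psi, ix1, hk, xi]

end SERM

theorem specSER (hSQE : SpecSQE) (hLAM : SpecLAM) : SpecSER := by
  classical
  intro C δ hC hδ
  obtain ⟨m₀, hm₀⟩ := hSQE C δ hC hδ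
  refine ⟨m₀, fun m hm => ?_⟩
  refine EV.mono (((hm₀ m hm).and EV.uok).and SERM.evw) ?_
  rintro p B U b y ⟨⟨h1, h2⟩, hw⟩ c d hW π hπ u hu v hv a
  have hla := fun z hz => hLAM C p.w m c d hw hW z hz
  have k1 := h1 c d hW π hπ u hu v hv a
  have k0 := h1 c d hW π hπ u hu v hv (fun i => if i = ix1 then 1 else 0)
  have e0 : ∀ z : Gi, ∑ i ∈ U, (if i = ix1 then (1 : ℂ) else 0) * conj (psi i z) = 1 := by
    intro z
    rw [Finset.sum_eq_single_of_mem ix1 h2.1]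
    · simp [SERM.psi1]
    · intro i _ hi
      simp [hi]
  have e1 : ∑ i ∈ U, ‖(if i = ix1 then (1 : ℂ) else 0)‖ ^ 2 = 1 := by
    rw [Finset.sum_eq_single_of_mem ix1 h2.1]
    · simp
    · intro i _ hi
      simp [hi]
  simp only [e0, e1, norm_one, one_pow, mul_one] at k0
  rw [Finset.sum_sigma'] at k0 k1 ⊢
  have hn : ∀ x ∈ (cell p.h (p.K / nm y) (2 * (p.K / nm y)) u).sigma (fun z₁ => LC p (y * z₁ * π) b v),
      0 ≤ lam p.w m d x.2 := by
    intro x hx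
    have hz := SERM.ne0 (mem_sigma.mp hx).2
    linarith [(hla x.2 hz).1, (hla x.2 hz).2]
  refine le_trans (norm_sum_le _ _) ?_
  refine le_trans (Finset.sum_le_sum (g := fun x => lam p.w m d x.2 * ‖∑ i ∈ U, a i * conj (psi i x.2)‖) ?_) ?_
  · intro x hx
    have hz := SERM.ne0 (mem_sigma.mp hx).2
    rw [norm_mul, Complex.norm_real, Real.norm_eq_abs]
    refine mul_le_mul_of_nonneg_right ?_ (norm_nonneg _)
    rw [abs_le]
    constructor
    · linarith [(hla x.2 hz).1, (hla x.2 hz).2]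
    · linarith [(hla x.2 hz).1, hn x hx]
  · exact SERM.wcs _ _ _ hn (sum_nonneg fun i _ => sq_nonneg _) k0 k1

end Pool.Agent.Lib.MP391708.X3M
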