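import Pool.Agent.Lib.MP_391708_nt.X3.SpecMT
import Pool.Agent.Lib.MP_391708_nt.X.MT.SIZ

/-!
# THEOREM X3 (MP_391708), part MT: SIZ, the sizes (after the module SIZ of X/MT by helper86 and of XP/MT)
-/

set_option autoImplicit false

namespace Pool.Agent.Lib.MP391708.X3M

open Finset Filter Topology Pool.Agent.Lib.MP391708.MR
open Pool.Agent.Lib.MP391708.X (ChiG hk Dist Fam rgh VP Ix psi ix1 UOK lc On)
open Pool.Agent.Lib.MP391708.X3
open Pool.Agent.Lib.MP391708.XL (VS PS)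
open Pool.Agent.Lib.MP391708.XM.SIZM (prim_mul prim_of_prime nm_eq_of_dvd coprime_of_rough vv_lo vv_hi vv_card
  exp_lo exp_hi ev_pow)
open scoped ComplexConjugate

namespace SIZM

/-! ## The outer point -/

section core

variable {p : Par} {U : Finset Ix} {b : ℕ} {y : Gi} {Q : ℝ}

/-- `om` -/
lemma om_core (hw : p.w ≤ p.P) (hQ : Q ≤ p.P) (hQ2 : Q ^ 2 ≤ p.w) (hQ0 : 0 ≤ Q) (hy : prim y)
    (hyP : (nm y : ℝ) ≤ p.P) (hK : 2 * p.P ≤ p.K / nm y)
    (hU : ∀ i ∈ U, 1 ≤ i.1 ∧ (i.1 : ℝ) ≤ Q)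
    (hr : ∀ π : Gi, Prime π → π ∣ y → p.w < (nm π : ℝ))
    {π z : Gi} (hπ : π ∈ GP p.P (2 * p.P)) (hz : z ∈ GP (p.K / nm y) (2 * (p.K / nm y))) :
    prim (y * z * π) ∧ rgh p.w (y * z * π) ∧ (∀ i ∈ U, Nat.Coprime (nm (y * z * π)) i.1) ∧
    (nm (y * z * π) : ℝ) = nm y * nm z * nm π ∧ 0 < nm (y * z * π) ∧
    (nm (y * z * π) : ℝ) ≤ 4 * (p.K * p.P) := by
  obtain ⟨_, _, pπ, _, lπ, uπ⟩ := mem_GP.1 hπ
  obtain ⟨_, _, pz, _, lz, uz⟩ := mem_GP.1 hz
  have hy0 : y ≠ 0 := prim_ne_zero hy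
  have ny : 0 < nm y := nm_pos hy0
  have hP0 : 0 < p.P := lt_of_lt_of_le (by exact_mod_cast ny) hyP
  have e1 : nm (y * z * π) = nm y * nm z * nm π := by rw [nm_mul, nm_mul]
  have c1 : Nat.Coprime (nm y) (nm z) := by
    refine Nat.Coprime.symm ((Nat.Prime.coprime_iff_not_dvd pz).2 ?_)
    intro hd
    have h1 : (nm z : ℝ) ≤ nm y := by exact_mod_cast Nat.le_of_dvd ny hd
    linarith
  have c2 : Nat.Coprime (nm (y * z)) (nm π) := by
    rw [nm_mul]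
    refine Nat.Coprime.mul_left ?_ ?_
    · refine Nat.Coprime.symm ((Nat.Prime.coprime_iff_not_dvd pπ).2 ?_)
      intro hd
      have h1 : (nm π : ℝ) ≤ nm y := by exact_mod_cast Nat.le_of_dvd ny hd
      linarith
    · rw [Nat.coprime_primes pz pπ]
      intro he
      have h1 : (nm z : ℝ) = nm π := by exact_mod_cast he
      linarith
  refine ⟨prim_mul (prim_mul hy (prim_of_prime pz) c1) (prim_of_prime pπ) c2, ?_, ?_, ?_, ?_, ?_⟩
  · intro ρ hρ hd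
    rcases hρ.dvd_or_dvd hd with h1 | h1
    · rcases hρ.dvd_or_dvd h1 with h2 | h2
      · exact hr ρ hρ h2
      · rw [nm_eq_of_dvd hρ pz h2]; linarith
    · rw [nm_eq_of_dvd hρ pπ h1]; linarith
  · intro i hi
    obtain ⟨hi1, hiQ⟩ := hU i hi
    rw [e1]
    refine Nat.Coprime.mul_left (Nat.Coprime.mul_left ?_ ?_) ?_
    · exact coprime_of_rough hy0 hQ0 (fun ρ hρ hd => lt_of_le_of_lt hQ2 (hr ρ hρ hd)) hi1 hiQ
    · refine (Nat.Prime.coprime_iff_not_dvd pz).2 ?_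
      intro hd
      have h1 : (nm z : ℝ) ≤ i.1 := by exact_mod_cast Nat.le_of_dvd hi1 hd
      linarith
    · refine (Nat.Prime.coprime_iff_not_dvd pπ).2 ?_
      intro hd
      have h1 : (nm π : ℝ) ≤ i.1 := by exact_mod_cast Nat.le_of_dvd hi1 hd
      linarith
  · rw [e1]; push_cast; ring
  · rw [e1]
    have := pz.pos
    have := pπ.pos
    positivity
  · rw [e1]
    push_cast
    have hyR : (0 : ℝ) < nm y := by exact_mod_cast ny
    have hKy : p.K / nm y * nm y = p.K := by field_simp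
    have hπ0 : (0 : ℝ) ≤ nm π := Nat.cast_nonneg _
    have hK0 : 0 ≤ p.K / nm y := by linarith
    calc (nm y : ℝ) * nm z * nm π ≤ (nm y : ℝ) * (2 * (p.K / nm y)) * (2 * p.P) := by
          gcongr
      _ = 4 * ((p.K / nm y * nm y) * p.P) := by ring
      _ = 4 * (p.K * p.P) := by rw [hKy]

/-- `ce` -/
lemma ce_core (hh : 0 < p.h) (hK : 1 ≤ p.K / nm y) {z : Gi}
    (hz : z ∈ GP (p.K / nm y) (2 * (p.K / nm y))) : ⌊p.h * Real.log (nm z)⌋₊ ∈ I1 p y ∧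
    z ∈ cell p.h (p.K / nm y) (2 * (p.K / nm y)) ⌊p.h * Real.log (nm z)⌋₊ ∧
    Real.exp ((⌊p.h * Real.log (nm z)⌋₊ : ℝ) / p.h) ≤ nm z ∧
    (nm z : ℝ) ≤ Real.exp ((⌊p.h * Real.log (nm z)⌋₊ : ℝ) / p.h) * Real.exp (1 / p.h) := by
  obtain ⟨_, _, pz, _, lz, uz⟩ := mem_GP.1 hz
  have hz0 : (0 : ℝ) < nm z := by exact_mod_cast pz.pos
  have hz1 : (1 : ℝ) ≤ nm z := by linarith
  have hl0 : 0 ≤ p.h * Real.log (nm z) := mul_nonneg hh.le (Real.log_nonneg hz1)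
  refine ⟨?_, ?_, ?_, ?_⟩
  · unfold I1 VV
    rw [mem_Icc]
    constructor
    · refine Nat.floor_le_floor ?_
      exact mul_le_mul_of_nonneg_left (Real.log_le_log (by linarith) lz.le) hh.le
    · refine Nat.floor_le_floor ?_
      exact mul_le_mul_of_nonneg_left (Real.log_le_log hz0 uz) hh.le
  · unfold cell
    rw [mem_filter]
    exact ⟨hz, rfl⟩
  · have h1 : ((⌊p.h * Real.log (nm z)⌋₊ : ℝ)) / p.h ≤ Real.log (nm z) := by
      rw [div_le_iff₀ hh]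
      have := Nat.floor_le hl0
      linarith
    calc _ ≤ Real.exp (Real.log (nm z)) := Real.exp_le_exp.2 h1
      _ = nm z := Real.exp_log hz0
  · rw [← Real.exp_add, ← add_div]
    have h1 : Real.log (nm z) ≤ ((⌊p.h * Real.log (nm z)⌋₊ : ℝ) + 1) / p.h := by
      rw [le_div_iff₀ hh]
      have := Nat.lt_floor_add_one (p.h * Real.log (nm z))
      linarith
    calc (nm z : ℝ) = Real.exp (Real.log (nm z)) := (Real.exp_log hz0).symm
      _ ≤ _ := Real.exp_le_exp.2 h1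

/-- the product of the sizes -/
lemma prod_core (hT : 0 < p.T) (hP : 0 < p.P) : 8 * p.K * p.P * p.M2 = p.N ^ 2 := by
  unfold Par.K Par.M2
  field_simp

/-- `ra` -/
lemma ra_core (hh : 100 ≤ p.h) (hN : 0 < p.N) (hP : 0 < p.P) (hT : 0 < p.T) (hny : 0 < nm y)
    (hK : 1 ≤ p.K / nm y) (h2 : 1 ≤ p.M2) {π : Gi}
    (hπ : π ∈ GP p.P (2 * p.P)) {u v2 : ℕ} (hu : u ∈ I1 p y)
    (hv2 : v2 ∈ I2 p) :
    p.N / 8 ≤ rad p y π (u + v2) ∧ rad p y π (u + v2) ≤ 2 * p.N := by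
  obtain ⟨_, _, pπ, _, lπ, uπ⟩ := mem_GP.1 hπ
  have hh0 : 0 < p.h := by linarith
  have hnyR : (0 : ℝ) < nm y := by exact_mod_cast hny
  have hπR : (0 : ℝ) < nm π := by exact_mod_cast pπ.pos
  have lu := vv_lo hh0 hK hu
  have uu := vv_hi hh0 hK hu
  have l2 := vv_lo hh0 h2 hv2
  have u2 := vv_hi hh0 h2 hv2
  have he := exp_lo hh
  have hE1 : Real.exp (-(1 / p.h)) ≤ 1 := by
    rw [Real.exp_le_one_iff]
    have : 0 < 1 / p.h := by positivity
    linarith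
  set E : ℝ := Real.exp (-(1 / p.h)) with hE
  have hE0 : 0 < E := Real.exp_pos _
  have hexp : Real.exp (((u + v2 : ℕ) : ℝ) / p.h) =
      Real.exp ((u : ℝ) / p.h) * Real.exp ((v2 : ℝ) / p.h) := by
    rw [← Real.exp_add]
    congr 1
    push_cast
    ring
  have hprod := prod_core hT hP
  have hKy : p.K / nm y * nm y = p.K := by field_simp
  have hK0 : 0 < p.K / nm y := by linarith
  have h20 : 0 < p.M2 := by linarith
  have hE3 : 9 / 10 ≤ E ^ 2 := by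
    have : E ^ 3 ≤ E ^ 2 := pow_le_pow_of_le_one hE0.le hE1 (by norm_num)
    linarith
  -- lower bound
  have low : p.N ^ 2 / 8 * (9 / 10) ≤
      (nm y : ℝ) * nm π * Real.exp (((u + v2 : ℕ) : ℝ) / p.h) := by
    rw [hexp]
    have a1 : (p.K / nm y * E) * (p.M2 * E) ≤
        Real.exp ((u : ℝ) / p.h) * Real.exp ((v2 : ℝ) / p.h) := by
      gcongr
    have a2 : (nm y : ℝ) * p.P * ((p.K / nm y * E) * (p.M2 * E)) ≤
        (nm y : ℝ) * nm π * (Real.exp ((u : ℝ) / p.h) * Real.exp ((v2 : ℝ) / p.h)) := by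
      gcongr
    have a3 : (nm y : ℝ) * p.P * ((p.K / nm y * E) * (p.M2 * E)) =
        (p.N ^ 2 / 8) * E ^ 2 := by
      rw [← hprod]
      calc _ = (p.K / nm y * nm y) * p.P * p.M2 * E ^ 2 := by ring
        _ = _ := by rw [hKy]; ring
    have a4 : p.N ^ 2 / 8 * (9 / 10) ≤ p.N ^ 2 / 8 * E ^ 2 := by
      gcongr
    linarith
  have upp : (nm y : ℝ) * nm π * Real.exp (((u + v2 : ℕ) : ℝ) / p.h) ≤ p.N ^ 2 := by
    rw [hexp]
    have a2 : (nm y : ℝ) * nm π * (Real.exp ((u : ℝ) / p.h) * Real.exp ((v2 : ℝ) / p.h)) ≤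
        (nm y : ℝ) * (2 * p.P) * ((2 * (p.K / nm y)) * (2 * p.M2)) := by
      gcongr
    have a3 : (nm y : ℝ) * (2 * p.P) * ((2 * (p.K / nm y)) * (2 * p.M2)) = p.N ^ 2 := by
      rw [← hprod]
      calc _ = 8 * (p.K / nm y * nm y) * p.P * p.M2 := by ring
        _ = _ := by rw [hKy]
    linarith
  unfold rad
  constructor
  · refine Real.le_sqrt_of_sq_le ?_
    have h5 : 0 < p.N ^ 2 := by positivity
    nlinarith
  · refine Real.sqrt_le_iff.2 ⟨by linarith, ?_⟩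
    have h5 : 0 < p.N ^ 2 := by positivity
    nlinarith

/-- `jj` -/
lemma jj_core (hh : 100 ≤ p.h) (hN : 0 < p.N) (hM : p.N ≤ p.M2) (h2 : 1 ≤ p.M2)
    (hnT : 2 * p.M2 * Real.exp (2 / p.h) ≤ p.N * p.T) {v2 : ℕ}
    (hv2 : v2 ∈ I2 p) : p.N / 20 ≤ Real.exp ((v2 : ℝ) / p.h) ∧
    Real.exp (((v2 : ℝ) + 1) / p.h) ≤ p.N * p.T := by
  have hh0 : 0 < p.h := by linarith
  have l2 := vv_lo hh0 h2 hv2
  have u2 := vv_hi hh0 h2 hv2
  have he := exp_lo hh
  have h20 : 0 < p.M2 := by linarith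
  have hE1 : Real.exp (-(1 / p.h)) ≤ 1 := by
    rw [Real.exp_le_one_iff]
    have : 0 < 1 / p.h := by positivity
    linarith
  set E : ℝ := Real.exp (-(1 / p.h)) with hE
  have hE0 : 0 < E := Real.exp_pos _
  constructor
  · have a3 : 9 / 10 ≤ E := by
      have : E ^ 3 ≤ E ^ 1 := pow_le_pow_of_le_one hE0.le hE1 (by norm_num)
      rw [pow_one] at this
      linarith
    have a5 : p.N * (9 / 10) ≤ p.M2 * E := by gcongr
    linarith
  · have hexp2 : Real.exp (((v2 : ℝ) + 1) / p.h) =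
        Real.exp ((v2 : ℝ) / p.h) * Real.exp (1 / p.h) := by
      rw [← Real.exp_add]
      congr 1
      ring
    rw [hexp2]
    have a1 : Real.exp ((v2 : ℝ) / p.h) * Real.exp (1 / p.h) ≤
        (2 * p.M2) * Real.exp (2 / p.h) := by
      gcongr
      norm_num
    linarith

end core

/-- all fields, under explicit bounds -/
lemma core {p : Par} {U : Finset Ix} {b : ℕ} {y : Gi} {Q : ℝ} (N1 : 1000000 ≤ p.N)
    (l1 : 100 ≤ Real.log p.N) (h1 : 100 ≤ p.h) (h2 : p.h ^ 2 ≤ p.N / 10) (w1 : 1 ≤ p.w)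
    (P1 : 100 ≤ p.P) (T1 : 1000 * p.P ≤ p.T) (b1 : 1 ≤ b) (b2 : (b : ℝ) ^ 2 ≤ 8 * p.N)
    (hw : p.w ≤ p.P) (hQ : Q ≤ p.P) (hQ2 : Q ^ 2 ≤ p.w) (hQ0 : 0 ≤ Q) (hy : prim y)
    (hyP : (nm y : ℝ) ≤ p.P) (hU : ∀ i ∈ U, 1 ≤ i.1 ∧ (i.1 : ℝ) ≤ Q)
    (hr : ∀ π : Gi, Prime π → π ∣ y → p.w < (nm π : ℝ))
    (hTy : p.T * nm y ≤ p.N ^ (1 / 10 : ℝ)) (hP2 : 2 * p.P ≤ p.N ^ (9 / 10 : ℝ)) :
    Siz p U b y := by
  have hN0 : 0 < p.N := by linarith
  have hN1 : 1 ≤ p.N := by linarith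
  have hP0 : 0 < p.P := by linarith
  have hT0 : 0 < p.T := by linarith
  have hh0 : 0 < p.h := by linarith
  have hny : 1 ≤ nm y := nm_pos (prim_ne_zero hy)
  have hnyR : (1 : ℝ) ≤ nm y := by exact_mod_cast hny
  have hTT : p.T ≤ p.N ^ (1 / 10 : ℝ) := by nlinarith
  have hpow : p.N ^ (9 / 10 : ℝ) * p.N ^ (1 / 10 : ℝ) = p.N := by
    rw [← Real.rpow_add hN0]
    norm_num
  have h90 : 0 < p.N ^ (9 / 10 : ℝ) := Real.rpow_pos_of_pos hN0 _
  have K1 : p.N ^ (9 / 10 : ℝ) ≤ p.K / nm y := by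
    unfold Par.K
    rw [div_div, le_div_iff₀ (by positivity)]
    calc p.N ^ (9 / 10 : ℝ) * (p.T * nm y) ≤ p.N ^ (9 / 10 : ℝ) * p.N ^ (1 / 10 : ℝ) := by gcongr
      _ = p.N := hpow
  have K2 : p.K / nm y ≤ p.N := by
    unfold Par.K
    rw [div_div]
    refine div_le_self hN0.le ?_
    nlinarith
  have M21 : p.N ≤ p.M2 := by
    unfold Par.M2
    rw [le_div_iff₀ (by positivity)]
    have h4 : 8 * p.P ≤ p.T := by linarith
    exact mul_le_mul_of_nonneg_left h4 hN0.le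
  have M22 : 2 * p.M2 ≤ p.N ^ (3 / 2 : ℝ) := by
    have h3 : 2 * p.M2 ≤ p.N * p.T := by
      unfold Par.M2
      rw [mul_div_assoc', div_le_iff₀ (by positivity)]
      have h4 : 0 ≤ p.N * p.T := by positivity
      nlinarith
    have h4 : p.N * p.T ≤ p.N * p.N ^ (1 / 10 : ℝ) := by gcongr
    have h5 : p.N * p.N ^ (1 / 10 : ℝ) = p.N ^ (11 / 10 : ℝ) := by
      nth_rewrite 1 [← Real.rpow_one p.N]
      rw [← Real.rpow_add hN0]
      norm_num
    have h6 : p.N ^ (11 / 10 : ℝ) ≤ p.N ^ (3 / 2 : ℝ) :=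
      Real.rpow_le_rpow_of_exponent_le hN1 (by norm_num)
    linarith
  have hM21 : 1 ≤ p.M2 := by linarith
  have hM20 : 0 < p.M2 := by linarith
  have nT : 2 * p.M2 * Real.exp (2 / p.h) ≤ p.N * p.T := by
    have h3 := exp_hi h1
    have h5 : 2 * p.M2 * Real.exp (2 / p.h) ≤ 2 * p.M2 * 3 :=
      mul_le_mul_of_nonneg_left h3 (by positivity)
    refine h5.trans ?_
    have h6 : 2 * p.M2 * 3 = p.N * p.T * (6 / (8 * p.P)) := by
      unfold Par.M2
      ring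
    rw [h6]
    have h7 : 6 / (8 * p.P) ≤ 1 := by
      rw [div_le_one (by positivity)]; linarith
    have h8 : 0 ≤ p.N * p.T := by positivity
    calc p.N * p.T * (6 / (8 * p.P)) ≤ p.N * p.T * 1 := mul_le_mul_of_nonneg_left h7 h8
      _ = _ := mul_one _
  have hKp : 2 * p.P ≤ p.K / nm y := hP2.trans K1
  have hK1 : 1 ≤ p.K / nm y := by linarith
  exact
    { N1 := N1
      l1 := l1
      h1 := h1
      h2 := h2
      w1 := w1
      P1 := P1
      T1 := T1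
      b1 := b1
      b2 := b2
      ny := hny
      K1 := K1
      K2 := K2
      M21 := M21
      M22 := M22
      nT := nT
      prod := prod_core hT0 hP0
      om := fun π hπ z hz => om_core hw hQ hQ2 hQ0 hy hyP hKp hU hr hπ hz
      ce := fun z hz => ce_core hh0 hK1 hz
      py := fun π hπ => by
        obtain ⟨_, _, pπ, _, _, _⟩ := mem_GP.1 hπ
        have h3 : (0 : ℝ) < nm π := by exact_mod_cast pπ.pos
        have h4 : (0 : ℝ) < nm y := by linarith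
        positivity
      ra := fun π hπ u hu v2 hv2 =>
        ra_core h1 hN0 hP0 hT0 hny hK1 hM21 hπ hu hv2
      jj := fun v2 hv2 => jj_core h1 hN0 M21 hM21 nT hv2
      c1 := vv_card h1 hK1
      c2 := vv_card h1 hM21 }

end SIZM

open SIZM in
/-- SIZ -/
theorem specSIZ : SpecSIZ := by
  intro cw aU aQ aF hcw1 hcw haU haQ haF
  refine ⟨1, 1 / 100, by norm_num, fun ch hch δ hδ hδ2 => ⟨max (2 * cw) (2 * aQ) + 2,
    fun cP hcP => ⟨1, fun cT hcT => ⟨1, fun cB hcB => ?_⟩⟩⟩⟩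
  have hcP1 : 2 * cw + 2 ≤ cP := le_trans (by linarith [le_max_left (2 * cw) (2 * aQ)]) hcP
  have hcP2 : 2 * aQ + 2 ≤ cP := le_trans (by linarith [le_max_right (2 * cw) (2 * aQ)]) hcP
  have e1 := Real.tendsto_log_atTop.eventually_ge_atTop 1000
  have e2 := ev_pow (ch * 2) 1 (1 / 10) one_pos (by norm_num)
  have e3 := ev_pow (cP / 2) (9 / 100) 1 (by norm_num) one_pos
  have e4 := ev_pow (2 * cP) (9 / 10) (1 / 2) (by norm_num) (by norm_num)
  filter_upwards [e1, e2, e3, e4, eventually_ge_atTop 1000000] with N h1 h2 h3 h4 h5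
  intro T P B U b y hc
  set L : ℝ := Real.log N with hL
  have hL1 : 1 ≤ L := by linarith
  have hL0 : 0 < L := by linarith
  have hN0 : 0 < N := by linarith
  have hN1 : 1 ≤ N := by linarith
  have mono : ∀ {s t : ℝ}, s ≤ t → L ^ s ≤ L ^ t := fun hst =>
    Real.rpow_le_rpow_of_exponent_le hL1 hst
  have hLL : ∀ {s : ℝ}, 1 ≤ s → L ≤ L ^ s := fun {s} hs => by
    calc L = L ^ (1 : ℝ) := (Real.rpow_one L).symm
      _ ≤ L ^ s := mono hs
  have bP1 : L ^ cP ≤ P := hc.box.P1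
  have bP2 : P ≤ L ^ (2 * cP) := hc.box.P2
  have bT1 : P * L ^ cT ≤ T := hc.box.T1
  have bT2 : T ≤ N ^ δ := hc.box.T2
  have bB1 : T * P * L ^ cB ≤ B := hc.box.B1
  have hP1000 : 1000 ≤ P := by
    have := hLL (show 1 ≤ cP by linarith)
    linarith
  have hT1000 : 1000 * P ≤ T := by
    have h6 := hLL hcT
    calc 1000 * P ≤ P * L ^ cT := by
          rw [mul_comm]
          exact mul_le_mul_of_nonneg_left (by linarith) (by linarith)
      _ ≤ T := bT1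
  have hB1 : 1 ≤ B := by
    have h6 := hLL hcB
    have h7 : 1 ≤ T * P := by nlinarith
    have h8 : 1 ≤ T * P * L ^ cB := by
      calc (1 : ℝ) ≤ T * P * 1 := by linarith
        _ ≤ T * P * L ^ cB := mul_le_mul_of_nonneg_left (by linarith) (by linarith)
    linarith
  have hbB := hc.b1
  have hb1 : 1 ≤ b := by
    have h6 : (0 : ℝ) < b := by linarith
    have h7 : 0 < b := by exact_mod_cast h6
    omega
  refine core (Q := L ^ aQ) h5 (by show 100 ≤ Real.log N; linarith) ?_ ?_ ?_ ?_ ?_ hb1 ?_ ?_ ?_ ?_ ?_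
    hc.y1 ?_ ?_ ?_ ?_ ?_
  · show 100 ≤ L ^ ch
    have := hLL hch
    linarith
  · show (L ^ ch) ^ 2 ≤ N / 10
    rw [Real.rpow_one] at h2
    have h6 : (L ^ ch) ^ 2 = L ^ (ch * 2) := by
      rw [← Real.rpow_natCast, ← Real.rpow_mul hL0.le]
      norm_num
    rw [h6]
    linarith
  · show 1 ≤ L ^ cw
    exact Real.one_le_rpow hL1 (by linarith)
  · show 100 ≤ P
    linarith
  · show 1000 * P ≤ T
    exact hT1000
  · show (b : ℝ) ^ 2 ≤ 8 * N
    have h6 := hc.b2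
    have h7 := hc.box.B2
    have h8 : (0 : ℝ) ≤ b := Nat.cast_nonneg b
    nlinarith
  · show L ^ cw ≤ P
    exact (mono (by linarith)).trans bP1
  · show L ^ aQ ≤ P
    exact (mono (by linarith)).trans bP1
  · show (L ^ aQ) ^ 2 ≤ L ^ cw
    rw [← Real.rpow_natCast, ← Real.rpow_mul hL0.le]
    refine mono ?_
    push_cast
    linarith
  · exact Real.rpow_nonneg hL0.le _
  · show (nm y : ℝ) ≤ P
    exact (hc.y2.trans (mono (by linarith))).trans bP1
  · intro i hi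
    exact ⟨(hc.ok.ch i hi).1, (hc.ok.ch i hi).2.1⟩
  · intro π hπ hd
    exact (hc.y3 π hπ hd).1
  · show T * nm y ≤ N ^ (1 / 10 : ℝ)
    have h6 : (nm y : ℝ) ≤ N ^ (9 / 100 : ℝ) := by
      have h7 := hc.y2
      rw [one_mul] at h3
      exact h7.trans h3
    have h8 : T ≤ N ^ (1 / 100 : ℝ) :=
      bT2.trans (Real.rpow_le_rpow_of_exponent_le hN1 hδ2)
    calc T * nm y ≤ N ^ (1 / 100 : ℝ) * N ^ (9 / 100 : ℝ) :=
          mul_le_mul h8 h6 (Nat.cast_nonneg _) (Real.rpow_nonneg hN0.le _)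
      _ = N ^ (1 / 10 : ℝ) := by
          rw [← Real.rpow_add hN0]
          norm_num
  · show 2 * P ≤ N ^ (9 / 10 : ℝ)
    linarith

end Pool.Agent.Lib.MP391708.X3M
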