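import Pool.Agent.Lib.MP_391708_nt.X3.SpecMT

set_option autoImplicit false

namespace Pool.Agent.Lib.MP391708.X3M

open Finset Filter Topology Pool.Agent.Lib.MP391708.MR
open Pool.Agent.Lib.MP391708.X (ChiG hk Dist Fam rgh VP Ix psi ix1 UOK lc On)
open Pool.Agent.Lib.MP391708.X3
open Pool.Agent.Lib.MP391708.XL (gb VS PS pt LN)
open Pool.Agent.Lib.MP391708.QPA (PB)
open Pool.Agent.Lib.MP391708.QPA.FLW (Dset)
open scoped ComplexConjugate

namespace SQEM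

/-- the square of a finite sum -/
theorem sq_sum {ι : Type} (U : Finset ι) (x : ι → ℂ) :
    ((‖∑ i ∈ U, x i‖ ^ 2 : ℝ) : ℂ) = ∑ i ∈ U, ∑ j ∈ U, x i * conj (x j) := by
  have h : ((‖∑ i ∈ U, x i‖ ^ 2 : ℝ) : ℂ) = (∑ i ∈ U, x i) * conj (∑ i ∈ U, x i) := by
    rw [Complex.mul_conj, Complex.normSq_eq_norm_sq]
  rw [h, map_sum, Finset.sum_mul_sum]

/-- expansion of the weighted square -/
theorem expd {ι κ : Type} (U : Finset ι) (S : Finset κ) (l : κ → ℝ) (a : ι → ℂ) (f : ι → κ → ℂ) :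
    ((∑ z ∈ S, l z * ‖∑ i ∈ U, a i * conj (f i z)‖ ^ 2 : ℝ) : ℂ) =
      ∑ i ∈ U, ∑ j ∈ U, a i * conj (a j) * ∑ z ∈ S, (l z : ℂ) * conj (f i z) * f j z := by
  have h1 : ((∑ z ∈ S, l z * ‖∑ i ∈ U, a i * conj (f i z)‖ ^ 2 : ℝ) : ℂ) =
      ∑ z ∈ S, ∑ i ∈ U, ∑ j ∈ U, a i * conj (a j) * ((l z : ℂ) * conj (f i z) * f j z) := by
    rw [Complex.ofReal_sum]
    refine Finset.sum_congr rfl fun z _ => ?_
    rw [Complex.ofReal_mul, sq_sum, Finset.mul_sum]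
    refine Finset.sum_congr rfl fun i _ => ?_
    rw [Finset.mul_sum]
    refine Finset.sum_congr rfl fun j _ => ?_
    rw [map_mul, Complex.conj_conj]
    ring
  rw [h1, Finset.sum_comm]
  refine Finset.sum_congr rfl fun i _ => ?_
  rw [Finset.sum_comm]
  refine Finset.sum_congr rfl fun j _ => ?_
  rw [Finset.mul_sum]

/-- the error terms -/
theorem err {ι : Type} (U : Finset ι) (a : ι → ℂ) (E : ι → ι → ℂ) (X : ℝ)
    (hE : ∀ i ∈ U, ∀ j ∈ U, (U.card : ℝ) ^ 2 * ‖E i j‖ ≤ X) :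
    ‖∑ i ∈ U, ∑ j ∈ U, a i * conj (a j) * E i j‖ ≤ X * ∑ i ∈ U, ‖a i‖ ^ 2 := by
  rcases U.eq_empty_or_nonempty with h0 | hne
  · subst h0
    simp
  have hc : (1 : ℝ) ≤ U.card := by exact_mod_cast hne.card_pos
  have hc2 : (0 : ℝ) < (U.card : ℝ) ^ 2 := by positivity
  obtain ⟨i0, hi0⟩ := hne
  have hX : 0 ≤ X := le_trans (by positivity) (hE i0 hi0 i0 hi0)
  have h1 : ‖∑ i ∈ U, ∑ j ∈ U, a i * conj (a j) * E i j‖ ≤
      ∑ i ∈ U, ∑ j ∈ U, ‖a i‖ * ‖a j‖ * (X / (U.card : ℝ) ^ 2) := by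
    refine (norm_sum_le _ _).trans (Finset.sum_le_sum fun i hi => ?_)
    refine (norm_sum_le _ _).trans (Finset.sum_le_sum fun j hj => ?_)
    rw [norm_mul, norm_mul, Complex.norm_conj]
    refine mul_le_mul_of_nonneg_left ?_ (by positivity)
    rw [le_div_iff₀ hc2, mul_comm]
    exact hE i hi j hj
  have h2 : ∑ i ∈ U, ∑ j ∈ U, ‖a i‖ * ‖a j‖ * (X / (U.card : ℝ) ^ 2) =
      (∑ i ∈ U, ‖a i‖) ^ 2 * (X / (U.card : ℝ) ^ 2) := by
    rw [pow_two (∑ i ∈ U, ‖a i‖), Finset.sum_mul_sum, Finset.sum_mul]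
    refine Finset.sum_congr rfl fun i _ => ?_
    rw [Finset.sum_mul]
  have h3 : (∑ i ∈ U, ‖a i‖) ^ 2 ≤ U.card * ∑ i ∈ U, ‖a i‖ ^ 2 := sq_sum_le_card_mul_sum_sq
  have h4 : 0 ≤ ∑ i ∈ U, ‖a i‖ ^ 2 := Finset.sum_nonneg fun i _ => by positivity
  refine h1.trans (h2.le.trans ?_)
  calc (∑ i ∈ U, ‖a i‖) ^ 2 * (X / (U.card : ℝ) ^ 2)
      ≤ (U.card * ∑ i ∈ U, ‖a i‖ ^ 2) * (X / (U.card : ℝ) ^ 2) := by gcongr
    _ = (X * ∑ i ∈ U, ‖a i‖ ^ 2) / U.card := by field_simp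
    _ ≤ X * ∑ i ∈ U, ‖a i‖ ^ 2 := div_le_self (by positivity) hc

/-- the main terms -/
theorem main {ι : Type} (U : Finset ι) (L : ℕ) (a p : ι → ℂ) (k : ι → ℂ) (t : ℂ) (ρ : ℝ) (l : ℤ → ℝ)
    (f : ι → ℤ → ℂ) (hk : ∀ i, conj (k i) = k i) (ht : conj t = t) :
    ∑ i ∈ U, ∑ j ∈ U, a i * conj (a j) * ((ρ : ℂ) * (p i * conj (p j)) *
      av L (fun n => (l n : ℂ) * conj (f i n) * f j n) * Complex.exp (-(Complex.I * (k i - k j) * t))) =
    ((ρ * ((1 / (L : ℝ)) * ∑ n ∈ range L, l n *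
      ‖∑ i ∈ U, (a i * p i * conj (f i n) * Complex.exp (-(Complex.I * k i * t)))‖ ^ 2) : ℝ) : ℂ) := by
  have h1 : ∀ i j : ι, Complex.exp (-(Complex.I * (k i - k j) * t)) =
      Complex.exp (-(Complex.I * k i * t)) * conj (Complex.exp (-(Complex.I * k j * t))) := by
    intro i j
    rw [← Complex.exp_conj, ← Complex.exp_add]
    congr 1
    rw [map_neg, map_mul, map_mul, Complex.conj_I, hk, ht]
    ring
  rw [Complex.ofReal_mul, Complex.ofReal_mul, Complex.ofReal_sum]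
  have h2 : ∀ n : ℕ, ((l n * ‖∑ i ∈ U, (a i * p i * conj (f i n) *
      Complex.exp (-(Complex.I * k i * t)))‖ ^ 2 : ℝ) : ℂ) =
      ∑ i ∈ U, ∑ j ∈ U, a i * conj (a j) * (p i * conj (p j)) * ((l n : ℂ) * conj (f i n) * f j n) *
        Complex.exp (-(Complex.I * (k i - k j) * t)) := by
    intro n
    rw [Complex.ofReal_mul, sq_sum, Finset.mul_sum]
    refine Finset.sum_congr rfl fun i _ => ?_
    rw [Finset.mul_sum]
    refine Finset.sum_congr rfl fun j _ => ?_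
    rw [h1, map_mul, map_mul, map_mul, Complex.conj_conj]
    ring
  have h3 : ∑ n ∈ range L, ((l n * ‖∑ i ∈ U, (a i * p i * conj (f i n) *
      Complex.exp (-(Complex.I * k i * t)))‖ ^ 2 : ℝ) : ℂ) =
      ∑ n ∈ range L, ∑ i ∈ U, ∑ j ∈ U, a i * conj (a j) * (p i * conj (p j)) *
        ((l n : ℂ) * conj (f i n) * f j n) * Complex.exp (-(Complex.I * (k i - k j) * t)) :=
    Finset.sum_congr rfl (fun n _ => h2 n)
  have h4 : ∑ n ∈ range L, ∑ i ∈ U, ∑ j ∈ U, a i * conj (a j) * (p i * conj (p j)) *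
        ((l n : ℂ) * conj (f i n) * f j n) * Complex.exp (-(Complex.I * (k i - k j) * t)) =
      ∑ i ∈ U, ∑ j ∈ U, ∑ n ∈ range L, a i * conj (a j) * (p i * conj (p j)) *
        ((l n : ℂ) * conj (f i n) * f j n) * Complex.exp (-(Complex.I * (k i - k j) * t)) := by
    rw [Finset.sum_comm]
    refine Finset.sum_congr rfl fun i _ => ?_
    rw [Finset.sum_comm]
  rw [h3, h4, Finset.mul_sum, Finset.mul_sum]
  refine Finset.sum_congr rfl fun i _ => ?_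
  rw [Finset.mul_sum, Finset.mul_sum]
  refine Finset.sum_congr rfl fun j _ => ?_
  unfold av
  rw [Complex.ofReal_div, Complex.ofReal_one, Complex.ofReal_natCast]
  simp only [Finset.mul_sum, Finset.sum_mul]
  refine Finset.sum_congr rfl fun n _ => ?_
  ring

/-- one `z₁` -/
theorem perz (p : Par) (m : ℕ) (d : ℕ → ℝ) (U : Finset Ix) (ω : Gi) (b v : ℕ) (a : Ix → ℂ) (ρ r X : ℝ)
    (h : ∀ i ∈ U, ∀ j ∈ U, (U.card : ℝ) ^ 2 * ‖PL p m d i j ω b v -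
      (ρ : ℂ) * (psi i ω * conj (psi j ω)) * AV p m d U b i j *
        Complex.exp (-(Complex.I * ((i.2.2 : ℂ) - j.2.2) * b / (r : ℝ)))‖ ≤ X) :
    ∑ z ∈ LC p ω b v, lam p.w m d z * ‖∑ i ∈ U, a i * conj (psi i z)‖ ^ 2 ≤
      ρ * ((1 / (per p.w U : ℝ)) * ∑ n ∈ range (per p.w U), lam p.w m d (pt n b) *
        ‖∑ i ∈ U, (a i * psi i ω * conj (i.2.1 (pt n b)) *
          Complex.exp (-(Complex.I * i.2.2 * ((b : ℂ) / (r : ℝ)))))‖ ^ 2) + X * ∑ i ∈ U, ‖a i‖ ^ 2 := by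
  have h1 := expd U (LC p ω b v) (lam p.w m d) a (fun i z => psi i z)
  have h2 := main U (per p.w U) a (fun i => psi i ω) (fun i => (i.2.2 : ℂ)) ((b : ℂ) / (r : ℝ)) ρ
    (fun n => lam p.w m d (pt n b)) (fun i n => i.2.1 (pt n b))
    (fun i => by simp) (by simp)
  have h3 := err U a (fun i j => PL p m d i j ω b v -
      (ρ : ℂ) * (psi i ω * conj (psi j ω)) * AV p m d U b i j *
        Complex.exp (-(Complex.I * ((i.2.2 : ℂ) - j.2.2) * b / (r : ℝ)))) X h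
  have h4 : ∑ i ∈ U, ∑ j ∈ U, a i * conj (a j) * (PL p m d i j ω b v -
      (ρ : ℂ) * (psi i ω * conj (psi j ω)) * AV p m d U b i j *
        Complex.exp (-(Complex.I * ((i.2.2 : ℂ) - j.2.2) * b / (r : ℝ)))) =
      ((∑ z ∈ LC p ω b v, lam p.w m d z * ‖∑ i ∈ U, a i * conj (psi i z)‖ ^ 2 -
        ρ * ((1 / (per p.w U : ℝ)) * ∑ n ∈ range (per p.w U), lam p.w m d (pt n b) *
        ‖∑ i ∈ U, (a i * psi i ω * conj (i.2.1 (pt n b)) *
          Complex.exp (-(Complex.I * i.2.2 * ((b : ℂ) / (r : ℝ)))))‖ ^ 2) : ℝ) : ℂ) := by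
    rw [Complex.ofReal_sub, h1, ← h2, ← Finset.sum_sub_distrib]
    refine Finset.sum_congr rfl fun i _ => ?_
    rw [← Finset.sum_sub_distrib]
    refine Finset.sum_congr rfl fun j _ => ?_
    rw [mul_sub]
    unfold PL AV
    congr 4
    ring
  rw [h4, Complex.norm_real] at h3
  have h5 := (le_abs_self _).trans h3
  linarith only [h5]

/-- the main terms, summed over the `z₁` of a cell -/
theorem cellsum {κ : Type} (U : Finset Ix) (L : ℕ) (l : ℤ → ℝ) (a q : Ix → ℂ) (e : Ix → ℤ → ℂ) (P f : Ix → κ → ℂ)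
    (D : ℝ) (S : Finset κ) (hl : ∀ n : ℤ, 0 ≤ l n) (hP : ∀ i ∈ U, ∀ z ∈ S, P i z = q i * f i z)
    (hq : ∀ i ∈ U, ‖q i‖ ≤ 1) (he : ∀ i ∈ U, ∀ n, ‖e i n‖ ≤ 1) (hD : 0 ≤ D)
    (hdua : ∀ a' : Ix → ℂ, ∑ z ∈ S, ‖∑ i ∈ U, a' i * f i z‖ ^ 2 ≤ D * ∑ i ∈ U, ‖a' i‖ ^ 2) :
    ∑ z ∈ S, ((1 / (L : ℝ)) * ∑ n ∈ range L, l n * ‖∑ i ∈ U, a i * P i z * e i n‖ ^ 2) ≤
      D * (∑ i ∈ U, ‖a i‖ ^ 2) * ((1 / (L : ℝ)) * ∑ n ∈ range L, l n) := by
  rw [← Finset.mul_sum, Finset.sum_comm]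
  have h1 : ∑ n ∈ range L, ∑ z ∈ S, l n * ‖∑ i ∈ U, a i * P i z * e i n‖ ^ 2 ≤
      ∑ n ∈ range L, l n * (D * ∑ i ∈ U, ‖a i‖ ^ 2) := by
    refine Finset.sum_le_sum fun n _ => ?_
    rw [← Finset.mul_sum]
    refine mul_le_mul_of_nonneg_left ?_ (hl n)
    have h2 : ∀ z ∈ S, ‖∑ i ∈ U, a i * P i z * e i n‖ ^ 2 =
        ‖∑ i ∈ U, (a i * q i * e i n) * f i z‖ ^ 2 := by
      intro z hz
      congr 2
      refine Finset.sum_congr rfl fun i hi => ?_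
      rw [hP i hi z hz]
      ring
    rw [Finset.sum_congr rfl h2]
    refine (hdua _).trans ?_
    refine mul_le_mul_of_nonneg_left (Finset.sum_le_sum fun i hi => ?_) hD
    rw [norm_mul, norm_mul]
    have h3 : ‖a i‖ * ‖q i‖ * ‖e i n‖ ≤ ‖a i‖ := by
      calc ‖a i‖ * ‖q i‖ * ‖e i n‖ ≤ ‖a i‖ * 1 * 1 := by
            gcongr
            · exact hq i hi
            · exact he i hi n
        _ = ‖a i‖ := by ring
    gcongr
  rw [← Finset.sum_mul] at h1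
  calc (1 / (L : ℝ)) * ∑ n ∈ range L, ∑ z ∈ S, l n * ‖∑ i ∈ U, a i * P i z * e i n‖ ^ 2
      ≤ (1 / (L : ℝ)) * ((∑ n ∈ range L, l n) * (D * ∑ i ∈ U, ‖a i‖ ^ 2)) := by gcongr
    _ = _ := by ring

/-- the final numbers -/
theorem fin {κ : Type} (S : Finset κ) (W A n ρ X : κ → ℝ) (r h E V Q T C C' C'' δ δ' eM : ℝ)
    (hr : 0 < r) (hh : 0 < h) (hE : 0 ≤ E) (hV : 0 ≤ V) (hQ : 0 ≤ Q) (hT : 0 ≤ T) (hδ' : 0 ≤ δ')
    (hA : ∀ z ∈ S, 0 ≤ A z) (hn : ∀ z ∈ S, 0 < n z) (hrn : ∀ z ∈ S, r ^ 2 ≤ E * n z)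
    (hρ : ∀ z ∈ S, ρ z = r / (2 * h * n z)) (hX : ∀ z ∈ S, X z = δ' * (r / (h * n z)) * V)
    (hW : ∀ z ∈ S, W z ≤ ρ z * A z + X z * T) (hS : (S.card : ℝ) ≤ C'' * Q)
    (hAs : ∑ z ∈ S, A z ≤ C' * Q * T * (C * eM * V)) (h1 : C * C' * eM ≤ δ) (h2 : 2 * C'' * δ' ≤ δ) :
    ∑ z ∈ S, W z ≤ δ * V * (E / (h * r)) * Q * T := by
  have h3 : ∀ z ∈ S, r / (h * n z) ≤ E / (h * r) := by
    intro z hz
    have hnz := hn z hz
    rw [div_le_div_iff₀ (by positivity) (by positivity)]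
    have := hrn z hz
    calc r * (h * r) = h * r ^ 2 := by ring
      _ ≤ h * (E * n z) := by gcongr
      _ = E * (h * n z) := by ring
  have h4 : ∀ z ∈ S, W z ≤ E / (h * r) / 2 * A z + δ' * (E / (h * r)) * V * T := by
    intro z hz
    refine (hW z hz).trans ?_
    have h5 : ρ z ≤ E / (h * r) / 2 := by
      rw [hρ z hz]
      have h6 : r / (2 * h * n z) = r / (h * n z) / 2 := by
        rw [div_div]
        congr 1
        ring
      rw [h6]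
      linarith only [h3 z hz]
    have h7 : X z ≤ δ' * (E / (h * r)) * V := by
      rw [hX z hz]
      have := h3 z hz
      gcongr
    have h8 := mul_le_mul_of_nonneg_right h5 (hA z hz)
    have h9 := mul_le_mul_of_nonneg_right h7 hT
    linarith only [h8, h9]
  have hEr : 0 ≤ E / (h * r) := by positivity
  have h10 : ∑ z ∈ S, W z ≤ E / (h * r) / 2 * ∑ z ∈ S, A z + S.card * (δ' * (E / (h * r)) * V * T) := by
    refine (Finset.sum_le_sum h4).trans ?_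
    rw [Finset.sum_add_distrib, ← Finset.mul_sum, Finset.sum_const, nsmul_eq_mul]
  refine h10.trans ?_
  have h11 : E / (h * r) / 2 * ∑ z ∈ S, A z ≤ E / (h * r) / 2 * (C' * Q * T * (C * eM * V)) := by gcongr
  have h12 : (S.card : ℝ) * (δ' * (E / (h * r)) * V * T) ≤ C'' * Q * (δ' * (E / (h * r)) * V * T) := by gcongr
  have h13 : 0 ≤ V * (E / (h * r)) * Q * T := by positivity
  have h14 := mul_le_mul_of_nonneg_right h1 h13
  have h15 := mul_le_mul_of_nonneg_right h2 h13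
  calc E / (h * r) / 2 * ∑ z ∈ S, A z + S.card * (δ' * (E / (h * r)) * V * T)
      ≤ E / (h * r) / 2 * (C' * Q * T * (C * eM * V)) + C'' * Q * (δ' * (E / (h * r)) * V * T) :=
        add_le_add h11 h12
    _ = (C * C' * eM * (V * (E / (h * r)) * Q * T) + 2 * C'' * δ' * (V * (E / (h * r)) * Q * T)) / 2 := by ring
    _ ≤ (δ * (V * (E / (h * r)) * Q * T) + δ * (V * (E / (h * r)) * Q * T)) / 2 := by
        linarith only [h14, h15]
    _ = δ * V * (E / (h * r)) * Q * T := by ring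

theorem exists_m {C C' δ : ℝ} (hδ : 0 < δ) :
    ∃ m₀ : ℕ, ∀ m : ℕ, m₀ ≤ m → C * C' * Real.exp (-(m : ℝ)) ≤ δ := by
  have h1 : Tendsto (fun m : ℕ => C * C' * Real.exp (-(m : ℝ))) atTop (𝓝 (C * C' * 0)) :=
    (Real.tendsto_exp_neg_atTop_nhds_zero.comp tendsto_natCast_atTop_atTop).const_mul _
  rw [mul_zero] at h1
  obtain ⟨m₀, h2⟩ := eventually_atTop.1 (h1.eventually (ge_mem_nhds hδ))
  exact ⟨m₀, fun m hm => h2 m hm⟩

theorem psi_mul {i : Ix} (hi : ChiG (i.1 : Gi) i.2.1) (x y : Gi) : psi i (x * y) = psi i x * psi i y := by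
  unfold psi hk
  rw [hi.mul, xi_mul]
  ring

theorem psi_le {i : Ix} {z : Gi} (hi : ‖i.2.1 z‖ ≤ 1) (hz : z ≠ 0) : ‖psi i z‖ ≤ 1 := by
  unfold psi hk
  rw [norm_mul, norm_xi _ hz, mul_one]
  exact hi

theorem exp_le (k : ℤ) (b : ℕ) (r : ℝ) : ‖Complex.exp (-(Complex.I * k * ((b : ℂ) / (r : ℝ))))‖ ≤ 1 := by
  have h : (-(Complex.I * k * ((b : ℂ) / (r : ℝ))) : ℂ) = ((-((k : ℝ) * ((b : ℝ) / r)) : ℝ) : ℂ) * Complex.I := by
    push_cast
    ring
  rw [h, Complex.norm_exp_ofReal_mul_I]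

theorem pt_ne {n : ℤ} {b : ℕ} (hb : 1 ≤ b) : pt n b ≠ 0 := by
  intro h
  have h1 := congrArg Zsqrtd.im h
  simp only [pt, Zsqrtd.im_zero] at h1
  have h2 : b = 0 := by exact_mod_cast h1
  omega

theorem per_pos {w : ℝ} {U : Finset Ix} (h : ∀ i ∈ U, 1 ≤ i.1) : 0 < per w U := by
  unfold per
  refine Nat.mul_pos (Finset.prod_pos fun p hp => ?_) (pow_pos (Finset.prod_pos fun i hi => h i hi) 2)
  unfold PS at hp
  rw [Finset.mem_filter] at hp
  exact hp.2.1.pos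

end SQEM

theorem specSQE (hLPM : SpecLPM) (hLAM : SpecLAM) (hAVW : SpecAVW) (hDUA : SpecDUA) (hCE3 : SpecCE3)
    (hSIZ : SpecSIZ) (hCHB : Pool.Agent.Lib.MP391708.XL.SpecCHB) : SpecSQE := by
  obtain ⟨C', hC', hdua⟩ := hDUA
  obtain ⟨C'', hC'', hce⟩ := hCE3
  intro C δ hC hδ
  obtain ⟨m₀, hm₀⟩ := SQEM.exists_m (C := C) (C' := C') hδ
  refine ⟨m₀, fun m hm => ?_⟩
  have h1 := hLPM C (δ / (2 * C'')) m hC.le (by positivity)
  refine ((((h1.and hdua).and hce).and hSIZ).and EV.uok).mono ?_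
  rintro p B U b y ⟨⟨⟨⟨hl, hd⟩, hc⟩, hs⟩, -, hu⟩ c d hW π hπ u hu' v hv a
  have hw := hs.w1
  have hh : 0 < p.h := by linarith only [hs.h1]
  have hl1 : 0 < Real.log p.N := by linarith only [hs.l1]
  have hN0 : 0 < p.N := by linarith only [hs.N1]
  have hpy := hs.py π hπ
  have hr8 := (hs.ra π hπ u hu' v hv).1
  have hr : 0 < rad p y π (u + v) := lt_of_lt_of_le (by positivity) hr8
  have hK : 0 < p.K / nm y := lt_of_lt_of_le (by positivity) hs.K1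
  -- the weights
  have hlam : ∀ n : ℤ, 0 ≤ lam p.w m d (pt n b) := by
    intro n
    obtain ⟨e1, e2⟩ := hLAM C p.w m c d hw hW (pt n b) (SQEM.pt_ne hs.b1)
    linarith only [e1, e2]
  have hL : 0 < per p.w U := SQEM.per_pos fun i hi => (hu i hi).1
  obtain ⟨x, x', -, hx', -, -, hx3⟩ := hAVW C p.w m c d b (per p.w U) hw hW hL (Dvd.intro _ rfl)
  have hx4 : (1 / (per p.w U : ℝ)) * ∑ n ∈ range (per p.w U), lam p.w m d (pt n b) = x' := by
    have hx5 : (1 / ((per p.w U : ℕ) : ℂ)) * ∑ n ∈ range (per p.w U), ((lam p.w m d (pt n b) : ℝ) : ℂ) = x' := hx'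
    apply Complex.ofReal_injective
    rw [← hx5, Complex.ofReal_mul, Complex.ofReal_div, Complex.ofReal_one, Complex.ofReal_natCast,
      Complex.ofReal_sum]
  have hV : 0 ≤ VS b (PS p.w) := by
    have h5 : 0 ≤ x' := by
      rw [← hx4]
      exact mul_nonneg (by positivity) (Finset.sum_nonneg fun n _ => hlam n)
    have h6 := h5.trans hx3
    have h7 : 0 < C * Real.exp (-(m : ℝ)) := by positivity
    exact nonneg_of_mul_nonneg_right h6 h7
  have hy0 : y ≠ 0 := by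
    rintro rfl
    simp [nm] at hpy
  have hπ0 : π ≠ 0 := by
    rintro rfl
    simp [nm] at hpy
  have hcell : ∀ z ∈ cell p.h (p.K / nm y) (2 * (p.K / nm y)) u,
      z ∈ GP (p.K / nm y) (2 * (p.K / nm y)) ∧ ⌊p.h * Real.log (nm z)⌋₊ = u := by
    intro z hz
    unfold cell at hz
    exact Finset.mem_filter.1 hz
  have hrad : rad p y π (u + v) ^ 2 = (nm y : ℝ) * nm π * (Real.exp ((u : ℝ) / p.h) * Real.exp ((v : ℝ) / p.h)) := by
    unfold rad
    rw [Real.sq_sqrt (by positivity), ← Real.exp_add]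
    congr 2
    push_cast
    ring
  refine SQEM.fin (cell p.h (p.K / nm y) (2 * (p.K / nm y)) u) _
    (fun z => (1 / (per p.w U : ℝ)) * ∑ n ∈ range (per p.w U), lam p.w m d (pt n b) *
        ‖∑ i ∈ U, (a i * psi i (y * z * π) * (conj (i.2.1 (pt n b)) *
          Complex.exp (-(Complex.I * i.2.2 * ((b : ℂ) / (rad p y π (u + v) : ℝ))))))‖ ^ 2)
    (fun z => (nm (y * z * π) : ℝ)) (fun z => rad p y π (u + v) / (2 * p.h * nm (y * z * π)))
    (fun z => δ / (2 * C'') * (rad p y π (u + v) / (p.h * nm (y * z * π))) * VS b (PS p.w))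
    (rad p y π (u + v)) p.h (Real.exp ((v : ℝ) / p.h)) (VS b (PS p.w)) ((p.K / nm y) / (p.h * Real.log p.N))
    (∑ i ∈ U, ‖a i‖ ^ 2) C C' C'' δ (δ / (2 * C'')) (Real.exp (-(m : ℝ))) hr hh (Real.exp_pos _).le hV
    (by positivity) (Finset.sum_nonneg fun i _ => by positivity) (by positivity) ?_ ?_ ?_ (fun z _ => rfl)
    (fun z _ => rfl) ?_ ?_ ?_ (hm₀ m hm) ?_
  · intro z _
    exact mul_nonneg (by positivity) (Finset.sum_nonneg fun n _ => mul_nonneg (hlam n) (by positivity))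
  · intro z hz
    have := (hs.om π hπ z (hcell z hz).1).2.2.2.2.1
    exact_mod_cast this
  · intro z hz
    obtain ⟨hz1, hz2⟩ := hcell z hz
    have h5 := (hs.ce z hz1).2.2.1
    rw [hz2] at h5
    have h6 := (hs.om π hπ z hz1).2.2.2.1
    show rad p y π (u + v) ^ 2 ≤ Real.exp ((v : ℝ) / p.h) * (nm (y * z * π) : ℝ)
    rw [hrad, h6]
    calc (nm y : ℝ) * nm π * (Real.exp ((u : ℝ) / p.h) * Real.exp ((v : ℝ) / p.h))
        ≤ (nm y : ℝ) * nm π * ((nm z : ℝ) * Real.exp ((v : ℝ) / p.h)) := by gcongr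
      _ = _ := by ring
  · intro z hz
    obtain ⟨hz1, hz2⟩ := hcell z hz
    have h5 := SQEM.perz p m d U (y * z * π) b v a (rad p y π (u + v) / (2 * p.h * nm (y * z * π)))
      (rad p y π (u + v)) (δ / (2 * C'') * (rad p y π (u + v) / (p.h * nm (y * z * π))) * VS b (PS p.w))
      (by
        intro i hi j hj
        have h6 := hl d hW.bd i hi j hj π hπ z hz1 v hv
        rw [hz2] at h6
        exact h6)
    simp only [mul_assoc] at h5 ⊢
    exact h5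
  · have h5 := hc.2.2 u
    rw [mul_div_assoc] at h5
    exact h5
  · refine (SQEM.cellsum U (per p.w U) (fun n => lam p.w m d (pt n b)) a (fun i => psi i y * psi i π)
      (fun i n => conj (i.2.1 (pt n b)) *
          Complex.exp (-(Complex.I * i.2.2 * ((b : ℂ) / (rad p y π (u + v) : ℝ)))))
      (fun i z => psi i (y * z * π)) (fun i z => psi i z)
      (C' * ((p.K / nm y) / (p.h * Real.log p.N))) _ hlam ?_ ?_ ?_ (by positivity) (fun a' => hd u a')).trans ?_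
    · intro i hi z _
      have h6 := (hu i hi).2.1
      show psi i (y * z * π) = psi i y * psi i π * psi i z
      rw [SQEM.psi_mul h6, SQEM.psi_mul h6]
      ring
    · intro i hi
      obtain ⟨h6, h7, -⟩ := hu i hi
      obtain ⟨-, -, h8⟩ := hCHB i.1 i.2.1 h6 h7
      show ‖psi i y * psi i π‖ ≤ 1
      rw [norm_mul]
      exact mul_le_one₀ (SQEM.psi_le (h8 y) hy0) (norm_nonneg _) (SQEM.psi_le (h8 π) hπ0)
    · intro i hi n
      obtain ⟨h6, h7, -⟩ := hu i hi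
      obtain ⟨-, -, h8⟩ := hCHB i.1 i.2.1 h6 h7
      show ‖conj (i.2.1 (pt n b)) * Complex.exp (-(Complex.I * i.2.2 * ((b : ℂ) / (rad p y π (u + v) : ℝ))))‖ ≤ 1
      rw [norm_mul, Complex.norm_conj]
      exact mul_le_one₀ (h8 _) (norm_nonneg _) (SQEM.exp_le _ _ _)
    · rw [hx4]
      have h9 : 0 ≤ ∑ i ∈ U, ‖a i‖ ^ 2 := Finset.sum_nonneg fun i _ => by positivity
      gcongr
  · rw [mul_div_assoc']
    exact le_of_eq (mul_div_cancel_left₀ _ (by positivity))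

end Pool.Agent.Lib.MP391708.X3M
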