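import Pool.Agent.Lib.MP_391708_nt.X3.SpecMT

/-!
# Module TBU (MP_391708_nt, Theorem X3, part MT): there are many points on a line, uniform form
-/

set_option autoImplicit false

namespace Pool.Agent.Lib.MP391708.X3M

open Finset Filter Topology Pool.Agent.Lib.MP391708.MR
open Pool.Agent.Lib.MP391708.X (ChiG hk Dist Fam rgh VP Ix psi ix1 UOK lc On)
open Pool.Agent.Lib.MP391708.X3
open Pool.Agent.Lib.MP391708.XL (gg VQ VS PS)

theorem specTBU (hL : XL.SpecLSM) : SpecTBU := by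
  obtain ⟨C, -, -, -, -, c, hc, hV⟩ := hL
  intro n δ hδ cw aU aQ aF h0 h1 h2 h3 h4
  refine ⟨0, 1, one_pos, fun ch _ δ' _ _ => ⟨0, fun cP _ =>
    ⟨ch + (aU + aU + (aQ + aQ)) + (cw + 1) * (n : ℝ) + 5, fun cT hcT => ⟨0, fun cB _ => ?_⟩⟩⟩⟩
  filter_upwards [Real.tendsto_log_atTop.eventually_ge_atTop (max 2 ((cw + 1) ^ 4 / (δ * c)))]
    with N hN T P B U b y hcx i hi j hj
  obtain ⟨-, hi2, -⟩ := hcx.ok.ch i hi
  obtain ⟨-, hj2, -⟩ := hcx.ok.ch j hj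
  have hU := hcx.ok.card
  change (U.card : ℝ) ^ 2 * ((i.1 : ℝ) * (j.1 : ℝ)) * (Real.log N ^ cw + 1) ^ n ≤
    δ * (T / (P * Real.log N ^ ch)) * VS b (PS (Real.log N ^ cw))
  set ℓ := Real.log N with hℓ
  have hℓ2 : 2 ≤ ℓ := (le_max_left _ _).trans hN
  have hℓc : (cw + 1) ^ 4 / (δ * c) ≤ ℓ := (le_max_right _ _).trans hN
  have hℓ0 : 0 < ℓ := by linarith
  have hℓ1 : 1 ≤ ℓ := by linarith
  have hcw : 2 ≤ cw := by linarith
  have hw1 : 1 ≤ ℓ ^ cw := Real.one_le_rpow hℓ1 (by linarith)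
  have hw : ℓ ^ cw + 1 ≤ ℓ ^ (cw + 1) := by
    rw [Real.rpow_add hℓ0, Real.rpow_one]
    nlinarith
  have hpow : (ℓ ^ cw + 1) ^ n ≤ ℓ ^ ((cw + 1) * (n : ℝ)) := by
    rw [Real.rpow_mul hℓ0.le, Real.rpow_natCast]
    exact pow_le_pow_left₀ (by linarith) hw n
  have hVS : c / ((cw + 1) * ℓ) ^ 4 ≤ VS b (PS (ℓ ^ cw)) := by
    refine le_trans ?_ (hV b (ℓ ^ cw) hw1).1
    have hlog0 : 0 < Real.log (ℓ ^ cw + 1) := Real.log_pos (by linarith)
    apply div_le_div_of_nonneg_left hc.le (by positivity)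
    apply pow_le_pow_left₀ hlog0.le
    calc Real.log (ℓ ^ cw + 1) ≤ Real.log (ℓ ^ (cw + 1)) := Real.log_le_log (by linarith) hw
      _ = (cw + 1) * Real.log ℓ := Real.log_rpow hℓ0 _
      _ ≤ (cw + 1) * ℓ := by
        apply mul_le_mul_of_nonneg_left _ (by linarith)
        have := Real.log_le_sub_one_of_pos hℓ0
        linarith
  set E := aU + aU + (aQ + aQ) + (cw + 1) * (n : ℝ) with hE
  have hU2 : (U.card : ℝ) ^ 2 ≤ ℓ ^ (aU + aU) := by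
    rw [Real.rpow_add hℓ0, pow_two]
    exact mul_le_mul hU hU (Nat.cast_nonneg _) (by positivity)
  have hij : (i.1 : ℝ) * (j.1 : ℝ) ≤ ℓ ^ (aQ + aQ) := by
    rw [Real.rpow_add hℓ0]
    exact mul_le_mul hi2 hj2 (Nat.cast_nonneg _) (by positivity)
  have hlhs : (U.card : ℝ) ^ 2 * ((i.1 : ℝ) * (j.1 : ℝ)) * (ℓ ^ cw + 1) ^ n ≤ ℓ ^ E := by
    rw [hE, Real.rpow_add hℓ0, Real.rpow_add hℓ0 (aU + aU)]
    refine mul_le_mul ?_ hpow (by positivity) (by positivity)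
    exact mul_le_mul hU2 hij (by positivity) (by positivity)
  have hP0 : 0 < P := lt_of_lt_of_le (Real.rpow_pos_of_pos hℓ0 _) hcx.box.P1
  have hT0 : 0 < T := lt_of_lt_of_le (by positivity) hcx.box.T1
  have hT : ℓ ^ E * ℓ ^ 5 ≤ T / (P * ℓ ^ ch) := by
    have hT1 : ℓ ^ cT / ℓ ^ ch ≤ T / (P * ℓ ^ ch) := by
      rw [div_le_div_iff₀ (by positivity) (by positivity)]
      have h9 : P * ℓ ^ cT ≤ T := hcx.box.T1
      have h10 : 0 < ℓ ^ ch := Real.rpow_pos_of_pos hℓ0 _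
      nlinarith
    refine le_trans ?_ hT1
    rw [← Real.rpow_sub hℓ0]
    have h5 : (ℓ : ℝ) ^ (5 : ℕ) = ℓ ^ (5 : ℝ) := by
      rw [← Real.rpow_natCast]
      norm_num
    rw [h5, ← Real.rpow_add hℓ0]
    apply Real.rpow_le_rpow_of_exponent_le hℓ1
    linarith
  refine hlhs.trans ?_
  have hEpos : 0 < ℓ ^ E := Real.rpow_pos_of_pos hℓ0 _
  have hkey : ℓ ^ E ≤ δ * (ℓ ^ E * ℓ ^ 5) * (c / ((cw + 1) * ℓ) ^ 4) := by
    have h6 : δ * (ℓ ^ E * ℓ ^ 5) * (c / ((cw + 1) * ℓ) ^ 4) =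
        ℓ ^ E * (δ * c * ℓ / (cw + 1) ^ 4) := by
      have : cw + 1 ≠ 0 := by linarith
      field_simp
    rw [h6]
    have h7 : 1 ≤ δ * c * ℓ / (cw + 1) ^ 4 := by
      have h8 : (0 : ℝ) < (cw + 1) ^ 4 := by positivity
      rw [le_div_iff₀ h8, one_mul]
      rw [div_le_iff₀ (by positivity)] at hℓc
      linarith
    nlinarith
  refine hkey.trans ?_
  apply mul_le_mul _ hVS (by positivity) (by positivity)
  exact mul_le_mul_of_nonneg_left hT hδ.le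

end Pool.Agent.Lib.MP391708.X3M
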