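import Pool.Agent.Lib.MP_391708_nt.X.MT.Main
import Pool.Agent.Lib.MP_391708_nt.QPA.FLP
import Pool.Agent.Lib.MP_391708_nt.X3.D.All
import Pool.Agent.Lib.MP_391708_nt.X3.MT.LPA
import Pool.Agent.Lib.MP_391708_nt.X3.MT.SQE
import Pool.Agent.Lib.MP_391708_nt.X3.MT.RED
import Pool.Agent.Lib.MP_391708_nt.X3.MT.AVB
import Pool.Agent.Lib.MP_391708_nt.X3.MT.AVP
import Pool.Agent.Lib.MP_391708_nt.X3.MT.AVW
import Pool.Agent.Lib.MP_391708_nt.X3.MT.BIL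
import Pool.Agent.Lib.MP_391708_nt.X3.MT.BLX
import Pool.Agent.Lib.MP_391708_nt.X3.MT.CCB
import Pool.Agent.Lib.MP_391708_nt.X3.MT.CE3
import Pool.Agent.Lib.MP_391708_nt.X3.MT.DUA
import Pool.Agent.Lib.MP_391708_nt.X3.MT.EXC
import Pool.Agent.Lib.MP_391708_nt.X3.MT.FLP
import Pool.Agent.Lib.MP_391708_nt.X3.MT.FMT
import Pool.Agent.Lib.MP_391708_nt.X3.MT.FRQ
import Pool.Agent.Lib.MP_391708_nt.X3.MT.FRU
import Pool.Agent.Lib.MP_391708_nt.X3.MT.LAM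
import Pool.Agent.Lib.MP_391708_nt.X3.MT.LNQ
import Pool.Agent.Lib.MP_391708_nt.X3.MT.LPM
import Pool.Agent.Lib.MP_391708_nt.X3.MT.MNX
import Pool.Agent.Lib.MP_391708_nt.X3.MT.PSM
import Pool.Agent.Lib.MP_391708_nt.X3.MT.RRA
import Pool.Agent.Lib.MP_391708_nt.X3.MT.SER
import Pool.Agent.Lib.MP_391708_nt.X3.MT.SIZ
import Pool.Agent.Lib.MP_391708_nt.X3.MT.TBU
import Pool.Agent.Lib.MP_391708_nt.X3.MT.XXL

/-!
# THEOREM X3 (MP_391708), part MT: assembly (helper6)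
-/

set_option autoImplicit false

namespace Pool.Agent.Lib.MP391708.X3M

open Pool.Agent.Lib.MP391708

theorem mt_siz : SpecSIZ := specSIZ
theorem mt_frq : SpecFRQ := specFRQ
theorem mt_fru : SpecFRU := specFRU XL.ls_lsm
theorem mt_tbu : SpecTBU := specTBU XL.ls_lsm
theorem mt_ce3 : SpecCE3 := specCE3 X.ce_celb
theorem mt_dua : SpecDUA := specDUA X.ce_celb
theorem mt_rra : SpecRRA := specRRA X.hm_rg0 mt_siz
theorem mt_ccb : SpecCCB := specCCB mt_ce3 mt_rra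

theorem mt_lam : SpecLAM := specLAM XL.ls_rgb
theorem mt_avw : SpecAVW := specAVW XL.ls_crtp XL.ls_gbb
theorem mt_avb : SpecAVB := specAVB mt_lam mt_avw mt_siz XL.ls_chb
theorem mt_avp : SpecAVP := specAVP
theorem mt_lnq : SpecLNQ := specLNQ XL.ls_cls XL.ls_per
theorem mt_exc : SpecEXC := specEXC
theorem mt_bil : SpecBIL := specBIL
theorem mt_mnx : SpecMNX := specMNX XM.mt_cnt mt_siz mt_avb XL.ls_lsm
theorem mt_xxl : SpecXXL := specXXL XM.mt_cnt mt_siz mt_rra XL.ls_lsm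

theorem mt_lpa : SpecLPA :=
  specLPA mt_lnq mt_avp XL.ls_geo XL.ls_qt XL.ls_pha XL.ls_rgb XL.ls_chb
theorem mt_lpm : SpecLPM := specLPM mt_lpa mt_siz mt_fru mt_tbu
theorem mt_sqe : SpecSQE := specSQE mt_lpm mt_lam mt_avw mt_dua mt_ce3 mt_siz XL.ls_chb
theorem mt_ser : SpecSER := specSER mt_sqe mt_lam
theorem mt_red : SpecRED :=
  specRED mt_exc mt_ser mt_lpm mt_avb mt_ccb mt_rra mt_siz mt_ce3 mt_fru XL.ls_chb
theorem mt_thd : XD3.SpecTHD := XD3.d_thd X.PH.mPHX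
theorem mt_psm : SpecPSM := specPSM mt_thd mt_siz
theorem mt_blx : SpecBLX := specBLX mt_bil mt_ce3 mt_psm mt_siz mt_frq mt_avb XL.ls_lsm
theorem mt_fmt : SpecFMT := specFMT mt_flp mt_red mt_blx mt_mnx mt_xxl mt_rra mt_siz XL.ls_chb

/-- the main term of THEOREM X3 -/
theorem mt : X3.SpecMT := by
  obtain ⟨c, hc, h⟩ := mt_fmt
  exact EV.specMT hc h

end Pool.Agent.Lib.MP391708.X3M
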