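import Pool.Agent.Lib.MP_391708_nt.X3.SpecMT
import Pool.Agent.Lib.MP_391708_nt.X.MT.BIL

/-!
# THEOREM X3 (MP_391708), part MT, module BIL: the bilinear sum
-/

set_option autoImplicit false

namespace Pool.Agent.Lib.MP391708.X3M
namespace BILM

open Finset
open Pool.Agent.Lib.MP391708.X.M4
open Pool.Agent.Lib.MP391708.XM.BILM (row_bound)

/-- large frequencies -/
lemma large_part {C c θ β : ℝ} {n : ℕ} (hC : 1 ≤ C) (hc : 0 < c) (hc1 : c ≤ 1) (h0 : 0 < β)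
    (h1 : β < 1) (hn : 1 ≤ n) (hCn : 1 ≤ C * n * (1 - β)) (hcn : c ≤ β ^ n)
    (T : ℝ) (hT : 1 ≤ T) (hθT : T ≤ |θ|) (hθ1 : |θ| * (1 - β) ≤ 1) (a y : ℕ → ℂ) :
    ‖∑ u ∈ range n, ∑ v ∈ range n, a u * y v * H θ β (u + v)‖
      ≤ (4 * (C / c ^ 2) * n * T ^ (-(1 / 4) : ℝ)) *
        (Real.sqrt (∑ u ∈ range n, ‖a u‖ ^ 2) * Real.sqrt (∑ j ∈ range n, ‖y j‖ ^ 2)) := by
  set κ : ℝ := 4 * (C / c ^ 2) * n * T ^ (-(1 / 4) : ℝ) with hκ
  have hκ0 : 0 ≤ κ := by positivity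
  have hθ0 : 0 < |θ| := by linarith
  have e1 : ∑ u ∈ range n, ∑ v ∈ range n, a u * y v * H θ β (u + v)
      = ∑ u ∈ range n, ∑ j ∈ range n,
        (a u * ((β ^ u : ℝ) : ℂ)) * (y j * ((β ^ j : ℝ) : ℂ)) * E (θ * β ^ (u + j)) := by
    apply sum_congr rfl
    intro u _
    apply sum_congr rfl
    intro j _
    unfold H
    push_cast
    ring
  have hne : θ ≠ 0 := by rintro rfl; simp at hθ0
  have hh := hankel h0 h1 hne hθ1 n (fun u => a u * ((β ^ u : ℝ) : ℂ))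
    (fun j => y j * ((β ^ j : ℝ) : ℂ))
  have hr := row_bound hC hc h0 h1 hn hCn hcn hc1 T hT hθT hθ1 0 (by omega)
  rw [pow_zero, mul_one] at hr
  have hsq : ∀ (f : ℕ → ℂ), ∑ u ∈ range n, ‖f u * ((β ^ u : ℝ) : ℂ)‖ ^ 2
      ≤ ∑ u ∈ range n, ‖f u‖ ^ 2 := by
    intro f
    apply sum_le_sum
    intro u _
    rw [norm_mul, Complex.norm_real, Real.norm_eq_abs, abs_of_nonneg (by positivity)]
    apply pow_le_pow_left₀ (by positivity)
    exact mul_le_of_le_one_right (norm_nonneg _) (pow_le_one₀ h0.le h1.le)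
  rw [e1]
  apply abs_le_of_sq_le_sq' _ (by positivity) |>.2
  refine hh.trans ?_
  rw [mul_pow κ, mul_pow (Real.sqrt _), Real.sq_sqrt (by positivity),
    Real.sq_sqrt (by positivity), ← mul_assoc]
  exact mul_le_mul (mul_le_mul hr (hsq a) (by positivity) (by positivity)) (hsq y)
    (by positivity) (by positivity)

/-- small frequencies -/
lemma small_part {θ β T : ℝ} (h0 : 0 < β) (h1 : β < 1) (hθT : |θ| ≤ T) (n : ℕ) (a y : ℕ → ℂ) :
    ‖∑ u ∈ range n, ∑ v ∈ range n, a u * y v * H θ β (u + v)‖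
      ≤ ∑ u ∈ range n, (‖a u‖ * ‖∑ j ∈ range n, y j‖ +
        ∑ v ∈ range n, (1 + T) * (β ^ v - β ^ (v + 1)) * (‖a u‖ * ‖∑ j ∈ range (v + 1), y j‖)) := by
  refine (norm_sum_le _ _).trans (sum_le_sum fun u _ => ?_)
  have e1 : ∑ v ∈ range n, a u * y v * H θ β (u + v) = a u * ∑ v ∈ range n, y v * H θ β (u + v) := by
    rw [mul_sum]
    apply sum_congr rfl
    intro v _
    ring
  rw [e1, norm_mul, parts]
  have e2 : ‖(∑ i ∈ range n, y i) * H θ β (u + n) -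
      ∑ i ∈ range n, (∑ j ∈ range (i + 1), y j) * (H θ β (u + (i + 1)) - H θ β (u + i))‖ ≤
      ‖∑ j ∈ range n, y j‖ + ∑ v ∈ range n, (1 + T) * (β ^ v - β ^ (v + 1)) *
        ‖∑ j ∈ range (v + 1), y j‖ := by
    refine (norm_sub_le _ _).trans (add_le_add ?_ ((norm_sum_le _ _).trans (sum_le_sum ?_)))
    · rw [norm_mul]
      exact mul_le_of_le_one_right (norm_nonneg _) (norm_H_le h0 h1 _)
    · intro v _
      rw [norm_mul, mul_comm]
      apply mul_le_mul_of_nonneg_right _ (norm_nonneg _)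
      have h2 := norm_H_sub_le (θ := θ) h0 h1 (u + v)
      rw [show u + (v + 1) = u + v + 1 by ring]
      refine h2.trans ?_
      have h3 : β ^ (u + v) - β ^ (u + v + 1) = β ^ u * (β ^ v - β ^ (v + 1)) := by ring
      have h4 : 0 ≤ β ^ v - β ^ (v + 1) := by
        have := pow_le_pow_of_le_one h0.le h1.le (show v ≤ v + 1 by omega)
        linarith
      have h5 : β ^ u ≤ 1 := pow_le_one₀ h0.le h1.le
      rw [h3]
      have h6 : β ^ u * (β ^ v - β ^ (v + 1)) ≤ β ^ v - β ^ (v + 1) := mul_le_of_le_one_left h4 h5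
      have h7 : 0 ≤ |θ| := abs_nonneg _
      calc (1 + |θ|) * (β ^ u * (β ^ v - β ^ (v + 1))) ≤ (1 + |θ|) * (β ^ v - β ^ (v + 1)) :=
            mul_le_mul_of_nonneg_left h6 (by linarith)
        _ ≤ (1 + T) * (β ^ v - β ^ (v + 1)) := mul_le_mul_of_nonneg_right (by linarith) h4
  refine (mul_le_mul_of_nonneg_left e2 (norm_nonneg _)).trans (le_of_eq ?_)
  rw [mul_add, mul_sum]
  congr 1
  apply sum_congr rfl
  intro v _
  ring

lemma cs {ι : Type} (Ψ : Finset ι) (f g : ι → ℝ) {A Y : ℝ} (hA : 0 ≤ A) (hY : 0 ≤ Y)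
    (h1 : ∑ i ∈ Ψ, f i ^ 2 ≤ A ^ 2) (h2 : ∑ i ∈ Ψ, g i ^ 2 ≤ Y ^ 2) :
    ∑ i ∈ Ψ, f i * g i ≤ A * Y := by
  have e3 := Real.sum_mul_le_sqrt_mul_sqrt Ψ f g
  refine e3.trans ?_
  have e4 : Real.sqrt (∑ i ∈ Ψ, f i ^ 2) ≤ A := Real.sqrt_le_iff.2 ⟨hA, h1⟩
  have e5 : Real.sqrt (∑ i ∈ Ψ, g i ^ 2) ≤ Y := Real.sqrt_le_iff.2 ⟨hY, h2⟩
  exact mul_le_mul e4 e5 (Real.sqrt_nonneg _) hA

end BILM

open BILM in
open Finset in
open Pool.Agent.Lib.MP391708.X.M4 in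
theorem specBIL : SpecBIL := by
  intro C c hC hc hc1 β n h0 h1 hn hCn hcn ι Ψ θ g a y A Y ε T hA hY hε hT hθ hg ha hy hs
  have hn' : (1 : ℝ) ≤ n := by exact_mod_cast hn
  set κ : ℝ := 4 * (C / c ^ 2) * n * T ^ (-(1 / 4) : ℝ) with hκ
  have hκ0 : 0 ≤ κ := by positivity
  have hD : ∀ v, 0 ≤ β ^ v - β ^ (v + 1) := by
    intro v
    have := pow_le_pow_of_le_one h0.le h1.le (show v ≤ v + 1 by omega)
    linarith
  have hDs : ∑ v ∈ range n, (β ^ v - β ^ (v + 1)) ≤ 1 := by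
    rw [Finset.sum_range_sub' (fun i => β ^ i)]
    have : 0 < β ^ n := by positivity
    simp only [pow_zero]
    linarith
  have key : ∀ i ∈ Ψ, ‖g i * ∑ u ∈ range n, ∑ v ∈ range n, a i u * y i v * H (θ i) β (u + v)‖
      ≤ (∑ u ∈ range n, (‖a i u‖ * ‖∑ j ∈ range n, y i j‖ +
        ∑ v ∈ range n, (1 + T) * (β ^ v - β ^ (v + 1)) * (‖a i u‖ * ‖∑ j ∈ range (v + 1), y i j‖)))
        + κ * (Real.sqrt (∑ u ∈ range n, ‖a i u‖ ^ 2)
          * Real.sqrt (∑ j ∈ range n, ‖y i j‖ ^ 2)) := by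
    intro i hi
    have p1 : 0 ≤ ∑ u ∈ range n, (‖a i u‖ * ‖∑ j ∈ range n, y i j‖ +
        ∑ v ∈ range n, (1 + T) * (β ^ v - β ^ (v + 1)) *
          (‖a i u‖ * ‖∑ j ∈ range (v + 1), y i j‖)) := by
      apply sum_nonneg
      intro u _
      apply add_nonneg (by positivity)
      apply sum_nonneg
      intro v _
      have := hD v
      positivity
    have p2 : 0 ≤ κ * (Real.sqrt (∑ u ∈ range n, ‖a i u‖ ^ 2)
          * Real.sqrt (∑ j ∈ range n, ‖y i j‖ ^ 2)) := by positivity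
    rw [norm_mul]
    have hb : ‖∑ u ∈ range n, ∑ v ∈ range n, a i u * y i v * H (θ i) β (u + v)‖
        ≤ (∑ u ∈ range n, (‖a i u‖ * ‖∑ j ∈ range n, y i j‖ +
        ∑ v ∈ range n, (1 + T) * (β ^ v - β ^ (v + 1)) * (‖a i u‖ * ‖∑ j ∈ range (v + 1), y i j‖)))
        + κ * (Real.sqrt (∑ u ∈ range n, ‖a i u‖ ^ 2)
          * Real.sqrt (∑ j ∈ range n, ‖y i j‖ ^ 2)) := by
      rcases le_total |θ i| T with h | h
      · have := small_part (θ := θ i) h0 h1 h n (a i) (y i)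
        linarith
      · have := large_part hC hc hc1 h0 h1 hn hCn hcn T hT h (hθ i hi) (a i) (y i)
        linarith
    calc ‖g i‖ * _ ≤ 1 * _ := mul_le_mul_of_nonneg_right (hg i hi) (norm_nonneg _)
      _ ≤ _ := by rw [one_mul]; exact hb
  refine (sum_le_sum key).trans ?_
  rw [sum_add_distrib, ← mul_sum]
  -- first sum
  have hεY : 0 ≤ ε * Y * n := by positivity
  have s1 : ∑ i ∈ Ψ, ∑ u ∈ range n, (‖a i u‖ * ‖∑ j ∈ range n, y i j‖ +
      ∑ v ∈ range n, (1 + T) * (β ^ v - β ^ (v + 1)) * (‖a i u‖ * ‖∑ j ∈ range (v + 1), y i j‖))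
      ≤ n * ((2 + T) * (A * (ε * Y * n))) := by
    rw [sum_comm]
    have e1 : ∀ u ∈ range n, ∑ i ∈ Ψ, (‖a i u‖ * ‖∑ j ∈ range n, y i j‖ +
        ∑ v ∈ range n, (1 + T) * (β ^ v - β ^ (v + 1)) * (‖a i u‖ * ‖∑ j ∈ range (v + 1), y i j‖))
        ≤ (2 + T) * (A * (ε * Y * n)) := by
      intro u hu
      rw [sum_add_distrib]
      have e2 : ∑ i ∈ Ψ, ‖a i u‖ * ‖∑ j ∈ range n, y i j‖ ≤ A * (ε * Y * n) :=
        cs Ψ (fun i => ‖a i u‖) (fun i => ‖∑ j ∈ range n, y i j‖) hA hεY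
          (ha u (mem_range.1 hu)) (hs n le_rfl)
      have e3 : ∑ i ∈ Ψ, ∑ v ∈ range n, (1 + T) * (β ^ v - β ^ (v + 1)) *
          (‖a i u‖ * ‖∑ j ∈ range (v + 1), y i j‖) ≤ (1 + T) * (A * (ε * Y * n)) := by
        rw [sum_comm]
        calc ∑ v ∈ range n, ∑ i ∈ Ψ, (1 + T) * (β ^ v - β ^ (v + 1)) *
              (‖a i u‖ * ‖∑ j ∈ range (v + 1), y i j‖)
            ≤ ∑ v ∈ range n, (1 + T) * (β ^ v - β ^ (v + 1)) * (A * (ε * Y * n)) := by
              apply sum_le_sum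
              intro v hv
              rw [← mul_sum]
              apply mul_le_mul_of_nonneg_left _ (mul_nonneg (by linarith) (hD v))
              exact cs Ψ (fun i => ‖a i u‖) (fun i => ‖∑ j ∈ range (v + 1), y i j‖) hA hεY
                (ha u (mem_range.1 hu)) (hs (v + 1) (by have := mem_range.1 hv; omega))
          _ = (∑ v ∈ range n, (β ^ v - β ^ (v + 1))) * ((1 + T) * (A * (ε * Y * n))) := by
              rw [sum_mul]
              apply sum_congr rfl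
              intro v _
              ring
          _ ≤ 1 * ((1 + T) * (A * (ε * Y * n))) :=
              mul_le_mul_of_nonneg_right hDs (by positivity)
          _ = _ := one_mul _
      calc _ ≤ A * (ε * Y * n) + (1 + T) * (A * (ε * Y * n)) := add_le_add e2 e3
        _ = _ := by ring
    refine (sum_le_sum e1).trans (le_of_eq ?_)
    rw [sum_const, card_range, nsmul_eq_mul]
  -- second sum
  have s2 : ∑ i ∈ Ψ, Real.sqrt (∑ u ∈ range n, ‖a i u‖ ^ 2) * Real.sqrt (∑ j ∈ range n, ‖y i j‖ ^ 2)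
      ≤ (Real.sqrt n * A) * (Real.sqrt n * Y) := by
    apply cs Ψ _ _ (by positivity) (by positivity)
    · rw [mul_pow, Real.sq_sqrt (by positivity)]
      calc ∑ i ∈ Ψ, Real.sqrt (∑ u ∈ range n, ‖a i u‖ ^ 2) ^ 2
          = ∑ u ∈ range n, ∑ i ∈ Ψ, ‖a i u‖ ^ 2 := by
            rw [sum_comm]
            apply sum_congr rfl
            intro i _
            rw [Real.sq_sqrt (by positivity)]
        _ ≤ ∑ u ∈ range n, A ^ 2 := sum_le_sum fun u hu => ha u (mem_range.1 hu)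
        _ = n * A ^ 2 := by rw [sum_const, card_range, nsmul_eq_mul]
    · rw [mul_pow, Real.sq_sqrt (by positivity)]
      calc ∑ i ∈ Ψ, Real.sqrt (∑ j ∈ range n, ‖y i j‖ ^ 2) ^ 2
          = ∑ j ∈ range n, ∑ i ∈ Ψ, ‖y i j‖ ^ 2 := by
            rw [sum_comm]
            apply sum_congr rfl
            intro i _
            rw [Real.sq_sqrt (by positivity)]
        _ ≤ ∑ j ∈ range n, Y ^ 2 := sum_le_sum fun j hj => hy j (mem_range.1 hj)
        _ = n * Y ^ 2 := by rw [sum_const, card_range, nsmul_eq_mul]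
  have s3 : (Real.sqrt n * A) * (Real.sqrt n * Y) = n * (A * Y) := by
    calc (Real.sqrt n * A) * (Real.sqrt n * Y) = (Real.sqrt n * Real.sqrt n) * (A * Y) := by ring
      _ = n * (A * Y) := by rw [Real.mul_self_sqrt (by positivity)]
  rw [s3] at s2
  have s4 := mul_le_mul_of_nonneg_left s2 hκ0
  have hAY : 0 ≤ A * Y := mul_nonneg hA hY
  have s5 : (2 + T) * ε ≤ 3 * T * ε := by nlinarith
  have s6 : n * ((2 + T) * (A * (ε * Y * n))) ≤ 3 * T * ε * n ^ 2 * (A * Y) := by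
    calc n * ((2 + T) * (A * (ε * Y * n))) = (2 + T) * ε * (n ^ 2 * (A * Y)) := by ring
      _ ≤ 3 * T * ε * (n ^ 2 * (A * Y)) := mul_le_mul_of_nonneg_right s5 (by positivity)
      _ = _ := by ring
  have s7 : κ * (n * (A * Y)) ≤ 8 * (C / c ^ 2) * T ^ (-(1 / 4) : ℝ) * n ^ 2 * (A * Y) := by
    have : κ * (n * (A * Y)) = 4 * ((C / c ^ 2) * T ^ (-(1 / 4) : ℝ) * n ^ 2 * (A * Y)) := by
      rw [hκ]; ring
    rw [this]
    have h9 : 0 ≤ (C / c ^ 2) * T ^ (-(1 / 4) : ℝ) * n ^ 2 * (A * Y) := by positivity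
    nlinarith
  calc _ ≤ 3 * T * ε * n ^ 2 * (A * Y) + 8 * (C / c ^ 2) * T ^ (-(1 / 4) : ℝ) * n ^ 2 * (A * Y) :=
        add_le_add (s1.trans s6) (s4.trans s7)
    _ = _ := by ring

end Pool.Agent.Lib.MP391708.X3M
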