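import Pool.Agent.Lib.MP_391708_nt.X3.SpecMT

/-!
# THEOREM X3 (MP_391708), part MT, module LAM: the divisor sums, pointwise
-/

set_option autoImplicit false

namespace Pool.Agent.Lib.MP391708.X3M

open Finset Filter Topology Pool.Agent.Lib.MP391708.MR
open Pool.Agent.Lib.MP391708.X (ChiG hk Dist Fam rgh VP Ix psi ix1 UOK lc On)
open Pool.Agent.Lib.MP391708.X3
open Pool.Agent.Lib.MP391708.XL (gb VS PS pt LN)
open Pool.Agent.Lib.MP391708.QPA (PB)
open Pool.Agent.Lib.MP391708.QPA.FLW (Dset)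
open scoped ComplexConjugate

namespace LAMM

open scoped Classical in
/-- the indicator of the primes of `PS w` which divide the norm of `z` -/
noncomputable def ind (w : ℝ) (z : Gi) (p : ℕ) : ℝ := if p ∈ PS w ∧ p ∣ nm z then 1 else 0

lemma ind_range (w : ℝ) (z : Gi) (p : ℕ) : 0 ≤ ind w z p ∧ ind w z p ≤ 1 := by
  unfold ind
  split_ifs <;> norm_num

/-- the product over all primes is the indicator of the rough numbers -/
lemma prod_ind (hRGB : XL.SpecRGB) {w : ℝ} (hw : 1 ≤ w) {z : Gi} (hz : z ≠ 0) :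
    ∏ p ∈ PB (w + 1), (1 - ind w z p) = ro w z := by
  classical
  obtain ⟨h1, h2⟩ := hRGB w z hz (by linarith)
  unfold ro
  by_cases hr : rgh w z
  · rw [if_pos hr]
    refine prod_eq_one fun p _ => ?_
    unfold ind
    rw [if_neg, sub_zero]
    rintro ⟨h3, h4⟩
    exact h1.1 hr p h3 h4
  · rw [if_neg hr]
    have h3 : ¬ XL.rg (PS w) z := fun h => hr (h1.2 h)
    unfold XL.rg at h3
    push Not at h3
    obtain ⟨p, hp, hd⟩ := h3
    obtain ⟨h4, h5⟩ := h2 p hp
    refine prod_eq_zero (i := p) ?_ ?_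
    · unfold PB
      rw [mem_filter, mem_range]
      exact ⟨Nat.lt_ceil.2 h5, h4⟩
    · unfold ind
      rw [if_pos ⟨hp, hd⟩, sub_self]

/-- the divisor sum -/
lemma sum_ind (w : ℝ) (m : ℕ) (f : ℕ → ℝ) (z : Gi) :
    ∑ δ ∈ Dset (w + 1) m, f δ * ∏ p ∈ δ.primeFactors, ind w z p = lam w m f z := by
  classical
  unfold lam
  rw [sum_filter]
  refine sum_congr rfl fun δ hδ => ?_
  have hsq : Squarefree δ := by
    unfold Dset at hδ
    rw [mem_filter] at hδ
    exact hδ.2.1
  by_cases h : δ.primeFactors ⊆ PS w ∧ δ ∣ nm z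
  · rw [if_pos h, prod_eq_one, mul_one]
    intro p hp
    unfold ind
    rw [if_pos ⟨h.1 hp, (Nat.dvd_of_mem_primeFactors hp).trans h.2⟩]
  · rw [if_neg h]
    have h1 : ∃ p ∈ δ.primeFactors, ind w z p = 0 := by
      by_contra hno
      push Not at hno
      apply h
      have h2 : ∀ p ∈ δ.primeFactors, p ∈ PS w ∧ p ∣ nm z := by
        intro p hp
        by_contra h3
        apply hno p hp
        unfold ind
        rw [if_neg h3]
      refine ⟨fun p hp => (h2 p hp).1, ?_⟩
      rw [← Nat.prod_primeFactors_of_squarefree hsq]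
      exact prod_primes_dvd _ (fun p hp => (Nat.prime_of_mem_primeFactors hp).prime)
        fun p hp => (h2 p hp).2
    obtain ⟨p, hp, h2⟩ := h1
    rw [prod_eq_zero hp h2, mul_zero]

end LAMM

open LAMM in
theorem specLAM (hRGB : XL.SpecRGB) : SpecLAM := by
  intro C w m c d hw hW z hz
  have h1 := hW.lo (ind w z) fun p _ => ind_range w z p
  have h2 := hW.up (ind w z) fun p _ => ind_range w z p
  rw [prod_ind hRGB hw hz, sum_ind] at h1 h2
  rw [sum_ind] at h2
  exact ⟨h1, h2⟩

end Pool.Agent.Lib.MP391708.X3M
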